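import Mathlib

/-!
# MP_eb2336_co : definitions used in the proof

`CommCompl K` : the fundamental group of the complement of `K ⊆ ℝ³` is commutative at every base
point.  `curve R ep em` : the long curve attached to two half chains (edge vectors `ep`, `em`
issued from the middle vertex), followed up to the first exit from the ball of radius `R` and then
continued by radial rays.
-/

noncomputable section

open Set Filter Topology MeasureTheory

namespace MPeb2336

/-- Euclidean three-space. -/
abbrev E3 := EuclideanSpace ℝ (Fin 3)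

/-- The fundamental group of the complement of `K` is commutative (at every base point). -/
def CommCompl (K : Set E3) : Prop :=
  ∀ (x : ↥(Kᶜ)) (a b : FundamentalGroup ↥(Kᶜ) x), a * b = b * a

/-- Polygonal half curve with edge vectors `e 0, e 1, …` issued from the origin. -/
def half (e : ℕ → E3) (s : ℝ) : E3 := ∫ u in (0:ℝ)..s, e ⌊u⌋₊

/-- First exit time from the ball of radius `R`. -/
def exitT (R : ℝ) (e : ℕ → E3) : ℝ := sInf {s : ℝ | 0 ≤ s ∧ R ≤ ‖half e s‖}

/-- Velocity of the half curve which is continued radially after the exit time. -/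
def vel (R : ℝ) (e : ℕ → E3) (u : ℝ) : E3 :=
  if u < exitT R e then e ⌊u⌋₊ else (1 / R) • half e (exitT R e)

/-- Velocity of the two-sided curve. -/
def vel2 (R : ℝ) (ep em : ℕ → E3) (u : ℝ) : E3 :=
  if 0 ≤ u then vel R ep u else - vel R em (-u)

/-- The two-sided long curve. -/
def curve (R : ℝ) (ep em : ℕ → E3) (x : ℝ) : E3 := ∫ u in (0:ℝ)..x, vel2 R ep em u

/-- Half chains considered: `a` = number of central links of this half; edge lengths in
`[1, 1.001]`, turn angles at most `π/2`, and after `a` links the direction is almost constant. -/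
structure HalfCert (a : ℕ) (e : ℕ → E3) : Prop where
  lb : ∀ k, 1 ≤ ‖e k‖
  ub : ∀ k, ‖e k‖ ≤ 1001 / 1000
  turn : ∀ k, 0 ≤ inner ℝ (e k) (e (k + 1))
  needle : ∀ k, a ≤ k → ‖e k - e a‖ ≤ 1 / 500

/-- Integral of a velocity field, with the data of the model curve. -/
structure GoodModel (V : ℝ → E3) (c C S : ℝ) : Prop where
  c_pos : 0 < c
  S_pos : 0 < S
  lip : ∀ s t, ‖V s - V t‖ ≤ C * |s - t|
  right : ∀ s, S ≤ s → V s = V S
  left : ∀ s, s ≤ -S → V s = V (-S)
  bilip : ∀ s t, c * |s - t| ≤ ‖∫ u in s..t, V u‖
  nontrivial : ¬ CommCompl (range fun s => ∫ u in (0:ℝ)..s, V u)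

end MPeb2336
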