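import Mathlib

/-!
The complement of a properly embedded, locally monotone long curve in the plane has at most
two path components.
-/

open Set Filter Topology Complex

namespace MPeb2336

lemma combo_pos {α β p q : ℝ} (hα : 0 ≤ α) (hβ : 0 ≤ β) (h : α + β = 1) (hp : 0 < p)
    (hq : 0 < q) : 0 < α * p + β * q := by
  rcases hα.eq_or_lt with h0 | h0
  · subst h0
    have : β = 1 := by linarith
    subst this
    simpa using hq
  · have h1 : 0 < α * p := mul_pos h0 hp
    have h2 : 0 ≤ β * q := mul_nonneg hβ hq.le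
    linarith

/-- Local structure near a point where the real part is strictly monotone. -/
lemma local_two_re (G : ℝ → ℂ) (hc : Continuous G) (hemb : IsClosedEmbedding G) (s r : ℝ)
    (hr : 0 < r) (hmono : StrictMonoOn (fun t => (G t).re) (Icc (s - r) (s + r))) :
    ∃ N : Set ℂ, IsOpen N ∧ G s ∈ N ∧ ∃ S : Fin 2 → Set ℂ,
      (∀ i, ∀ u ∈ S i, ∀ v ∈ S i, JoinedIn (range G)ᶜ u v) ∧
      (∀ z ∈ N, z ∉ range G → ∃ i, z ∈ S i) ∧
      (∀ᶠ t in 𝓝 s, ∀ i, G t ∈ closure (S i)) := by
  obtain ⟨V, hVo, hV⟩ := (hemb.isInducing.isOpen_iff).1 (isOpen_Ioo (a := s - r) (b := s + r))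
  have hVmem : ∀ t, G t ∈ V ↔ t ∈ Ioo (s - r) (s + r) := by
    intro t
    rw [← hV]
    rfl
  have hsV : G s ∈ V := (hVmem s).2 ⟨by linarith, by linarith⟩
  obtain ⟨ρ', hρ', hball⟩ := Metric.isOpen_iff.1 hVo (G s) hsV
  set ρ := ρ' / 2 with hρdef
  have hρ : 0 < ρ := by positivity
  have hboxV : ∀ z : ℂ, |z.re - (G s).re| < ρ → |z.im - (G s).im| < ρ → z ∈ V := by
    intro z h1 h2
    apply hball
    rw [Metric.mem_ball, dist_eq_norm]
    calc ‖z - G s‖ ≤ |(z - G s).re| + |(z - G s).im| := Complex.norm_le_abs_re_add_abs_im _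
      _ < ρ + ρ := by
        rw [Complex.sub_re, Complex.sub_im]
        exact add_lt_add h1 h2
      _ = ρ' := by rw [hρdef]; ring
  -- continuity of the imaginary part
  have hcim : Continuous fun t => (G t).im := Complex.continuous_im.comp hc
  have hcre : Continuous fun t => (G t).re := Complex.continuous_re.comp hc
  obtain ⟨η0, hη0, hη0'⟩ := Metric.continuous_iff.1 hcim s (ρ / 2) (by positivity)
  set η := min η0 r / 2 with hηdef
  have hηpos : 0 < η := by
    have : 0 < min η0 r := lt_min hη0 hr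
    positivity
  have hη1 : η < η0 := by
    have h1 : min η0 r ≤ η0 := min_le_left _ _
    have : 0 < min η0 r := lt_min hη0 hr
    rw [hηdef]; linarith
  have hη2 : η < r := by
    have h1 : min η0 r ≤ r := min_le_right _ _
    have : 0 < min η0 r := lt_min hη0 hr
    rw [hηdef]; linarith
  have hbs : ∀ t, |t - s| ≤ η → |(G t).im - (G s).im| < ρ / 2 := by
    intro t ht
    have := hη0' t (by rw [Real.dist_eq]; exact lt_of_le_of_lt ht hη1)
    rwa [Real.dist_eq] at this
  -- the horizontal size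
  have ha1 : (G s).re < (G (s + η)).re :=
    hmono ⟨by linarith, by linarith⟩ ⟨by linarith, by linarith⟩ (by linarith)
  have ha2 : (G (s - η)).re < (G s).re :=
    hmono ⟨by linarith, by linarith⟩ ⟨by linarith, by linarith⟩ (by linarith)
  obtain ⟨ρ1, hρ1pos, hρ1a, hρ1b, hρ1c⟩ : ∃ ρ1 : ℝ, 0 < ρ1 ∧ ρ1 ≤ ρ ∧
      (G s).re + ρ1 ≤ (G (s + η)).re ∧ (G (s - η)).re ≤ (G s).re - ρ1 := by
    refine ⟨min ρ (min ((G (s + η)).re - (G s).re) ((G s).re - (G (s - η)).re)), ?_, ?_, ?_, ?_⟩
    · exact lt_min hρ (lt_min (by linarith) (by linarith))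
    · exact min_le_left _ _
    · have := (min_le_right ρ (min ((G (s + η)).re - (G s).re)
        ((G s).re - (G (s - η)).re))).trans (min_le_left _ _)
      linarith
    · have := (min_le_right ρ (min ((G (s + η)).re - (G s).re)
        ((G s).re - (G (s - η)).re))).trans (min_le_right _ _)
      linarith
  have hnear : ∀ t ∈ Ioo (s - r) (s + r), |(G t).re - (G s).re| < ρ1 → |t - s| ≤ η := by
    intro t ht hat
    rw [abs_lt] at hat
    rw [abs_le]
    constructor
    · by_contra hcon
      have hlt : t < s - η := by linarith [not_le.1 hcon]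
      have : (G t).re < (G (s - η)).re :=
        hmono ⟨ht.1.le, ht.2.le⟩ ⟨by linarith, by linarith⟩ hlt
      linarith [hat.1]
    · by_contra hcon
      have hlt : s + η < t := by linarith [not_le.1 hcon]
      have : (G (s + η)).re < (G t).re :=
        hmono ⟨by linarith, by linarith⟩ ⟨ht.1.le, ht.2.le⟩ hlt
      linarith [hat.2]
  have hinjre : ∀ t ∈ Ioo (s - r) (s + r), ∀ t' ∈ Ioo (s - r) (s + r),
      (G t).re = (G t').re → t = t' := by
    intro t ht t' ht' h
    exact hmono.injOn ⟨ht.1.le, ht.2.le⟩ ⟨ht'.1.le, ht'.2.le⟩ h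
  have hivt : ∀ x, |x - (G s).re| < ρ1 → ∃ t ∈ Ioo (s - r) (s + r), (G t).re = x := by
    intro x hx
    rw [abs_lt] at hx
    have := intermediate_value_Icc (a := s - η) (b := s + η) (by linarith) hcre.continuousOn
    obtain ⟨t, ht, hte⟩ := this (show x ∈ Icc (G (s - η)).re (G (s + η)).re from
      ⟨by linarith [hx.1], by linarith [hx.2]⟩)
    exact ⟨t, ⟨by linarith [ht.1], by linarith [ht.2]⟩, hte⟩
  set B : Set ℂ := {z | |z.re - (G s).re| < ρ1 ∧ |z.im - (G s).im| < ρ} with hB
  have hBo : IsOpen B := by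
    have h1 : Continuous fun z : ℂ => |z.re - (G s).re| :=
      (Complex.continuous_re.sub continuous_const).abs
    have h2 : Continuous fun z : ℂ => |z.im - (G s).im| :=
      (Complex.continuous_im.sub continuous_const).abs
    exact (isOpen_lt h1 continuous_const).inter (isOpen_lt h2 continuous_const)
  have hsB : G s ∈ B := by
    constructor <;> simp [hρ1pos, hρ]
  have hBV : B ⊆ V := fun z hz => hboxV z (lt_of_lt_of_le hz.1 hρ1a) hz.2
  set σ : Fin 2 → ℝ := ![1, -1] with hσ
  have hσ2 : ∀ i, σ i = 1 ∨ σ i = -1 := by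
    intro i; fin_cases i <;> simp [hσ]
  set S : Fin 2 → Set ℂ := fun i =>
    {z | z ∈ B ∧ ∀ t ∈ Ioo (s - r) (s + r), (G t).re = z.re → 0 < σ i * (z.im - (G t).im)} with hS
  have hSK : ∀ i, S i ⊆ (range G)ᶜ := by
    rintro i z ⟨hzB, hz⟩ ⟨t, rfl⟩
    have ht : t ∈ Ioo (s - r) (s + r) := (hVmem t).1 (hBV hzB)
    have := hz t ht rfl
    simp at this
  have hSj : ∀ i, ∀ u ∈ S i, ∀ v ∈ S i, JoinedIn (range G)ᶜ u v := by
    intro i
    set c : ℝ := (G s).im + σ i * (3 / 4 * ρ) with hcdef
    have hcB : |c - (G s).im| < ρ := by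
      rw [hcdef, add_sub_cancel_left]
      rcases hσ2 i with h | h
      · rw [h, one_mul, abs_of_pos (by positivity)]; linarith
      · rw [h, neg_one_mul, abs_neg, abs_of_pos (by positivity)]; linarith
    have hcpos : ∀ t ∈ Ioo (s - r) (s + r), |(G t).re - (G s).re| < ρ1 →
        0 < σ i * (c - (G t).im) := by
      intro t ht hat
      have h1 := hbs t (hnear t ht hat)
      rw [abs_lt] at h1
      rw [hcdef]
      rcases hσ2 i with h | h
      · rw [h]; linarith [h1.2]
      · rw [h]; linarith [h1.1]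
    have hvert : ∀ u ∈ S i, JoinedIn (range G)ᶜ u ⟨u.re, c⟩ := by
      intro u hu
      apply JoinedIn.of_segment_subset
      refine Subset.trans ?_ (hSK i)
      rintro z ⟨α, β, hα, hβ, hαβ, rfl⟩
      have hre : (α • u + β • (⟨u.re, c⟩ : ℂ)).re = u.re := by
        simp only [add_re, real_smul, mul_re, ofReal_re, ofReal_im, zero_mul, sub_zero]
        rw [← add_mul, hαβ, one_mul]
      have him : (α • u + β • (⟨u.re, c⟩ : ℂ)).im = α * u.im + β * c := by
        simp only [add_im, real_smul, mul_im, ofReal_re, ofReal_im, zero_mul, add_zero]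
      refine ⟨⟨?_, ?_⟩, ?_⟩
      · rw [hre]; exact hu.1.1
      · rw [him]
        have h1 := hu.1.2
        rw [abs_lt] at h1 hcB ⊢
        have e1 := combo_pos hα hβ hαβ (p := u.im - (G s).im + ρ) (q := c - (G s).im + ρ)
          (by linarith [h1.1]) (by linarith [hcB.1])
        have e2 := combo_pos hα hβ hαβ (p := ρ - (u.im - (G s).im)) (q := ρ - (c - (G s).im))
          (by linarith [h1.2]) (by linarith [hcB.2])
        have hβ' : β = 1 - α := by linarith
        subst hβ'
        constructor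
        · linarith
        · linarith
      · intro t ht hte
        rw [hre] at hte
        rw [him]
        have h1 := hu.2 t ht hte
        have h2 := hcpos t ht (by rw [hte]; exact hu.1.1)
        have e := combo_pos hα hβ hαβ h1 h2
        have hβ' : β = 1 - α := by linarith
        subst hβ'
        linarith
    have hhor : ∀ x y : ℝ, |x - (G s).re| < ρ1 → |y - (G s).re| < ρ1 →
        JoinedIn (range G)ᶜ (⟨x, c⟩ : ℂ) ⟨y, c⟩ := by
      intro x y hx hy
      apply JoinedIn.of_segment_subset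
      refine Subset.trans ?_ (hSK i)
      rintro z ⟨α, β, hα, hβ, hαβ, rfl⟩
      have hre : (α • (⟨x, c⟩ : ℂ) + β • (⟨y, c⟩ : ℂ)).re = α * x + β * y := by
        simp only [add_re, real_smul, mul_re, ofReal_re, ofReal_im, zero_mul, sub_zero]
      have him : (α • (⟨x, c⟩ : ℂ) + β • (⟨y, c⟩ : ℂ)).im = c := by
        simp only [add_im, real_smul, mul_im, ofReal_re, ofReal_im, zero_mul, add_zero]
        rw [← add_mul, hαβ, one_mul]
      have hreB : |(α * x + β * y) - (G s).re| < ρ1 := by
        rw [abs_lt] at hx hy ⊢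
        have e1 := combo_pos hα hβ hαβ (p := x - (G s).re + ρ1) (q := y - (G s).re + ρ1)
          (by linarith [hx.1]) (by linarith [hy.1])
        have e2 := combo_pos hα hβ hαβ (p := ρ1 - (x - (G s).re)) (q := ρ1 - (y - (G s).re))
          (by linarith [hx.2]) (by linarith [hy.2])
        have hβ' : β = 1 - α := by linarith
        subst hβ'
        constructor
        · linarith
        · linarith
      refine ⟨⟨?_, ?_⟩, ?_⟩
      · rw [hre]; exact hreB
      · rw [him]; exact hcB
      · intro t ht hte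
        rw [hre] at hte
        rw [him]
        exact hcpos t ht (by rw [hte]; exact hreB)
    intro u hu v hv
    exact (hvert u hu).trans ((hhor u.re v.re hu.1.1 hv.1.1).trans (hvert v hv).symm)
  refine ⟨B, hBo, hsB, S, hSj, ?_, ?_⟩
  · intro z hz hzK
    obtain ⟨t0, ht0, ht0e⟩ := hivt z.re hz.1
    have hne : z.im ≠ (G t0).im := by
      intro h
      exact hzK ⟨t0, Complex.ext ht0e h.symm⟩
    rcases lt_or_gt_of_ne hne with h | h
    · refine ⟨1, hz, ?_⟩
      intro t ht hte
      have : t = t0 := hinjre t ht t0 ht0 (hte.trans ht0e.symm)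
      subst this
      simp only [hσ, Matrix.cons_val_one, Matrix.cons_val_fin_one]
      linarith
    · refine ⟨0, hz, ?_⟩
      intro t ht hte
      have : t = t0 := hinjre t ht t0 ht0 (hte.trans ht0e.symm)
      subst this
      simp only [hσ, Matrix.cons_val_zero]
      linarith
  · have hev : ∀ᶠ t in 𝓝 s, G t ∈ B := hc.continuousAt.eventually_mem (hBo.mem_nhds hsB)
    filter_upwards [hev] with t ht i
    have htI : t ∈ Ioo (s - r) (s + r) := (hVmem t).1 (hBV ht)
    have hf : Continuous fun ε : ℝ => G t + ((σ i * ε : ℝ) : ℂ) * I := by fun_prop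
    have hf0 : Tendsto (fun ε : ℝ => G t + ((σ i * ε : ℝ) : ℂ) * I) (𝓝[>] 0) (𝓝 (G t)) := by
      have := (hf.tendsto 0).mono_left (nhdsWithin_le_nhds (s := Ioi (0 : ℝ)))
      simpa using this
    refine mem_closure_of_tendsto hf0 ?_
    have hB' : ∀ᶠ ε : ℝ in 𝓝[>] 0, G t + ((σ i * ε : ℝ) : ℂ) * I ∈ B :=
      hf0.eventually_mem (hBo.mem_nhds ht)
    filter_upwards [hB', self_mem_nhdsWithin] with ε hε hpos
    refine ⟨hε, ?_⟩
    intro t' ht' hte
    have hre : (G t + ((σ i * ε : ℝ) : ℂ) * I).re = (G t).re := by simp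
    have him : (G t + ((σ i * ε : ℝ) : ℂ) * I).im = (G t).im + σ i * ε := by simp
    rw [hre] at hte
    have : t' = t := hinjre t' ht' t htI hte
    subst this
    rw [him]
    have hpos' : (0 : ℝ) < ε := hpos
    rcases hσ2 i with h | h
    · rw [h]; linarith
    · rw [h]; linarith

/-- Local structure at a point where `Re (w F)` is strictly monotone. -/
lemma local_two (F : ℝ → ℂ) (hc : Continuous F) (hemb : IsClosedEmbedding F) (s r : ℝ)
    (hr : 0 < r) (w : ℂ) (hmono : StrictMonoOn (fun t => (w * F t).re) (Icc (s - r) (s + r))) :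
    ∃ N : Set ℂ, IsOpen N ∧ F s ∈ N ∧ ∃ S : Fin 2 → Set ℂ,
      (∀ i, ∀ u ∈ S i, ∀ v ∈ S i, JoinedIn (range F)ᶜ u v) ∧
      (∀ z ∈ N, z ∉ range F → ∃ i, z ∈ S i) ∧
      (∀ᶠ t in 𝓝 s, ∀ i, F t ∈ closure (S i)) := by
  have hw : w ≠ 0 := by
    rintro rfl
    have := hmono (a := s - r) (b := s + r) ⟨le_rfl, by linarith⟩ ⟨by linarith, le_rfl⟩
      (by linarith)
    simp at this
  let e : ℂ ≃ₜ ℂ := Homeomorph.mulLeft₀ w hw
  have he : ∀ z, e z = w * z := fun z => rfl
  obtain ⟨N, hNo, hsN, S, hSj, hcov, hcl⟩ := local_two_re (e ∘ F) (e.continuous.comp hc)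
    (e.isClosedEmbedding.comp hemb) s r hr hmono
  refine ⟨e ⁻¹' N, hNo.preimage e.continuous, hsN, fun i => e ⁻¹' (S i), ?_, ?_, ?_⟩
  · intro i u hu v hv
    have h1 := (hSj i (e u) hu (e v) hv).map e.symm.continuous
    rw [e.symm_apply_apply, e.symm_apply_apply] at h1
    refine h1.mono ?_
    rintro _ ⟨z, hz, rfl⟩ ⟨t, ht⟩
    apply hz
    refine ⟨t, ?_⟩
    show e (F t) = z
    rw [ht, e.apply_symm_apply]
  · intro z hz hzK
    refine hcov (e z) hz ?_
    rintro ⟨t, ht⟩
    exact hzK ⟨t, e.injective ht⟩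
  · filter_upwards [hcl] with t ht i
    rw [← e.preimage_closure]
    exact ht i

/-- Abstract form: a closed curve complement with local two-sidedness. -/
lemma two_components_of_local (F : ℝ → ℂ) (hc : Continuous F) (hK : IsClosed (range F))
    (hloc : ∀ s, ∃ N : Set ℂ, IsOpen N ∧ F s ∈ N ∧ ∃ S : Fin 2 → Set ℂ,
      (∀ i, ∀ u ∈ S i, ∀ v ∈ S i, JoinedIn (range F)ᶜ u v) ∧
      (∀ z ∈ N, z ∉ range F → ∃ i, z ∈ S i) ∧
      (∀ᶠ t in 𝓝 s, ∀ i, F t ∈ closure (S i)))
    {x y z : ℂ} (hx : x ∉ range F) (hy : y ∉ range F) (hz : z ∉ range F) :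
    JoinedIn (range F)ᶜ x y ∨ JoinedIn (range F)ᶜ y z ∨ JoinedIn (range F)ᶜ x z := by
  have key : ∀ x, x ∉ range F → ∀ s, F s ∈ closure {u | JoinedIn (range F)ᶜ x u} := by
    intro x hx
    set C : Set ℂ := {u | JoinedIn (range F)ᶜ x u} with hC
    set T : Set ℝ := {s | F s ∈ closure C} with hT
    have hTne : T.Nonempty := by
      obtain ⟨p, ⟨s, rfl⟩, hp⟩ := hK.exists_infDist_eq_dist ⟨F 0, mem_range_self 0⟩ x
      refine ⟨s, ?_⟩
      have hpos : 0 < Metric.infDist x (range F) := by
        rw [hp]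
        refine dist_pos.2 ?_
        rintro rfl
        exact hx (mem_range_self s)
      have hsub : Metric.ball x (Metric.infDist x (range F)) ⊆ C := by
        intro u hu
        apply JoinedIn.of_segment_subset
        have hseg := (convex_ball x (Metric.infDist x (range F))).segment_subset
          (Metric.mem_ball_self hpos) hu
        refine hseg.trans ?_
        intro v hv hvK
        have h1 := Metric.infDist_le_dist_of_mem (x := x) hvK
        rw [Metric.mem_ball, dist_comm] at hv
        exact absurd h1 (not_le.2 hv)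
      apply closure_mono hsub
      rw [closure_ball x hpos.ne']
      rw [Metric.mem_closedBall, dist_comm, hp]
    have hTcl : IsClosed T := isClosed_closure.preimage hc
    have hTop : IsOpen T := by
      rw [isOpen_iff_mem_nhds]
      intro s hs
      obtain ⟨N, hNo, hsN, S, hSj, hcov, hcl⟩ := hloc s
      obtain ⟨u, huN, huC⟩ := mem_closure_iff.1 hs N hNo hsN
      have huK : u ∉ range F := huC.target_mem
      obtain ⟨i, hi⟩ := hcov u huN huK
      have hsub : S i ⊆ C := fun v hv => JoinedIn.trans huC (hSj i u hi v hv)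
      filter_upwards [hcl] with t ht
      exact closure_mono hsub (ht i)
    have : T = univ := IsClopen.eq_univ ⟨hTcl, hTop⟩ hTne
    intro s
    have hs : s ∈ T := by rw [this]; trivial
    exact hs
  obtain ⟨N, hNo, hsN, S, hSj, hcov, -⟩ := hloc 0
  have hgood : ∀ x, x ∉ range F → ∃ u, JoinedIn (range F)ᶜ x u ∧ ∃ i : Fin 2, u ∈ S i := by
    intro x hx
    obtain ⟨u, huN, huC⟩ := mem_closure_iff.1 (key x hx 0) N hNo hsN
    exact ⟨u, huC, hcov u huN huC.target_mem⟩
  obtain ⟨u, hu, i, hi⟩ := hgood x hx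
  obtain ⟨v, hv, j, hj⟩ := hgood y hy
  obtain ⟨w, hw, k, hk⟩ := hgood z hz
  have hpig : i = j ∨ j = k ∨ i = k := by
    omega
  rcases hpig with h | h | h
  · subst h
    exact Or.inl (hu.trans ((hSj i u hi v hj).trans hv.symm))
  · subst h
    exact Or.inr (Or.inl (hv.trans ((hSj j v hj w hk).trans hw.symm)))
  · subst h
    exact Or.inr (Or.inr (hu.trans ((hSj i u hi w hk).trans hw.symm)))

theorem isClosedEmbedding_of_proper {E : Type*} [NormedAddCommGroup E] [ProperSpace E]
    (F : ℝ → E) (hc : Continuous F)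
    (hinj : Function.Injective F) (hprop : Tendsto (fun t => ‖F t‖) (cocompact ℝ) atTop) :
    IsClosedEmbedding F := by
  have h1 : Tendsto F (cocompact ℝ) (cocompact E) := by
    rw [← Metric.cobounded_eq_cocompact (α := E)]
    rwa [← tendsto_norm_atTop_iff_cobounded]
  have h2 : IsProperMap F := isProperMap_iff_tendsto_cocompact.2 ⟨hc, h1⟩
  exact IsClosedEmbedding.of_continuous_injective_isClosedMap hc hinj h2.isClosedMap

theorem planar_two_components (F : ℝ → ℂ) (hc : Continuous F) (hinj : Function.Injective F)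
    (hprop : Tendsto (fun t => ‖F t‖) (cocompact ℝ) atTop)
    (hLD : ∀ s, ∃ w : ℂ, ∃ r > 0, StrictMonoOn (fun t => (w * F t).re) (Icc (s - r) (s + r)))
    {x y z : ℂ} (hx : x ∉ range F) (hy : y ∉ range F) (hz : z ∉ range F) :
    JoinedIn (range F)ᶜ x y ∨ JoinedIn (range F)ᶜ y z ∨ JoinedIn (range F)ᶜ x z := by
  have hemb := isClosedEmbedding_of_proper F hc hinj hprop
  refine two_components_of_local F hc hemb.isClosed_range ?_ hx hy hz
  intro s
  obtain ⟨w, r, hr, hmono⟩ := hLD s
  exact local_two F hc hemb s r hr w hmono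

end MPeb2336
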