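import Mathlib

/-!
# MP_eb2336_co : the easy half of van Kampen's theorem

If `X = U ∪ L` with `U`, `L` open and simply connected and `U ∩ L` nonempty with at most two path
components, then the fundamental group of `X` is commutative (it is cyclic).
-/

noncomputable section

open Set Filter Topology Path.Homotopic

namespace MPeb2336

namespace VK

variable {X : Type*} [TopologicalSpace X]

/-- The class `c` has a representative path inside `s`. -/
def InS (s : Set X) {p q : X} (c : Path.Homotopic.Quotient p q) : Prop :=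
  ∃ γ : Path p q, (∀ t, γ t ∈ s) ∧ c = Path.Homotopic.Quotient.mk γ

theorem InS.left {s : Set X} {p q : X} {c : Path.Homotopic.Quotient p q} (h : InS s c) :
    p ∈ s := by
  obtain ⟨γ, hγ, -⟩ := h
  simpa using hγ 0

theorem InS.right {s : Set X} {p q : X} {c : Path.Homotopic.Quotient p q} (h : InS s c) :
    q ∈ s := by
  obtain ⟨γ, hγ, -⟩ := h
  simpa using hγ 1

theorem InS.refl {s : Set X} {p : X} (h : p ∈ s) :
    InS s (Path.Homotopic.Quotient.refl p) :=
  ⟨Path.refl p, fun _ => h, rfl⟩

theorem InS.symm {s : Set X} {p q : X} {c : Path.Homotopic.Quotient p q} (h : InS s c) :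
    InS s c.symm := by
  obtain ⟨γ, hγ, rfl⟩ := h
  exact ⟨γ.symm, fun t => hγ _, rfl⟩

theorem InS.trans {s : Set X} {p q r : X} {c : Path.Homotopic.Quotient p q}
    {d : Path.Homotopic.Quotient q r} (h : InS s c) (h' : InS s d) :
    InS s (c.trans d) := by
  obtain ⟨γ, hγ, rfl⟩ := h
  obtain ⟨δ, hδ, rfl⟩ := h'
  refine ⟨γ.trans δ, fun t => ?_, rfl⟩
  have : γ.trans δ t ∈ Set.range (γ.trans δ) := ⟨t, rfl⟩
  rw [Path.trans_range] at this
  rcases this with ⟨u, hu⟩ | ⟨u, hu⟩
  · rw [← hu]; exact hγ u
  · rw [← hu]; exact hδ u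

theorem InS.mono {s s' : Set X} (hs : s ⊆ s') {p q : X} {c : Path.Homotopic.Quotient p q}
    (h : InS s c) : InS s' c := by
  obtain ⟨γ, hγ, rfl⟩ := h
  exact ⟨γ, fun t => hs (hγ t), rfl⟩

theorem InS.unique {s : Set X} (hs : IsSimplyConnected s) {p q : X}
    {c d : Path.Homotopic.Quotient p q} (hc : InS s c) (hd : InS s d) : c = d := by
  obtain ⟨γ, hγ, rfl⟩ := hc
  obtain ⟨δ, hδ, rfl⟩ := hd
  have := hs.simplyConnectedSpace
  have hp : p ∈ s := by simpa using hγ 0
  have hq : q ∈ s := by simpa using hγ 1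
  let γ' : Path (⟨p, hp⟩ : s) ⟨q, hq⟩ :=
    { toFun := fun t => ⟨γ t, hγ t⟩
      source' := by simp
      target' := by simp }
  let δ' : Path (⟨p, hp⟩ : s) ⟨q, hq⟩ :=
    { toFun := fun t => ⟨δ t, hδ t⟩
      source' := by simp
      target' := by simp }
  have h := SimplyConnectedSpace.paths_homotopic γ' δ'
  have h2 := h.map (⟨Subtype.val, continuous_subtype_val⟩ : C(s, X))
  exact Path.Homotopic.Quotient.eq.2 h2

theorem InS.exists {s : Set X} (hs : IsSimplyConnected s) {p q : X} (hp : p ∈ s) (hq : q ∈ s) :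
    ∃ c : Path.Homotopic.Quotient p q, InS s c := by
  obtain ⟨γ, hγ⟩ := hs.isPathConnected.joinedIn p hp q hq
  exact ⟨_, γ, hγ, rfl⟩

theorem symm_of_trans {p q r : X} (c : Path.Homotopic.Quotient p q)
    (d : Path.Homotopic.Quotient q r) : (c.trans d).symm = d.symm.trans c.symm := by
  obtain ⟨γ, rfl⟩ := Path.Homotopic.Quotient.mk_surjective c
  obtain ⟨δ, rfl⟩ := Path.Homotopic.Quotient.mk_surjective d
  rw [← Path.Homotopic.Quotient.mk_trans, ← Path.Homotopic.Quotient.mk_symm,
    ← Path.Homotopic.Quotient.mk_symm, ← Path.Homotopic.Quotient.mk_symm,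
    ← Path.Homotopic.Quotient.mk_trans, Path.trans_symm]

theorem symm_of_symm {p q : X} (c : Path.Homotopic.Quotient p q) : c.symm.symm = c := by
  obtain ⟨γ, rfl⟩ := Path.Homotopic.Quotient.mk_surjective c
  rw [← Path.Homotopic.Quotient.mk_symm, ← Path.Homotopic.Quotient.mk_symm, Path.symm_symm]

/-- Loop classes at `x0`, obtained from the class `c` and connectors `k p : x0 → p`. -/
def lp {x0 : X} (k : ∀ p : X, Path.Homotopic.Quotient x0 p) {p q : X}
    (c : Path.Homotopic.Quotient p q) : FundamentalGroup X x0 :=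
  FundamentalGroup.fromPath ((k p).trans (c.trans (k q).symm))

theorem lp_trans {x0 : X} (k : ∀ p : X, Path.Homotopic.Quotient x0 p) {p q r : X}
    (c : Path.Homotopic.Quotient p q) (d : Path.Homotopic.Quotient q r) :
    lp k (c.trans d) = lp k d * lp k c := by
  rw [FundamentalGroup.mul_def]
  unfold lp FundamentalGroup.fromPath FundamentalGroup.fromArrow
  have h : (k p).trans ((c.trans d).trans (k r).symm) =
      ((k p).trans (c.trans (k q).symm)).trans ((k q).trans (d.trans (k r).symm)) := by
    rw [Path.Homotopic.Quotient.trans_assoc (k p), Path.Homotopic.Quotient.trans_assoc c,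
      Path.Homotopic.Quotient.trans_assoc c,
      ← Path.Homotopic.Quotient.trans_assoc (k q).symm,
      Path.Homotopic.Quotient.symm_trans, Path.Homotopic.Quotient.refl_trans]
  exact h

theorem lp_refl {x0 : X} (k : ∀ p : X, Path.Homotopic.Quotient x0 p) (p : X) :
    lp k (Path.Homotopic.Quotient.refl p) = 1 := by
  rw [FundamentalGroup.one_def]
  unfold lp FundamentalGroup.fromPath FundamentalGroup.fromArrow
  simp

theorem lp_injective {x0 : X} (k : ∀ p : X, Path.Homotopic.Quotient x0 p) {p q : X}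
    {c d : Path.Homotopic.Quotient p q} (h : lp k c = lp k d) : c = d := by
  have h' : (k p).trans (c.trans (k q).symm) = (k p).trans (d.trans (k q).symm) := h
  have h2 : ∀ e : Path.Homotopic.Quotient p q,
      ((k p).symm.trans ((k p).trans (e.trans (k q).symm))).trans (k q) = e := by
    intro e
    rw [← Path.Homotopic.Quotient.trans_assoc (k p).symm, Path.Homotopic.Quotient.symm_trans,
      Path.Homotopic.Quotient.refl_trans, Path.Homotopic.Quotient.trans_assoc,
      Path.Homotopic.Quotient.symm_trans, Path.Homotopic.Quotient.trans_refl]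
  rw [← h2 c, ← h2 d, h']

/-- A subgroup containing all loops `lp k c`, `c` in one of the two sets, contains all. -/
theorem lp_mem {U L : Set X} (hU : IsOpen U) (hL : IsOpen L) (hUL : U ∪ L = univ) {x0 : X}
    (k : ∀ p : X, Path.Homotopic.Quotient x0 p) (Z : Subgroup (FundamentalGroup X x0))
    (h1 : ∀ (p q : X) (c : Path.Homotopic.Quotient p q), InS U c → lp k c ∈ Z)
    (h2 : ∀ (p q : X) (c : Path.Homotopic.Quotient p q), InS L c → lp k c ∈ Z)
    {p q : X} (c : Path.Homotopic.Quotient p q) : lp k c ∈ Z := by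
  obtain ⟨γ, rfl⟩ := Path.Homotopic.Quotient.mk_surjective c
  obtain ⟨t, ht0, htm, ⟨n, hn⟩, ht⟩ :=
    exists_monotone_Icc_subset_open_cover_unitInterval (c := fun b : Bool => cond b (γ ⁻¹' U) (γ ⁻¹' L))
      (by
        intro i
        cases i
        · exact hL.preimage γ.continuous
        · exact hU.preimage γ.continuous)
      (by
        intro s _
        have : γ s ∈ U ∪ L := by rw [hUL]; trivial
        rcases this with h | h
        · exact mem_iUnion.2 ⟨true, h⟩
        · exact mem_iUnion.2 ⟨false, h⟩)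
  have key : ∀ m : ℕ, lp k (Path.Homotopic.Quotient.mk (γ.subpath (t 0) (t m))) ∈ Z := by
    intro m
    induction m with
    | zero =>
      rw [Path.subpath_self]
      have := lp_refl k (γ (t 0))
      rw [← Path.Homotopic.Quotient.mk_refl] at this
      rw [this]
      exact Z.one_mem
    | succ m ih =>
      have h : Path.Homotopic.Quotient.mk (γ.subpath (t 0) (t (m + 1))) =
          (Path.Homotopic.Quotient.mk (γ.subpath (t 0) (t m))).trans
            (Path.Homotopic.Quotient.mk (γ.subpath (t m) (t (m + 1)))) := by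
        rw [← Path.Homotopic.Quotient.mk_trans]
        exact (Path.Homotopic.Quotient.eq.2 ⟨Path.Homotopy.subpathTransSubpath γ _ _ _⟩).symm
      rw [h, lp_trans]
      refine Z.mul_mem ?_ ih
      obtain ⟨b, hb⟩ := ht m
      have hr := Path.range_subpath_of_le γ (t m) (t (m + 1)) (htm (Nat.le_succ m))
      cases b
      · apply h2
        refine ⟨_, fun u => ?_, rfl⟩
        have : (γ.subpath (t m) (t (m + 1))) u ∈ γ '' Icc (t m) (t (m + 1)) := by
          rw [← hr]; exact ⟨u, rfl⟩
        obtain ⟨v, hv, hv2⟩ := this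
        rw [← hv2]
        exact hb hv
      · apply h1
        refine ⟨_, fun u => ?_, rfl⟩
        have : (γ.subpath (t m) (t (m + 1))) u ∈ γ '' Icc (t m) (t (m + 1)) := by
          rw [← hr]; exact ⟨u, rfl⟩
        obtain ⟨v, hv, hv2⟩ := this
        rw [← hv2]
        exact hb hv
  have hk := key n
  rw [ht0, hn n le_rfl, Path.subpath_zero_one] at hk
  have hcast : ∀ (p' q' : X) (hp : p' = p) (hq : q' = q),
      lp k (Path.Homotopic.Quotient.mk (γ.cast hp hq)) ∈ Z →
        lp k (Path.Homotopic.Quotient.mk γ) ∈ Z := by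
    intro p' q' hp hq
    subst hp hq
    exact id
  exact hcast _ _ _ _ hk

end VK

open VK in
theorem comm_of_union {X : Type*} [TopologicalSpace X] (U L : Set X)
    (hU : IsOpen U) (hL : IsOpen L) (hUL : U ∪ L = univ)
    (sU : IsSimplyConnected U) (sL : IsSimplyConnected L) (hne : (U ∩ L).Nonempty)
    (h2 : ∀ x ∈ U ∩ L, ∀ y ∈ U ∩ L, ∀ z ∈ U ∩ L,
      JoinedIn (U ∩ L) x y ∨ JoinedIn (U ∩ L) y z ∨ JoinedIn (U ∩ L) x z)
    (x : X) (a b : FundamentalGroup X x) : a * b = b * a := by
  obtain ⟨x0, hx0⟩ := hne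
  obtain ⟨y0, hy0, hxy⟩ : ∃ y0 ∈ U ∩ L, ∀ p ∈ U ∩ L,
      JoinedIn (U ∩ L) x0 p ∨ JoinedIn (U ∩ L) y0 p := by
    by_cases h : ∃ y0 ∈ U ∩ L, ¬ JoinedIn (U ∩ L) x0 y0
    · obtain ⟨y0, hy0, hn⟩ := h
      refine ⟨y0, hy0, fun p hp => ?_⟩
      rcases h2 x0 hx0 y0 hy0 p hp with h | h | h
      · exact absurd h hn
      · exact Or.inr h
      · exact Or.inl h
    · push Not at h
      exact ⟨x0, hx0, fun p hp => Or.inl (h p hp)⟩
  have hk : ∀ p : X, ∃ c : Path.Homotopic.Quotient x0 p,
      (p ∈ U → InS U c) ∧ (p ∉ U → InS L c) := by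
    intro p
    by_cases hp : p ∈ U
    · obtain ⟨c, hc⟩ := InS.exists sU hx0.1 hp
      exact ⟨c, fun _ => hc, fun h => absurd hp h⟩
    · have hp' : p ∈ L := by
        have : p ∈ U ∪ L := by rw [hUL]; trivial
        exact this.resolve_left hp
      obtain ⟨c, hc⟩ := InS.exists sL hx0.2 hp'
      exact ⟨c, fun h => absurd h hp, fun _ => hc⟩
  choose k hkU hkL using hk
  have hl : ∀ p : X, ∃ c : Path.Homotopic.Quotient x0 p, p ∈ L → InS L c := by
    intro p
    by_cases hp : p ∈ L
    · obtain ⟨c, hc⟩ := InS.exists sL hx0.2 hp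
      exact ⟨c, fun _ => hc⟩
    · exact ⟨k p, fun h => absurd h hp⟩
  choose l hl using hl
  -- the comparison loops
  set g : FundamentalGroup X x0 := FundamentalGroup.fromPath ((k y0).trans (l y0).symm) with hg
  set Z := Subgroup.zpowers g with hZ
  have hh : ∀ p ∈ L, FundamentalGroup.fromPath ((k p).trans (l p).symm) ∈ Z := by
    intro p hp
    by_cases hpU : p ∈ U
    · rcases hxy p ⟨hpU, hp⟩ with h | h
      · obtain ⟨w, hw⟩ := h
        have e1 : k p = Path.Homotopic.Quotient.mk w :=
          (hkU p hpU).unique sU ⟨w, fun t => (hw t).1, rfl⟩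
        have e2 : l p = Path.Homotopic.Quotient.mk w :=
          (hl p hp).unique sL ⟨w, fun t => (hw t).2, rfl⟩
        rw [e1, e2, Path.Homotopic.Quotient.trans_symm]
        exact Z.one_mem
      · obtain ⟨w, hw⟩ := h
        have e1 : k p = (k y0).trans (Path.Homotopic.Quotient.mk w) :=
          (hkU p hpU).unique sU ((hkU y0 hy0.1).trans ⟨w, fun t => (hw t).1, rfl⟩)
        have e2 : l p = (l y0).trans (Path.Homotopic.Quotient.mk w) :=
          (hl p hp).unique sL ((hl y0 hy0.2).trans ⟨w, fun t => (hw t).2, rfl⟩)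
        have e3 : (k p).trans (l p).symm = (k y0).trans (l y0).symm := by
          rw [e1, e2, symm_of_trans, Path.Homotopic.Quotient.trans_assoc,
            ← Path.Homotopic.Quotient.trans_assoc _ _ (l y0).symm,
            Path.Homotopic.Quotient.trans_symm, Path.Homotopic.Quotient.refl_trans]
        rw [e3]
        exact Subgroup.mem_zpowers g
    · have e1 : k p = l p := (hkL p hpU).unique sL (hl p hp)
      rw [e1, Path.Homotopic.Quotient.trans_symm]
      exact Z.one_mem
  have hall : ∀ {p q : X} (c : Path.Homotopic.Quotient p q), lp k c ∈ Z := by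
    intro p q c
    refine lp_mem hU hL hUL k Z ?_ ?_ c
    · intro p q c hc
      have e : (k p).trans (c.trans (k q).symm) = Path.Homotopic.Quotient.refl x0 :=
        ((hkU p hc.left).trans (hc.trans (hkU q hc.right).symm)).unique sU (InS.refl hx0.1)
      have : lp k c = 1 := e
      rw [this]
      exact Z.one_mem
    · intro p q c hc
      have e : c = (l p).symm.trans (l q) :=
        hc.unique sL ((hl p hc.left).symm.trans (hl q hc.right))
      have e2 : lp k c = (FundamentalGroup.fromPath ((k q).trans (l q).symm))⁻¹ *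
          FundamentalGroup.fromPath ((k p).trans (l p).symm) := by
        rw [FundamentalGroup.mul_def, FundamentalGroup.inv_def]
        have e3 : (k p).trans (c.trans (k q).symm) =
            ((k p).trans (l p).symm).trans ((k q).trans (l q).symm).symm := by
          rw [e, symm_of_trans, symm_of_symm, Path.Homotopic.Quotient.trans_assoc,
            Path.Homotopic.Quotient.trans_assoc]
        exact e3
      rw [e2]
      exact Z.mul_mem (Z.inv_mem (hh q hc.right)) (hh p hc.left)
  apply lp_injective k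
  have ha : lp k (FundamentalGroup.toPath a) ∈ Z := hall _
  have hb : lp k (FundamentalGroup.toPath b) ∈ Z := hall _
  obtain ⟨m, hm⟩ := Subgroup.mem_zpowers_iff.1 ha
  obtain ⟨n, hn⟩ := Subgroup.mem_zpowers_iff.1 hb
  have e1 : lp k (a * b) = lp k a * lp k b := lp_trans k b a
  have e2 : lp k (b * a) = lp k b * lp k a := lp_trans k a b
  rw [e1, e2, ← hm, ← hn, ← zpow_add, ← zpow_add, add_comm]

end MPeb2336
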