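import Pool.Agent.Lib.MP_eb2336_co.Defs
import Pool.Agent.Lib.MP_eb2336_co.VanKampen
import Pool.Agent.Lib.MP_eb2336_co.Planar

/-!
# MP_eb2336_co : the flat case

A flat, properly embedded, locally monotone long curve has commutative complement group.
-/

noncomputable section

open Set Filter Topology

namespace MPeb2336

/-- The half-space type region over the complement of `R` is simply connected. -/
theorem simplyConnected_region (R : Set ℂ) :
    IsSimplyConnected {q : ℂ × ℝ | q.1 ∉ R ∨ 0 < q.2} := by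
  set U : Set (ℂ × ℝ) := {q : ℂ × ℝ | q.1 ∉ R ∨ 0 < q.2} with hU
  have key : ∀ (t : ℝ), 0 ≤ t → t ≤ 1 → ∀ q ∈ U,
      (((1 - max (2 * t - 1) 0 : ℝ) • q.1,
        (1 - max (2 * t - 1) 0) * (q.2 + min (2 * t) 1 * |q.2|) + min (2 * t) 1) : ℂ × ℝ) ∈ U := by
    intro t ht0 ht1 q hq
    rcases le_or_gt (2 * t) 1 with h | h
    · rw [max_eq_right (by linarith), min_eq_left h]
      rcases hq with hq | hq
      · left; simpa using hq
      · right
        simp only [sub_zero, one_mul]
        have := abs_nonneg q.2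
        positivity
    · rw [max_eq_left (by linarith), min_eq_right h.le]
      right
      simp only [one_mul]
      have h1 : 0 ≤ 1 - (2 * t - 1) := by linarith
      have h2 : 0 ≤ q.2 + |q.2| := by linarith [neg_abs_le q.2]
      have := mul_nonneg h1 h2
      linarith
  have hcontr : ContractibleSpace U := by
    rw [contractible_iff_id_nullhomotopic]
    refine ⟨⟨((0 : ℂ), (1 : ℝ)), Or.inr one_pos⟩, ⟨?_⟩⟩
    refine
      { toFun := fun tq => ⟨_, key tq.1 tq.1.2.1 tq.1.2.2 tq.2 tq.2.2⟩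
        continuous_toFun := ?_
        map_zero_left := ?_
        map_one_left := ?_ }
    · refine Continuous.subtype_mk ?_ _
      fun_prop
    · intro q
      ext <;> simp
    · intro q
      ext <;> norm_num
  exact (inferInstance : SimplyConnectedSpace U)

/-- The lower region is simply connected as well. -/
theorem simplyConnected_region_neg (R : Set ℂ) :
    IsSimplyConnected {q : ℂ × ℝ | q.1 ∉ R ∨ q.2 < 0} := by
  have h := ((Homeomorph.refl ℂ).prodCongr (Homeomorph.neg ℝ)).isSimplyConnected_preimage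
    (s := {q : ℂ × ℝ | q.1 ∉ R ∨ 0 < q.2})
  have h' := h.2 (simplyConnected_region R)
  convert h' using 1
  ext q
  simp

/-- Transfer of simple connectedness to the subtype. -/
theorem simplyConnected_sub {Y Z : Type*} [TopologicalSpace Y] [TopologicalSpace Z]
    (Φ : Y ≃ₜ Z) {W : Set Z} (hW : IsSimplyConnected W) {C : Set Y} (hC : Φ ⁻¹' W ⊆ C) :
    IsSimplyConnected {p : ↥C | Φ p.1 ∈ W} := by
  have h1 : IsSimplyConnected (Φ ⁻¹' W) := Φ.isSimplyConnected_preimage.2 hW
  have h2 : (Subtype.val : ↥C → Y) '' {p : ↥C | Φ p.1 ∈ W} = Φ ⁻¹' W := by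
    ext y
    constructor
    · rintro ⟨p, hp, rfl⟩
      exact hp
    · intro hy
      exact ⟨⟨y, hC hy⟩, hy, rfl⟩
  rw [← h2] at h1
  exact (Topology.IsEmbedding.subtypeVal.isSimplyConnected_image).1 h1

/-- A proper continuous injective curve does not fill the plane. -/
theorem exists_notMem_range (G : ℝ → ℂ) (hc : Continuous G) (hinj : Function.Injective G)
    (hcl : IsClosedMap G) : ∃ c, c ∉ range G := by
  by_contra hcon
  push Not at hcon
  have hs : Function.Surjective G := hcon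
  let e : ℝ ≃ₜ ℂ := (Equiv.ofBijective G ⟨hinj, hs⟩).toHomeomorphOfContinuousClosed hc hcl
  have h1 : IsPathConnected ({e 0}ᶜ : Set ℂ) := by
    apply isPathConnected_compl_singleton_of_one_lt_rank
    rw [Complex.rank_real_complex]
    exact_mod_cast one_lt_two
  have h2 : IsPreconnected (e ⁻¹' ({e 0}ᶜ : Set ℂ)) := by
    rw [← e.image_symm]
    exact h1.isConnected.isPreconnected.image _ e.symm.continuous.continuousOn
  have h3 : e ⁻¹' ({e 0}ᶜ : Set ℂ) = {0}ᶜ := by
    ext t
    simp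
  rw [h3] at h2
  have h4 := h2.ordConnected
  have h5 : (0 : ℝ) ∈ ({0}ᶜ : Set ℝ) :=
    h4.out (show (-1 : ℝ) ∈ ({0}ᶜ : Set ℝ) by simp) (show (1 : ℝ) ∈ ({0}ᶜ : Set ℝ) by simp)
      ⟨by norm_num, by norm_num⟩
  simp at h5

/-- The commutativity statement in the model `ℂ × ℝ`. -/
theorem commCompl_of_model (G : ℝ → ℂ) (hc : Continuous G) (hinj : Function.Injective G)
    (hprop : Tendsto (fun t => ‖G t‖) (cocompact ℝ) atTop)
    (hLD : ∀ s, ∃ w : ℂ, ∃ r > 0, StrictMonoOn (fun t => (w * G t).re) (Icc (s - r) (s + r)))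
    (K : Set E3) (Φ : E3 ≃ₜ ℂ × ℝ)
    (hK : ∀ p, p ∈ K ↔ ((Φ p).1 ∈ range G ∧ (Φ p).2 = 0)) : CommCompl K := by
  have hcl : IsClosedMap G := by
    have h1 : Tendsto G (cocompact ℝ) (cocompact ℂ) := by
      have h := tendsto_norm_atTop_iff_cobounded.1 hprop
      rwa [Metric.cobounded_eq_cocompact] at h
    exact ((isProperMap_iff_tendsto_cocompact).2 ⟨hc, h1⟩).isClosedMap
  have hclR : IsClosed (range G) := hcl.isClosed_range
  obtain ⟨c0, hc0⟩ := exists_notMem_range G hc hinj hcl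
  set U : Set ↥(Kᶜ) := {p | Φ p.1 ∈ {q : ℂ × ℝ | q.1 ∉ range G ∨ 0 < q.2}} with hU
  set L : Set ↥(Kᶜ) := {p | Φ p.1 ∈ {q : ℂ × ℝ | q.1 ∉ range G ∨ q.2 < 0}} with hL
  have hΦ : Continuous fun p : ↥(Kᶜ) => Φ p.1 := Φ.continuous.comp continuous_subtype_val
  have hopen : IsOpen {p : ↥(Kᶜ) | (Φ p.1).1 ∉ range G} :=
    hclR.isOpen_compl.preimage (continuous_fst.comp hΦ)
  have hUo : IsOpen U := by
    have : U = {p : ↥(Kᶜ) | (Φ p.1).1 ∉ range G} ∪ {p : ↥(Kᶜ) | 0 < (Φ p.1).2} := by
      ext p; rfl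
    rw [this]
    exact hopen.union (isOpen_lt continuous_const (continuous_snd.comp hΦ))
  have hLo : IsOpen L := by
    have : L = {p : ↥(Kᶜ) | (Φ p.1).1 ∉ range G} ∪ {p : ↥(Kᶜ) | (Φ p.1).2 < 0} := by
      ext p; rfl
    rw [this]
    exact hopen.union (isOpen_lt (continuous_snd.comp hΦ) continuous_const)
  have hUL : U ∪ L = univ := by
    ext p
    simp only [mem_union, mem_univ, iff_true]
    have hp : p.1 ∉ K := p.2
    rw [hK] at hp
    by_cases h : (Φ p.1).1 ∈ range G
    · have h2 : (Φ p.1).2 ≠ 0 := fun h0 => hp ⟨h, h0⟩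
      rcases lt_or_gt_of_ne h2 with h3 | h3
      · exact Or.inr (Or.inr h3)
      · exact Or.inl (Or.inr h3)
    · exact Or.inl (Or.inl h)
  have hInter : ∀ p : ↥(Kᶜ), p ∈ U ∩ L ↔ (Φ p.1).1 ∉ range G := by
    intro p
    constructor
    · rintro ⟨h1, h2⟩ h
      rcases h1 with h1 | h1
      · exact h1 h
      · rcases h2 with h2 | h2
        · exact h2 h
        · exact absurd h1 (not_lt.2 (le_of_lt h2))
    · intro h
      exact ⟨Or.inl h, Or.inl h⟩
  have hmem : ∀ q : ℂ × ℝ, (q.1 ∉ range G ∨ q.2 ≠ 0) → Φ.symm q ∈ Kᶜ := by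
    intro q hq h
    rw [hK] at h
    simp only [Homeomorph.apply_symm_apply] at h
    rcases hq with hq | hq
    · exact hq h.1
    · exact hq h.2
  have sU : IsSimplyConnected U := by
    refine simplyConnected_sub Φ (simplyConnected_region (range G)) ?_
    intro y hy
    have := hmem (Φ y) (by
      rcases hy with hy | hy
      · exact Or.inl hy
      · exact Or.inr (ne_of_gt hy))
    simpa using this
  have sL : IsSimplyConnected L := by
    refine simplyConnected_sub Φ (simplyConnected_region_neg (range G)) ?_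
    intro y hy
    have := hmem (Φ y) (by
      rcases hy with hy | hy
      · exact Or.inl hy
      · exact Or.inr (ne_of_lt hy))
    simpa using this
  have hjoin : ∀ x ∈ U ∩ L, ∀ y ∈ U ∩ L, JoinedIn (range G)ᶜ (Φ x.1).1 (Φ y.1).1 →
      JoinedIn (U ∩ L) x y := by
    rintro x hx y hy ⟨γ, hγ⟩
    have hmem2 : ∀ t : unitInterval,
        Φ.symm (γ t, (1 - (t : ℝ)) * (Φ x.1).2 + t * (Φ y.1).2) ∈ Kᶜ :=
      fun t => hmem _ (Or.inl (hγ t))
    refine ⟨{ toFun := fun t => ⟨_, hmem2 t⟩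
              continuous_toFun := ?_
              source' := ?_
              target' := ?_ }, ?_⟩
    · refine Continuous.subtype_mk ?_ _
      have : Continuous γ := γ.continuous
      fun_prop
    · ext1
      simp
    · ext1
      simp
    · intro t
      rw [hInter]
      simpa using hγ t
  intro x a b
  refine comm_of_union U L hUo hLo hUL sU sL ?_ ?_ x a b
  · refine ⟨⟨Φ.symm (c0, 0), hmem _ (Or.inl hc0)⟩, ?_⟩
    rw [hInter]
    simpa using hc0
  · intro x hx y hy z hz
    have h := planar_two_components G hc hinj hprop hLD ((hInter x).1 hx) ((hInter y).1 hy)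
      ((hInter z).1 hz)
    rcases h with h | h | h
    · exact Or.inl (hjoin x hx y hy h)
    · exact Or.inr (Or.inl (hjoin y hy z hz h))
    · exact Or.inr (Or.inr (hjoin x hx z hz h))

/-- Planar coordinates adapted to an orthonormal basis. -/
def flatHomeo (b : OrthonormalBasis (Fin 3) ℝ E3) : E3 ≃ₜ ℂ × ℝ where
  toFun p := (((inner ℝ (b 0) p : ℝ) : ℂ) + ((inner ℝ (b 1) p : ℝ) : ℂ) * Complex.I,
    inner ℝ (b 2) p)
  invFun q := q.1.re • b 0 + q.1.im • b 1 + q.2 • b 2
  left_inv p := by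
    have h := b.sum_repr' p
    rw [Fin.sum_univ_three] at h
    simpa using h
  right_inv q := by
    have hij : ∀ i j : Fin 3, i ≠ j → inner ℝ (b i) (b j) = (0 : ℝ) :=
      fun i j h => b.orthonormal.2 h
    refine Prod.ext ?_ ?_
    · simp [inner_add_right, inner_smul_right, hij 0 1 (by decide), hij 0 2 (by decide),
        hij 1 0 (by decide), hij 1 2 (by decide)]
    · simp [inner_add_right, inner_smul_right, hij 2 0 (by decide), hij 2 1 (by decide)]
  continuous_toFun := by fun_prop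
  continuous_invFun := by fun_prop

/-- T3: a flat long curve has commutative complement group. -/
theorem commCompl_of_flat (F : ℝ → E3) (hc : Continuous F) (hinj : Function.Injective F)
    (hprop : Tendsto (fun t => ‖F t‖) (cocompact ℝ) atTop)
    (hLD : ∀ s, ∃ w : E3, ∃ r > 0,
      StrictMonoOn (fun t => inner ℝ w (F t)) (Icc (s - r) (s + r)))
    (hflat : ∃ v : E3, v ≠ 0 ∧ ∀ t, inner ℝ v (F t) = (0 : ℝ)) : CommCompl (range F) := by
  obtain ⟨v, hv0, hv⟩ := hflat
  have hv0' : ‖v‖ ≠ 0 := norm_ne_zero_iff.2 hv0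
  obtain ⟨b, hb⟩ := Orthonormal.exists_orthonormalBasis_extension_of_card_eq (𝕜 := ℝ) (E := E3)
    (ι := Fin 3) (by simp) (v := fun _ => (‖v‖)⁻¹ • v) (s := {2}) (by
      refine ⟨?_, ?_⟩
      · rintro ⟨i, hi⟩
        simp [norm_smul, hv0']
      · rintro ⟨i, hi⟩ ⟨j, hj⟩ hij
        exfalso
        apply hij
        simp only [mem_singleton_iff] at hi hj
        subst hi
        subst hj
        rfl)
  have hb2 : b 2 = (‖v‖)⁻¹ • v := hb 2 rfl
  have hz : ∀ t, inner ℝ (b 2) (F t) = (0 : ℝ) := by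
    intro t
    rw [hb2, real_inner_smul_left, hv, mul_zero]
  set Φ := flatHomeo b with hΦ
  set G : ℝ → ℂ := fun t => (Φ (F t)).1 with hG
  have hΦF : ∀ t, Φ (F t) = (G t, 0) := by
    intro t
    exact Prod.ext rfl (hz t)
  have hnorm : ∀ t, ‖F t‖ = ‖G t‖ := by
    intro t
    have h1 := b.sum_sq_norm_inner_right (F t)
    rw [Fin.sum_univ_three, hz t] at h1
    have h2 : G t = ((inner ℝ (b 0) (F t) : ℝ) : ℂ) + ((inner ℝ (b 1) (F t) : ℝ) : ℂ) * Complex.I :=
      rfl
    have h3 : ‖G t‖ ^ 2 = (inner ℝ (b 0) (F t)) ^ 2 + (inner ℝ (b 1) (F t)) ^ 2 := by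
      rw [h2, Complex.sq_norm, Complex.normSq_add_mul_I]
    have h4 : ‖F t‖ ^ 2 = ‖G t‖ ^ 2 := by
      rw [h3, ← h1]
      simp
    exact (sq_eq_sq₀ (norm_nonneg _) (norm_nonneg _)).1 h4
  refine commCompl_of_model G ?_ ?_ ?_ ?_ (range F) Φ ?_
  · exact continuous_fst.comp (Φ.continuous.comp hc)
  · intro s t hst
    apply hinj
    apply Φ.injective
    rw [hΦF, hΦF, hst]
  · simpa only [← hnorm] using hprop
  · intro s
    obtain ⟨w, r, hr, hmono⟩ := hLD s
    refine ⟨((inner ℝ w (b 0) : ℝ) : ℂ) - ((inner ℝ w (b 1) : ℝ) : ℂ) * Complex.I, r, hr, ?_⟩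
    have heq : ∀ t, ((((inner ℝ w (b 0) : ℝ) : ℂ) - ((inner ℝ w (b 1) : ℝ) : ℂ) * Complex.I) *
        G t).re = inner ℝ w (F t) := by
      intro t
      have h2 : G t = ((inner ℝ (b 0) (F t) : ℝ) : ℂ) +
        ((inner ℝ (b 1) (F t) : ℝ) : ℂ) * Complex.I := rfl
      have h := b.sum_repr' (F t)
      rw [Fin.sum_univ_three, hz t, zero_smul, add_zero] at h
      conv_rhs => rw [← h]
      rw [h2, inner_add_right, inner_smul_right, inner_smul_right]
      simp
      ring
    simpa only [heq] using hmono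
  · intro p
    constructor
    · rintro ⟨t, rfl⟩
      rw [hΦF]
      exact ⟨⟨t, rfl⟩, rfl⟩
    · rintro ⟨⟨t, ht⟩, h0⟩
      refine ⟨t, Φ.injective ?_⟩
      rw [hΦF, ht, ← h0]

end MPeb2336
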