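import Pool.Agent.Lib.MP_eb2336_co.Defs

/-!
# MP_eb2336_co : a small Lipschitz perturbation of a curve has the same complement group
-/

noncomputable section

open Set Filter Topology
open scoped NNReal

namespace MPeb2336

/-- A homeomorphism induces an injection on fundamental groups. -/
theorem fundamentalGroup_map_injective {X Y : Type*} [TopologicalSpace X] [TopologicalSpace Y]
    (f : C(X, Y)) (g : C(Y, X)) (hgf : ∀ x, g (f x) = x) (x : X) :
    Function.Injective (FundamentalGroup.map f x) := by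
  intro p q h
  have h1 : FundamentalGroup.mapOfEq g (hgf x) (FundamentalGroup.map f x p) =
      FundamentalGroup.mapOfEq g (hgf x) (FundamentalGroup.map f x q) := by rw [h]
  rw [FundamentalGroup.mapOfEq_apply, FundamentalGroup.mapOfEq_apply] at h1
  have key : ∀ p : FundamentalGroup X x,
      (Path.Homotopic.Quotient.map (FundamentalGroup.map f x p) g).cast (hgf x).symm (hgf x).symm
        = p := by
    intro p
    induction p using Quotient.inductionOn with
    | h γ =>
      change Path.Homotopic.Quotient.mk (((γ.map f.continuous).map g.continuous).cast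
        (hgf x).symm (hgf x).symm) = Path.Homotopic.Quotient.mk γ
      congr 1
      ext t
      simp [hgf]
  rw [key, key] at h1
  exact h1

/-- Commutativity of the complement group is invariant under homeomorphisms of space. -/
theorem commCompl_image (Φ : E3 ≃ₜ E3) (K : Set E3) (h : CommCompl K) : CommCompl (Φ '' K) := by
  intro y a b
  let e : ↥((Φ '' K)ᶜ) ≃ₜ ↥(Kᶜ) := Φ.symm.subtype (fun z => by
    simp only [mem_compl_iff, mem_image, not_iff_not]
    constructor
    · rintro ⟨w, hw, rfl⟩; simpa using hw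
    · intro hz; exact ⟨_, hz, by simp⟩)
  have hinj := fundamentalGroup_map_injective (f := ⟨e, e.continuous⟩)
    (g := ⟨e.symm, e.symm.continuous⟩) (fun x => by simp) y
  apply hinj
  rw [map_mul, map_mul]
  exact h _ _ _

theorem commCompl_image_iff (Φ : E3 ≃ₜ E3) (K : Set E3) : CommCompl (Φ '' K) ↔ CommCompl K := by
  refine ⟨fun h => ?_, commCompl_image Φ K⟩
  have := commCompl_image Φ.symm (Φ '' K) h
  rwa [← image_comp, Homeomorph.symm_comp_self, image_id] at this

theorem euclid_le_sup (x : E3) (m : ℝ) (hm : 0 ≤ m) (h : ∀ i, |x i| ≤ m) :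
    ‖x‖ ≤ Real.sqrt 3 * m := by
  rw [EuclideanSpace.norm_eq]
  have h1 : ∑ i, ‖x i‖ ^ 2 ≤ 3 * m ^ 2 := by
    rw [Fin.sum_univ_three]
    have h2 : ∀ i, ‖x i‖ ^ 2 ≤ m ^ 2 := fun i => by
      rw [Real.norm_eq_abs]
      exact pow_le_pow_left₀ (abs_nonneg _) (h i) 2
    linarith [h2 0, h2 1, h2 2]
  calc Real.sqrt (∑ i, ‖x i‖ ^ 2) ≤ Real.sqrt (3 * m ^ 2) := Real.sqrt_le_sqrt h1
    _ = Real.sqrt 3 * m := by rw [Real.sqrt_mul (by norm_num), Real.sqrt_sq hm]

/-- If `F - F0` is Lipschitz with a small constant with respect to `F0`, then some homeomorphism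
of space carries `F0` to `F`. -/
theorem exists_homeo_of_half_close (F0 F : ℝ → E3)
    (h : ∀ s t, ‖(F s - F0 s) - (F t - F0 t)‖ ≤ 1 / 2 * ‖F0 s - F0 t‖) :
    ∃ Φ : E3 ≃ₜ E3, ∀ s, Φ (F0 s) = F s := by
  classical
  -- the displacement as a function on the range
  have hwd : ∀ s t, F0 s = F0 t → F s - F0 s = F t - F0 t := by
    intro s t hst
    have := h s t
    rw [hst, sub_self, norm_zero, mul_zero] at this
    have h2 := norm_le_zero_iff.1 this
    rw [← hst] at h2 ⊢
    exact sub_eq_zero.1 h2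
  let u : E3 → (Fin 3 → ℝ) := fun x i =>
    if hx : ∃ s, F0 s = x then (F hx.choose - F0 hx.choose) i else 0
  have hu : ∀ s, u (F0 s) = fun i => (F s - F0 s) i := by
    intro s
    have hx : ∃ s', F0 s' = F0 s := ⟨s, rfl⟩
    have : u (F0 s) = fun i => (F hx.choose - F0 hx.choose) i := by
      funext i
      simp only [u, dif_pos hx]
    rw [this, hwd _ _ hx.choose_spec]
  have hlip : LipschitzOnWith (1 / 2 : ℝ≥0) u (range F0) := by
    refine LipschitzOnWith.of_dist_le_mul ?_
    rintro _ ⟨s, rfl⟩ _ ⟨t, rfl⟩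
    rw [hu, hu, dist_pi_le_iff (by positivity)]
    intro i
    rw [Real.dist_eq, dist_eq_norm]
    have h1 : (F s - F0 s) i - (F t - F0 t) i = ((F s - F0 s) - (F t - F0 t)) i := rfl
    rw [h1, ← Real.norm_eq_abs]
    refine (PiLp.norm_apply_le _ i).trans ((h s t).trans ?_)
    simp
  obtain ⟨g, hg, hgu⟩ := hlip.extend_pi
  let U : E3 → E3 := fun x => WithLp.toLp 2 (g x)
  have hUlip : ∀ x y, ‖U x - U y‖ ≤ (Real.sqrt 3 * (1 / 2)) * ‖x - y‖ := by
    intro x y
    have h1 : ∀ i, |(U x - U y) i| ≤ 1 / 2 * ‖x - y‖ := by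
      intro i
      have h2 := (dist_le_pi_dist (g x) (g y) i).trans (hg.dist_le_mul x y)
      rw [Real.dist_eq, dist_eq_norm] at h2
      simpa [U] using h2
    have := euclid_le_sup (U x - U y) _ (by positivity) h1
    rwa [← mul_assoc] at this
  have hs3 : Real.sqrt 3 * (1 / 2) < 1 := by
    have : Real.sqrt 3 < 2 := by
      rw [Real.sqrt_lt' (by norm_num)]; norm_num
    linarith
  have happ : ApproximatesLinearOn (fun x => x + U x)
      ((ContinuousLinearEquiv.refl ℝ E3 : E3 ≃L[ℝ] E3) : E3 →L[ℝ] E3) univ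
      (Real.sqrt 3 * (1 / 2)).toNNReal := by
    intro x _ y _
    rw [Real.coe_toNNReal _ (by positivity)]
    have : (x + U x) - (y + U y) -
        ((ContinuousLinearEquiv.refl ℝ E3 : E3 ≃L[ℝ] E3) : E3 →L[ℝ] E3) (x - y) =
        U x - U y := by
      simp
      abel
    rw [this]
    exact hUlip x y
  have hc : Subsingleton E3 ∨ (Real.sqrt 3 * (1 / 2)).toNNReal <
      ‖((ContinuousLinearEquiv.refl ℝ E3 : E3 ≃L[ℝ] E3).symm : E3 →L[ℝ] E3)‖₊⁻¹ := by
    right
    have h1 : ‖((ContinuousLinearEquiv.refl ℝ E3 : E3 ≃L[ℝ] E3).symm : E3 →L[ℝ] E3)‖₊ = 1 := by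
      apply NNReal.eq
      rw [coe_nnnorm]
      exact ContinuousLinearMap.norm_id
    rw [h1, inv_one, ← NNReal.coe_lt_coe, Real.coe_toNNReal _ (by positivity)]
    exact_mod_cast hs3
  refine ⟨happ.toHomeomorph _ hc, fun s => ?_⟩
  change F0 s + U (F0 s) = F s
  have h1 : U (F0 s) = F s - F0 s := by
    have h2 := hgu (mem_range_self s)
    rw [hu] at h2
    change WithLp.toLp 2 (g (F0 s)) = F s - F0 s
    rw [← h2]
  rw [h1]
  abel

/-- Small Lipschitz perturbations do not change commutativity of the complement group. -/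
theorem commCompl_of_close (F0 F : ℝ → E3)
    (h : ∀ s t, ‖(F s - F0 s) - (F t - F0 t)‖ ≤ 1 / 2 * ‖F0 s - F0 t‖) :
    CommCompl (range F0) ↔ CommCompl (range F) := by
  obtain ⟨Φ, hΦ⟩ := exists_homeo_of_half_close F0 F h
  have : range F = Φ '' range F0 := by
    rw [← range_comp]
    congr 1
    funext s
    exact (hΦ s).symm
  rw [this, commCompl_image_iff]

end MPeb2336
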