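import Mathlib
import Pool.Agent.Lib.MP_eb2336_co.Defs

/-!
# The fundamental group of the complement of a long trefoil knot is not commutative

The long trefoil is the preimage, under stereographic projection, of `{z₁³ = z₂²}` in the sphere
`|z₁|² + |z₂|² = 2` (the centre of projection is the point `(1,1)` of the knot).  The complement
carries the three sheeted covering of roots of the cubic polynomial `x³ - 3 z₁ x + 2 z₂`, and we
compute two non commuting monodromies.
-/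

set_option autoImplicit false

noncomputable section

open Set Filter Topology
open scoped unitInterval

namespace MPeb2336

/-- first coordinate of the inverse stereographic projection -/
def z1 (X : E3) : ℂ :=
  ((‖X‖ ^ 2 - 1 + 2 * X 0 : ℝ) + (2 * (X 1 + X 2) : ℝ) * Complex.I) / ((‖X‖ ^ 2 + 1 : ℝ) : ℂ)

/-- second coordinate of the inverse stereographic projection -/
def z2 (X : E3) : ℂ :=
  ((‖X‖ ^ 2 - 1 - 2 * X 0 : ℝ) + (2 * (X 1 - X 2) : ℝ) * Complex.I) / ((‖X‖ ^ 2 + 1 : ℝ) : ℂ)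

/-- the algebraic long trefoil -/
def Kalg : Set E3 := {X | z1 X ^ 3 = z2 X ^ 2}

/-- the family of cubics -/
def cub (p : ℂ × ℂ) : ℂ × ℂ := (p.2, (3 * p.2 * p.1 - p.1 ^ 3) / 2)

/-- the complement of the discriminant -/
def Bset : Set (ℂ × ℂ) := {p | p.1 ^ 3 ≠ p.2 ^ 2}

theorem cub_continuous : Continuous cub := by
  unfold cub
  fun_prop

theorem cub_bound (p : ℂ × ℂ) : ‖p‖ ≤ 1 + 5 * ‖cub p‖ := by
  obtain ⟨x, z⟩ := p
  set w : ℂ := (3 * z * x - x ^ 3) / 2 with hw
  have hc : cub (x, z) = (z, w) := rfl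
  rw [hc]
  have hz : ‖z‖ ≤ ‖(z, w)‖ := norm_fst_le (z, w)
  have hw' : ‖w‖ ≤ ‖(z, w)‖ := norm_snd_le (z, w)
  set R : ℝ := ‖(z, w)‖ with hR
  have hR0 : 0 ≤ R := norm_nonneg _
  have hx3 : x ^ 3 = 3 * z * x - 2 * w := by rw [hw]; ring
  have hx : ‖x‖ ≤ 1 + 5 * R := by
    by_cases h1 : ‖x‖ ≤ 1
    · linarith
    · push Not at h1
      have h2 : ‖x‖ ^ 3 ≤ 3 * R * ‖x‖ + 2 * R := by
        calc ‖x‖ ^ 3 = ‖x ^ 3‖ := (norm_pow _ _).symm
          _ = ‖3 * z * x - 2 * w‖ := by rw [hx3]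
          _ ≤ ‖3 * z * x‖ + ‖2 * w‖ := norm_sub_le _ _
          _ = 3 * ‖z‖ * ‖x‖ + 2 * ‖w‖ := by simp
          _ ≤ 3 * R * ‖x‖ + 2 * R := by gcongr
      have h3 : ‖x‖ ^ 3 ≤ 5 * R * ‖x‖ := by nlinarith
      have h4 : ‖x‖ ^ 2 ≤ 5 * R := by
        have : ‖x‖ * ‖x‖ ^ 2 ≤ ‖x‖ * (5 * R) := by nlinarith
        exact le_of_mul_le_mul_left this (by linarith)
      nlinarith
  rw [Prod.norm_def]
  apply max_le hx
  show ‖z‖ ≤ 1 + 5 * R
  linarith

theorem cub_isClosedMap : IsClosedMap cub := by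
  have h1 : IsProperMap cub := by
    rw [isProperMap_iff_tendsto_cocompact]
    refine ⟨cub_continuous, ?_⟩
    rw [← Metric.cobounded_eq_cocompact, ← tendsto_norm_atTop_iff_cobounded]
    have h2 : Tendsto (fun p : ℂ × ℂ => (‖p‖ - 1) / 5) (Bornology.cobounded (ℂ × ℂ)) atTop := by
      have : Tendsto (fun p : ℂ × ℂ => ‖p‖) (Bornology.cobounded (ℂ × ℂ)) atTop :=
        tendsto_norm_cobounded_atTop
      exact (tendsto_atTop_add_const_right _ (-1) this).atTop_div_const (by norm_num)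
    refine tendsto_atTop_mono (fun p => ?_) h2
    have := cub_bound p
    linarith
  exact h1.isClosedMap

theorem cub_fiber_finite (b : ℂ × ℂ) : (cub ⁻¹' {b}).Finite := by
  classical
  set P : Polynomial ℂ := Polynomial.X ^ 3 - Polynomial.C (3 * b.1) * Polynomial.X +
    Polynomial.C (2 * b.2) with hP
  have hPne : P ≠ 0 := by
    intro h0
    have : P.coeff 3 = 0 := by rw [h0]; simp
    rw [hP] at this
    simp at this
  have hfin : {x : ℂ | P.IsRoot x}.Finite := P.finite_setOfPred_isRoot hPne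
  refine (hfin.prod (finite_singleton b.1)).subset ?_
  rintro ⟨x, z⟩ hxz
  have h1 : (z, (3 * z * x - x ^ 3) / 2) = b := hxz
  refine ⟨?_, ?_⟩
  · show P.eval x = 0
    rw [hP, ← h1]
    simp
    ring
  · show z = b.1
    rw [← h1]

/-- the derivative of `cub` as an equivalence -/
def cubEquiv (a b : ℂ) (ha : a ≠ 0) : (ℂ × ℂ) ≃L[ℂ] (ℂ × ℂ) :=
  ContinuousLinearEquiv.equivOfInverse
    ((ContinuousLinearMap.snd ℂ ℂ ℂ).prod
      (a • ContinuousLinearMap.fst ℂ ℂ ℂ + b • ContinuousLinearMap.snd ℂ ℂ ℂ))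
    ((a⁻¹ • ContinuousLinearMap.snd ℂ ℂ ℂ - (a⁻¹ * b) • ContinuousLinearMap.fst ℂ ℂ ℂ).prod
      (ContinuousLinearMap.fst ℂ ℂ ℂ))
    (fun p => by
      refine Prod.ext ?_ ?_
      · simp [mul_add]
        field_simp
        ring
      · simp)
    (fun p => by
      refine Prod.ext ?_ ?_
      · simp
      · simp [mul_sub]
        field_simp
        ring)

theorem cub_hasStrictFDerivAt (p : ℂ × ℂ) (h : 3 * (p.2 - p.1 ^ 2) / 2 ≠ 0) :
    HasStrictFDerivAt cub
      ((cubEquiv (3 * (p.2 - p.1 ^ 2) / 2) (3 * p.1 / 2) h : (ℂ × ℂ) ≃L[ℂ] (ℂ × ℂ)) :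
        (ℂ × ℂ) →L[ℂ] (ℂ × ℂ)) p := by
  have h1 : HasStrictFDerivAt (fun p : ℂ × ℂ => p.1) (ContinuousLinearMap.fst ℂ ℂ ℂ) p :=
    hasStrictFDerivAt_fst
  have h2 : HasStrictFDerivAt (fun p : ℂ × ℂ => p.2) (ContinuousLinearMap.snd ℂ ℂ ℂ) p :=
    hasStrictFDerivAt_snd
  have h3 := (((h2.const_mul 3).mul h1).sub (h1.pow 3)).mul_const ((2 : ℂ)⁻¹)
  have h4 := h2.prodMk h3
  have h5 : HasStrictFDerivAt cub _ p := h4
  refine h5.congr_fderiv ?_
  ext <;> simp [cubEquiv] <;> ring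

theorem cub_mem_Bset {x z : ℂ} (h : cub (x, z) ∈ Bset) : z - x ^ 2 ≠ 0 := by
  intro h0
  apply h
  have hz : z = x ^ 2 := by linear_combination h0
  simp only [cub]
  rw [hz]
  ring

theorem cub_isCoveringMapOn : IsCoveringMapOn cub Bset := by
  apply IsClosedMap.isCoveringMapOn_of_isLocalHomeomorphOn cub_isClosedMap
  · exact fun b _ => cub_fiber_finite b
  · intro p hp
    have hne : 3 * (p.2 - p.1 ^ 2) / 2 ≠ 0 := by
      have := cub_mem_Bset (x := p.1) (z := p.2) hp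
      intro h0
      apply this
      linear_combination (2 / 3 : ℂ) * h0
    have hd := cub_hasStrictFDerivAt p hne
    exact ⟨hd.toOpenPartialHomeomorph cub, hd.mem_toOpenPartialHomeomorph_source, rfl⟩

/-- the covering space -/
abbrev EE : Type := ↥(cub ⁻¹' Bset)

/-- the covering map -/
def pr3 : EE → ↥Bset := Bset.restrictPreimage cub

theorem pr3_cov : IsCoveringMap pr3 := cub_isCoveringMapOn.isCoveringMap_restrictPreimage

/-- the root corresponding to a point of the fibre -/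
def rt {b : ↥Bset} (e : pr3 ⁻¹' {b}) : ℂ := e.1.1.1

theorem rt_spec {b : ↥Bset} (e : pr3 ⁻¹' {b}) : cub (rt e, b.1.1) = b.1 := by
  have h1 : pr3 e.1 = b := e.2
  have h2 : cub e.1.1 = b.1 := congrArg Subtype.val h1
  have h3 : e.1.1.2 = b.1.1 := congrArg Prod.fst h2
  have h4 : (rt e, b.1.1) = e.1.1 := Prod.ext rfl h3.symm
  rw [h4]
  exact h2

theorem rt_injective {b : ↥Bset} {e e' : pr3 ⁻¹' {b}} (h : rt e = rt e') : e = e' := by
  have h1 : ∀ e : pr3 ⁻¹' {b}, e.1.1.2 = b.1.1 := by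
    intro e
    have h1 : pr3 e.1 = b := e.2
    have h2 : cub e.1.1 = b.1 := congrArg Subtype.val h1
    exact congrArg Prod.fst h2
  apply Subtype.ext
  apply Subtype.ext
  exact Prod.ext h ((h1 e).trans (h1 e').symm)

/-- a point of the fibre from a root -/
def mkE (b : ↥Bset) (x : ℂ) (h : cub (x, b.1.1) = b.1) : pr3 ⁻¹' {b} :=
  ⟨⟨(x, b.1.1), by show cub (x, b.1.1) ∈ Bset; rw [h]; exact b.2⟩, by
    show pr3 _ = b
    exact Subtype.ext h⟩

theorem rt_mkE (b : ↥Bset) (x : ℂ) (h : cub (x, b.1.1) = b.1) : rt (mkE b x h) = x := rfl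

/-- monodromy along a path -/
def Mo {a b : ↥Bset} (γ : Path a b) (e : pr3 ⁻¹' {a}) : pr3 ⁻¹' {b} :=
  pr3_cov.monodromy (Path.Homotopic.Quotient.mk γ) e

theorem rt_Mo {a b : ↥Bset} (γ : Path a b) (e : pr3 ⁻¹' {a}) (X : I → ℂ) (hX : Continuous X)
    (h0 : X 0 = rt e) (h : ∀ t, cub (X t, (γ t).1.1) = (γ t).1) : rt (Mo γ e) = X 1 := by
  set Γ : C(I, EE) := ⟨fun t => ⟨(X t, (γ t).1.1), by
      show cub (X t, (γ t).1.1) ∈ Bset
      rw [h t]
      exact (γ t).2⟩, by
      refine Continuous.subtype_mk ?_ _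
      have h1 : Continuous fun t => (γ t).1.1 :=
        continuous_fst.comp (continuous_subtype_val.comp γ.continuous)
      exact hX.prodMk h1⟩ with hΓ
  have hlift : pr3 ∘ Γ = γ := by
    funext t
    exact Subtype.ext (h t)
  have hΓ0 : Γ 0 = e.1 := by
    apply Subtype.ext
    refine Prod.ext h0 ?_
    show (γ 0).1.1 = e.1.1.2
    have h1 : pr3 e.1 = a := e.2
    have h2 : cub e.1.1 = a.1 := congrArg Subtype.val h1
    rw [γ.source]
    exact (congrArg Prod.fst h2).symm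
  have hγ0 : γ 0 = pr3 e.1 := γ.source.trans (e.2 : pr3 e.1 = a).symm
  have h1 : Γ = pr3_cov.liftPath γ e.1 hγ0 := (pr3_cov.eq_liftPath_iff' hγ0).2 ⟨hlift, hΓ0⟩
  have h2 : (Mo γ e).1 = pr3_cov.liftPath γ e.1 hγ0 1 := rfl
  show (Mo γ e).1.1.1 = X 1
  rw [h2, ← h1]
  rfl

theorem exists_lift {a b : ↥Bset} (γ : Path a b) (e : pr3 ⁻¹' {a}) :
    ∃ X : I → ℂ, Continuous X ∧ X 0 = rt e ∧ (∀ t, cub (X t, (γ t).1.1) = (γ t).1) ∧
      X 1 = rt (Mo γ e) := by
  have hγ0 : γ 0 = pr3 e.1 := γ.source.trans (e.2 : pr3 e.1 = a).symm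
  set Γ := pr3_cov.liftPath γ e.1 hγ0 with hΓ
  have hl : ∀ t, pr3 (Γ t) = γ t := fun t => congrFun (pr3_cov.liftPath_lifts γ e.1 hγ0) t
  have h0 : Γ 0 = e.1 := pr3_cov.liftPath_zero γ e.1 hγ0
  refine ⟨fun t => (Γ t).1.1, ?_, ?_, ?_, ?_⟩
  · exact continuous_fst.comp (continuous_subtype_val.comp Γ.continuous)
  · show (Γ 0).1.1 = e.1.1.1
    rw [h0]
  · intro t
    have h2 : cub (Γ t).1 = (γ t).1 := congrArg Subtype.val (hl t)
    have h3 : (Γ t).1.2 = (γ t).1.1 := congrArg Prod.fst h2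
    have h4 : ((Γ t).1.1, (γ t).1.1) = (Γ t).1 := Prod.ext rfl h3.symm
    show cub ((Γ t).1.1, (γ t).1.1) = (γ t).1
    rw [h4]
    exact h2
  · rfl

theorem Mo_trans {a b c : ↥Bset} (γ : Path a b) (γ' : Path b c) (e : pr3 ⁻¹' {a}) :
    Mo (γ.trans γ') e = Mo γ' (Mo γ e) := by
  unfold Mo
  rw [Path.Homotopic.Quotient.mk_trans, pr3_cov.monodromy_trans_apply]

theorem Mo_symm {a b : ↥Bset} (γ : Path a b) (e : pr3 ⁻¹' {a}) : Mo γ.symm (Mo γ e) = e := by
  rw [← Mo_trans]
  unfold Mo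
  have : Path.Homotopic.Quotient.mk (γ.trans γ.symm) = Path.Homotopic.Quotient.refl a := by
    rw [Path.Homotopic.Quotient.mk_trans, Path.Homotopic.Quotient.mk_symm]
    exact Path.Homotopic.Quotient.trans_symm _
  rw [this, pr3_cov.monodromy_refl]
  rfl

theorem Mo_injective {a b : ↥Bset} (γ : Path a b) {e e' : pr3 ⁻¹' {a}} (h : Mo γ e = Mo γ e') :
    e = e' := by
  have := congrArg (Mo γ.symm) h
  rwa [Mo_symm, Mo_symm] at this

/-! ### Stereographic projection -/

/-- the part of the sphere off the knot -/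
def S2 : Set (ℂ × ℂ) := {p | Complex.normSq p.1 + Complex.normSq p.2 = 2 ∧ p ∈ Bset}

/-- the stereographic projection from `(1,1)` -/
def st (p : ℂ × ℂ) : E3 :=
  (2 - (p.1 + p.2).re)⁻¹ • !₂[(p.1 - p.2).re, (p.1 + p.2).im, (p.1 - p.2).im]

theorem S2_ne {p : ℂ × ℂ} (hp : p ∈ S2) : 2 - (p.1 + p.2).re ≠ 0 := by
  intro h0
  apply hp.2
  have h1 := hp.1
  rw [Complex.normSq_apply, Complex.normSq_apply] at h1
  rw [Complex.add_re] at h0
  have h2 : (p.1.re - 1) ^ 2 + p.1.im ^ 2 + ((p.2.re - 1) ^ 2 + p.2.im ^ 2) = 0 := by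
    nlinarith
  have e1 : p.1.re - 1 = 0 := by nlinarith [sq_nonneg (p.1.re - 1), sq_nonneg p.1.im, sq_nonneg (p.2.re - 1), sq_nonneg p.2.im]
  have e2 : p.1.im = 0 := by nlinarith [sq_nonneg (p.1.re - 1), sq_nonneg p.1.im, sq_nonneg (p.2.re - 1), sq_nonneg p.2.im]
  have e3 : p.2.re - 1 = 0 := by nlinarith [sq_nonneg (p.1.re - 1), sq_nonneg p.1.im, sq_nonneg (p.2.re - 1), sq_nonneg p.2.im]
  have e4 : p.2.im = 0 := by nlinarith [sq_nonneg (p.1.re - 1), sq_nonneg p.1.im, sq_nonneg (p.2.re - 1), sq_nonneg p.2.im]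
  have h3 : p.1 = 1 := Complex.ext (by simp; linarith) (by simp; linarith)
  have h4 : p.2 = 1 := Complex.ext (by simp; linarith) (by simp; linarith)
  rw [h3, h4]
  norm_num

theorem st_norm_sq {p : ℂ × ℂ} (hp : p ∈ S2) :
    ‖st p‖ ^ 2 = (2 + (p.1 + p.2).re) / (2 - (p.1 + p.2).re) := by
  have hne := S2_ne hp
  have h1 := hp.1
  rw [Complex.normSq_apply, Complex.normSq_apply] at h1
  unfold st
  rw [norm_smul, mul_pow, EuclideanSpace.norm_sq_eq, Fin.sum_univ_three]
  simp only [Real.norm_eq_abs, sq_abs, Matrix.cons_val_zero, Matrix.cons_val_one, Matrix.cons_val]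
  simp only [Complex.add_re, Complex.sub_re, Complex.add_im, Complex.sub_im] at hne ⊢
  field_simp
  nlinarith

theorem st_z {p : ℂ × ℂ} (hp : p ∈ S2) : z1 (st p) = p.1 ∧ z2 (st p) = p.2 := by
  have hne := S2_ne hp
  have hns := st_norm_sq hp
  have c0 : st p 0 = (p.1 - p.2).re / (2 - (p.1 + p.2).re) := by
    simp [st]; ring
  have c1 : st p 1 = (p.1 + p.2).im / (2 - (p.1 + p.2).re) := by
    simp [st]; ring
  have c2 : st p 2 = (p.1 - p.2).im / (2 - (p.1 + p.2).re) := by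
    simp [st]; ring
  set s : ℝ := (p.1 + p.2).re with hs
  have hplus : ‖st p‖ ^ 2 + 1 = 4 / (2 - s) := by
    rw [hns]; field_simp; ring
  have hD : (‖st p‖ ^ 2 + 1 : ℝ) ≠ 0 := by positivity
  have hDc : ((‖st p‖ ^ 2 + 1 : ℝ) : ℂ) ≠ 0 := by exact_mod_cast hD
  constructor
  · unfold z1
    rw [div_eq_iff hDc, hplus, hns, c0, c1, c2]
    apply Complex.ext
    · simp only [Complex.add_re, Complex.mul_re, Complex.ofReal_re, Complex.ofReal_im,
        Complex.I_re, Complex.I_im]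
      have : s = p.1.re + p.2.re := by rw [hs, Complex.add_re]
      rw [Complex.sub_re]
      field_simp
      rw [this]
      ring
    · simp only [Complex.add_im, Complex.mul_im, Complex.ofReal_re, Complex.ofReal_im,
        Complex.I_re, Complex.I_im, Complex.sub_im]
      field_simp
      ring
  · unfold z2
    rw [div_eq_iff hDc, hplus, hns, c0, c1, c2]
    apply Complex.ext
    · simp only [Complex.add_re, Complex.mul_re, Complex.ofReal_re, Complex.ofReal_im,
        Complex.I_re, Complex.I_im]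
      have : s = p.1.re + p.2.re := by rw [hs, Complex.add_re]
      rw [Complex.sub_re]
      field_simp
      rw [this]
      ring
    · simp only [Complex.add_im, Complex.mul_im, Complex.ofReal_re, Complex.ofReal_im,
        Complex.I_re, Complex.I_im, Complex.sub_im]
      field_simp
      ring

theorem z_continuous : Continuous fun X : E3 => (z1 X, z2 X) := by
  have h : ∀ X : E3, ((‖X‖ ^ 2 + 1 : ℝ) : ℂ) ≠ 0 := by
    intro X
    have : (‖X‖ ^ 2 + 1 : ℝ) ≠ 0 := by positivity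
    exact_mod_cast this
  have c : ∀ i : Fin 3, Continuous fun X : E3 => X i := fun i => by fun_prop
  refine Continuous.prodMk ?_ ?_
  · unfold z1
    refine Continuous.div ?_ ?_ h
    · have := c 0; have := c 1; have := c 2
      fun_prop
    · fun_prop
  · unfold z2
    refine Continuous.div ?_ ?_ h
    · have := c 0; have := c 1; have := c 2
      fun_prop
    · fun_prop

/-- the stereographic projection into the knot complement -/
def stm (p : ↥S2) : ↥(Kalgᶜ) := ⟨st p.1, by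
  show ¬ (z1 (st p.1) ^ 3 = z2 (st p.1) ^ 2)
  rw [(st_z p.2).1, (st_z p.2).2]
  exact p.2.2⟩

theorem stm_continuous : Continuous stm := by
  refine Continuous.subtype_mk ?_ _
  have h1 : Continuous fun p : ↥S2 => (2 - (p.1.1 + p.1.2).re)⁻¹ := by
    refine Continuous.inv₀ ?_ fun p => S2_ne p.2
    have ha : Continuous fun p : ↥S2 => p.1.1 := continuous_fst.comp continuous_subtype_val
    have hb : Continuous fun p : ↥S2 => p.1.2 := continuous_snd.comp continuous_subtype_val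
    exact continuous_const.sub (Complex.continuous_re.comp (ha.add hb))
  have h2 : Continuous fun p : ↥S2 =>
      (!₂[(p.1.1 - p.1.2).re, (p.1.1 + p.1.2).im, (p.1.1 - p.1.2).im] : E3) := by
    fun_prop
  exact h1.smul h2

/-- the map to the complement of the discriminant -/
def Phi : C(↥(Kalgᶜ), ↥Bset) where
  toFun X := ⟨(z1 X.1, z2 X.1), X.2⟩
  continuous_toFun := Continuous.subtype_mk (z_continuous.comp continuous_subtype_val) _

theorem Phi_stm (p : ↥S2) : (Phi (stm p)).1 = p.1 := Prod.ext (st_z p.2).1 (st_z p.2).2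

/-- a path in the knot complement from a path in the sphere -/
def mkPath (g : I → ℂ × ℂ) (hc : Continuous g) (hg : ∀ t, g t ∈ S2) (a b : ↥S2)
    (h0 : g 0 = a.1) (h1 : g 1 = b.1) : Path (stm a) (stm b) where
  toFun t := stm ⟨g t, hg t⟩
  continuous_toFun := stm_continuous.comp (hc.subtype_mk _)
  source' := congrArg stm (Subtype.ext h0)
  target' := congrArg stm (Subtype.ext h1)

/-! ### The loops -/

/-- `√2` as a complex number -/
def s2 : ℂ := ((Real.sqrt 2 : ℝ) : ℂ)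

theorem s2_sq : s2 ^ 2 = 2 := by
  unfold s2
  rw [← Complex.ofReal_pow, Real.sq_sqrt (by norm_num)]
  norm_num

theorem s2_ne : s2 ≠ 0 := by
  intro h
  have := s2_sq
  rw [h] at this
  norm_num at this

theorem s2_cube : s2 ^ 3 = 2 * s2 := by
  rw [pow_succ, s2_sq]

theorem normSq_s2 : Complex.normSq s2 = 2 := by
  unfold s2
  rw [Complex.normSq_ofReal, Real.mul_self_sqrt (by norm_num)]

theorem normSq_exp_I (θ : ℝ) : Complex.normSq (Complex.exp (θ * Complex.I)) = 1 := by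
  rw [Complex.normSq_eq_norm_sq, Complex.norm_exp_ofReal_mul_I]
  norm_num

theorem gA_mem (θ : ℝ) : ((0 : ℂ), s2 * Complex.exp (θ * Complex.I)) ∈ S2 := by
  refine ⟨?_, ?_⟩
  · simp only [Complex.normSq_mul, normSq_s2, normSq_exp_I]
    simp
  · show (0 : ℂ) ^ 3 ≠ (s2 * Complex.exp (θ * Complex.I)) ^ 2
    intro h
    have h1 : s2 * Complex.exp (θ * Complex.I) = 0 := by
      have : (s2 * Complex.exp (θ * Complex.I)) ^ 2 = 0 := by rw [← h]; norm_num
      exact pow_eq_zero_iff (two_ne_zero) |>.1 this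
    exact mul_ne_zero s2_ne (Complex.exp_ne_zero _) h1

theorem gD_mem (θ : ℝ) : (-s2 * Complex.exp (θ * Complex.I), (0 : ℂ)) ∈ S2 := by
  refine ⟨?_, ?_⟩
  · simp only [Complex.normSq_mul, Complex.normSq_neg, normSq_s2, normSq_exp_I]
    simp
  · show (-s2 * Complex.exp (θ * Complex.I)) ^ 3 ≠ (0 : ℂ) ^ 2
    intro h
    have h1 : -s2 * Complex.exp (θ * Complex.I) = 0 := by
      have : (-s2 * Complex.exp (θ * Complex.I)) ^ 3 = 0 := by rw [h]; norm_num
      exact pow_eq_zero_iff (three_ne_zero) |>.1 this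
    exact mul_ne_zero (neg_ne_zero.2 s2_ne) (Complex.exp_ne_zero _) h1

theorem gC_mem' {a b : ℝ} (h0 : 0 ≤ a) (hab : a ^ 2 + b ^ 2 = 1) :
    (-s2 * (a : ℂ), s2 * (b : ℂ)) ∈ S2 := by
  refine ⟨?_, ?_⟩
  · simp only [Complex.normSq_mul, Complex.normSq_neg, normSq_s2, Complex.normSq_ofReal]
    nlinarith
  · show (-s2 * (a : ℂ)) ^ 3 ≠ (s2 * (b : ℂ)) ^ 2
    intro h
    have h1 : (((Real.sqrt 2) ^ 3 * a ^ 3 + 2 * b ^ 2 : ℝ) : ℂ) = 0 := by
      have h2 := s2_sq
      push_cast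
      unfold s2 at h h2
      rw [mul_pow, mul_pow, neg_pow, h2] at h
      linear_combination (-1 : ℂ) * h
    have h2 : (Real.sqrt 2) ^ 3 * a ^ 3 + 2 * b ^ 2 = 0 := by exact_mod_cast h1
    have h3 : 0 ≤ (Real.sqrt 2) ^ 3 * a ^ 3 := by positivity
    have h4 : b ^ 2 = 0 := by nlinarith [sq_nonneg b]
    have h5 : (Real.sqrt 2) ^ 3 * a ^ 3 = 0 := by nlinarith
    have h6 : a = 0 := by
      rcases mul_eq_zero.1 h5 with h | h
      · have : (0 : ℝ) < (Real.sqrt 2) ^ 3 := by positivity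
        linarith
      · exact pow_eq_zero_iff three_ne_zero |>.1 h
    rw [h4, h6] at hab
    norm_num at hab

theorem gC_mem {θ : ℝ} (h0 : 0 ≤ Real.sin θ) :
    (-s2 * ((Real.sin θ : ℝ) : ℂ), s2 * ((Real.cos θ : ℝ) : ℂ)) ∈ S2 :=
  gC_mem' h0 (Real.sin_sq_add_cos_sq θ)

/-- the base point -/
def pA : ↥S2 := ⟨((0 : ℂ), s2), by
  have := gA_mem 0
  simpa using this⟩

/-- the second base point -/
def pB : ↥S2 := ⟨(-s2, (0 : ℂ)), by
  have := gD_mem 0
  simpa using this⟩

/-- the first loop -/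
def PA : Path (stm pA) (stm pA) :=
  mkPath (fun t => ((0 : ℂ), s2 * Complex.exp (((2 * Real.pi * t : ℝ) : ℂ) * Complex.I)))
    (by fun_prop) (fun t => gA_mem _) pA pA
    (by show _ = ((0 : ℂ), s2); simp)
    (by
      show _ = ((0 : ℂ), s2)
      refine Prod.ext rfl ?_
      show s2 * Complex.exp (((2 * Real.pi * (1 : ℝ) : ℝ) : ℂ) * Complex.I) = s2
      rw [mul_one]
      push_cast
      rw [Complex.exp_two_pi_mul_I, mul_one])

/-- the auxiliary path -/
def PC : Path (stm pA) (stm pB) :=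
  mkPath (fun t => (-s2 * ((Real.sin (Real.pi / 2 * t) : ℝ) : ℂ),
      s2 * ((Real.cos (Real.pi / 2 * t) : ℝ) : ℂ)))
    (by fun_prop)
    (fun t => gC_mem (Real.sin_nonneg_of_nonneg_of_le_pi
      (by have := t.2.1; positivity)
      (by have := t.2.2; have := Real.pi_pos; nlinarith [t.2.1]))) pA pB
    (by show _ = ((0 : ℂ), s2); simp)
    (by show _ = (-s2, (0 : ℂ)); simp)

/-- the second loop, at the second base point -/
def PD : Path (stm pB) (stm pB) :=
  mkPath (fun t => (-s2 * Complex.exp (((2 * Real.pi * t : ℝ) : ℂ) * Complex.I), (0 : ℂ)))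
    (by fun_prop) (fun t => gD_mem _) pB pB
    (by show _ = (-s2, (0 : ℂ)); simp)
    (by
      show _ = (-s2, (0 : ℂ))
      refine Prod.ext ?_ rfl
      show -s2 * Complex.exp (((2 * Real.pi * (1 : ℝ) : ℝ) : ℂ) * Complex.I) = -s2
      rw [mul_one]
      push_cast
      rw [Complex.exp_two_pi_mul_I, mul_one])

/-- image of a path in the complement of the discriminant -/
def im {x y : ↥(Kalgᶜ)} (P : Path x y) : Path (Phi x) (Phi y) := P.map Phi.continuous

theorem im_PA (t : I) : (im PA t).1 =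
    ((0 : ℂ), s2 * Complex.exp (((2 * Real.pi * t : ℝ) : ℂ) * Complex.I)) := Phi_stm _

theorem im_PC (t : I) : (im PC t).1 = (-s2 * ((Real.sin (Real.pi / 2 * t) : ℝ) : ℂ),
      s2 * ((Real.cos (Real.pi / 2 * t) : ℝ) : ℂ)) := Phi_stm _

theorem im_PD (t : I) : (im PD t).1 =
    (-s2 * Complex.exp (((2 * Real.pi * t : ℝ) : ℂ) * Complex.I), (0 : ℂ)) := Phi_stm _

theorem bA : (Phi (stm pA)).1 = ((0 : ℂ), s2) := Phi_stm _

theorem bB : (Phi (stm pB)).1 = (-s2, (0 : ℂ)) := Phi_stm _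

/-- the real root over the base point -/
def r0 : pr3 ⁻¹' {Phi (stm pA)} := mkE _ (-s2) (by
  rw [bA]
  unfold cub
  refine Prod.ext rfl ?_
  show (3 * (0 : ℂ) * (-s2) - (-s2) ^ 3) / 2 = s2
  have := s2_cube
  linear_combination (1 / 2 : ℂ) * this)

theorem rt_r0 : rt r0 = -s2 := rfl

theorem rt_MA : rt (Mo (im PA) r0) = -s2 * Complex.exp (((2 * Real.pi / 3 : ℝ) : ℂ) * Complex.I) := by
  have h := rt_Mo (im PA) r0
    (fun t => -s2 * Complex.exp (((2 * Real.pi / 3 * t : ℝ) : ℂ) * Complex.I))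
    (by fun_prop) (by simp [rt_r0]) (by
      intro t
      rw [im_PA]
      unfold cub
      refine Prod.ext rfl ?_
      show (3 * (0 : ℂ) * (-s2 * Complex.exp (((2 * Real.pi / 3 * t : ℝ) : ℂ) * Complex.I)) -
        (-s2 * Complex.exp (((2 * Real.pi / 3 * t : ℝ) : ℂ) * Complex.I)) ^ 3) / 2 =
        s2 * Complex.exp (((2 * Real.pi * t : ℝ) : ℂ) * Complex.I)
      have h1 : Complex.exp (((2 * Real.pi / 3 * t : ℝ) : ℂ) * Complex.I) ^ 3 =
          Complex.exp (((2 * Real.pi * t : ℝ) : ℂ) * Complex.I) := by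
        rw [← Complex.exp_nat_mul]
        congr 1
        push_cast
        ring
      rw [← h1]
      have := s2_cube
      linear_combination (1 / 2 : ℂ) *
        Complex.exp (((2 * Real.pi / 3 * t : ℝ) : ℂ) * Complex.I) ^ 3 * this)
  simpa using h

theorem MA_ne : Mo (im PA) r0 ≠ r0 := by
  intro h
  have h1 := rt_MA
  rw [h, rt_r0] at h1
  have h2 : Complex.exp (((2 * Real.pi / 3 : ℝ) : ℂ) * Complex.I) = 1 := by
    have h3 : s2 * (Complex.exp (((2 * Real.pi / 3 : ℝ) : ℂ) * Complex.I) - 1) = 0 := by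
      linear_combination h1
    rcases mul_eq_zero.1 h3 with h | h
    · exact absurd h s2_ne
    · linear_combination h
  have h3 := congrArg Complex.re h2
  rw [Complex.exp_ofReal_mul_I_re] at h3
  have h4 : Real.cos (2 * Real.pi / 3) = -(1 / 2) := by
    rw [show 2 * Real.pi / 3 = Real.pi - Real.pi / 3 by ring, Real.cos_pi_sub, Real.cos_pi_div_three]
  rw [h4] at h3
  norm_num at h3

theorem conj_cub {x : ℂ} {a b : ℝ} (h : cub (x, (a : ℂ)) = ((a : ℂ), (b : ℂ))) :
    cub ((starRingEnd ℂ) x, (a : ℂ)) = ((a : ℂ), (b : ℂ)) := by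
  have h2 := congrArg Prod.snd h
  unfold cub at h2 ⊢
  refine Prod.ext rfl ?_
  simp only at h2 ⊢
  have h3 := congrArg (starRingEnd ℂ) h2
  rw [map_div₀, map_sub, map_mul, map_mul, map_pow, Complex.conj_ofReal, Complex.conj_ofReal,
    map_ofNat, map_ofNat] at h3
  exact h3

theorem im_PC' (t : I) : (im PC t).1 = (((-Real.sqrt 2 * Real.sin (Real.pi / 2 * t) : ℝ) : ℂ),
      ((Real.sqrt 2 * Real.cos (Real.pi / 2 * t) : ℝ) : ℂ)) := by
  rw [im_PC]
  simp only [s2, Complex.ofReal_mul, Complex.ofReal_neg]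

theorem rt_MC : rt (Mo (im PC) r0) = 0 := by
  obtain ⟨X, hX, hX0, hXc, hX1⟩ := exists_lift (im PC) r0
  have hconj : rt (Mo (im PC) r0) = (starRingEnd ℂ) (X 1) := by
    apply rt_Mo (im PC) r0 (fun t => (starRingEnd ℂ) (X t))
    · exact Complex.continuous_conj.comp hX
    · rw [hX0, rt_r0]
      simp [s2]
    · intro t
      have h1 := hXc t
      rw [im_PC'] at h1 ⊢
      exact conj_cub h1
  rw [← hX1] at hconj
  have hspec := rt_spec (Mo (im PC) r0)
  set x := rt (Mo (im PC) r0) with hx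
  rw [bB] at hspec
  have h1 := congrArg Prod.snd hspec
  unfold cub at h1
  simp only at h1
  obtain ⟨y, hy'⟩ := Complex.conj_eq_iff_real.1 hconj.symm
  have hy : x = (y : ℂ) := hX1.symm.trans hy'
  rw [hy] at h1
  have h2 : ((y * (3 * Real.sqrt 2 + y ^ 2) : ℝ) : ℂ) = 0 := by
    push_cast
    unfold s2 at h1
    linear_combination (-2 : ℂ) * h1
  have h3 : y * (3 * Real.sqrt 2 + y ^ 2) = 0 := by exact_mod_cast h2
  have h4 : 0 < 3 * Real.sqrt 2 + y ^ 2 := by positivity
  rcases mul_eq_zero.1 h3 with h | h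
  · rw [hy, h]
    simp
  · linarith

theorem MD_zero {e : pr3 ⁻¹' {Phi (stm pB)}} (he : rt e = 0) : Mo (im PD) e = e := by
  apply rt_injective
  rw [he]
  apply rt_Mo (im PD) e (fun _ => 0) continuous_const he.symm
  intro t
  rw [im_PD]
  unfold cub
  refine Prod.ext rfl ?_
  simp

theorem MD_neg {e : pr3 ⁻¹' {Phi (stm pB)}} (he : rt e ≠ 0) : rt (Mo (im PD) e) = - rt e := by
  have hspec := rt_spec e
  rw [bB] at hspec
  have h1 := congrArg Prod.snd hspec
  unfold cub at h1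
  simp only at h1
  have h2 : rt e ^ 2 = -3 * s2 := by
    have : rt e * (rt e ^ 2 + 3 * s2) = 0 := by linear_combination (-2 : ℂ) * h1
    rcases mul_eq_zero.1 this with h | h
    · exact absurd h he
    · linear_combination h
  have h := rt_Mo (im PD) e (fun t => rt e * Complex.exp (((Real.pi * t : ℝ) : ℂ) * Complex.I))
    (by fun_prop) (by simp) (by
      intro t
      rw [im_PD]
      unfold cub
      refine Prod.ext rfl ?_
      simp only
      have h3 : Complex.exp (((Real.pi * t : ℝ) : ℂ) * Complex.I) ^ 2 =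
          Complex.exp (((2 * Real.pi * t : ℝ) : ℂ) * Complex.I) := by
        rw [← Complex.exp_nat_mul]
        congr 1
        push_cast
        ring
      rw [← h3]
      set w := Complex.exp (((Real.pi * t : ℝ) : ℂ) * Complex.I) with hw
      linear_combination (-(1 / 2) : ℂ) * rt e * w ^ 3 * h2)
  rw [h]
  simp [Complex.exp_pi_mul_I]

/-- the second loop at the base point -/
def PB : Path (stm pA) (stm pA) := PC.trans (PD.trans PC.symm)

theorem Mo_PB (e : pr3 ⁻¹' {Phi (stm pA)}) :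
    Mo (im PB) e = Mo (im PC).symm (Mo (im PD) (Mo (im PC) e)) := by
  have h1 : im PB = (im PC).trans ((im PD).trans (im PC).symm) := by
    unfold im PB
    rw [Path.map_trans, Path.map_trans, Path.map_symm]
  rw [h1, Mo_trans, Mo_trans]

theorem MB_r0 : Mo (im PB) r0 = r0 := by
  rw [Mo_PB, MD_zero rt_MC, Mo_symm]

theorem MB_r1 : Mo (im PB) (Mo (im PA) r0) ≠ Mo (im PA) r0 := by
  set e := Mo (im PA) r0 with he
  intro h
  rw [Mo_PB] at h
  have h1 : Mo (im PD) (Mo (im PC) e) = Mo (im PC) e := by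
    have h2 : Mo (im PC) (Mo (im PC).symm (Mo (im PD) (Mo (im PC) e))) = Mo (im PC) e := by rw [h]
    have h3 := Mo_symm (im PC).symm (Mo (im PD) (Mo (im PC) e))
    rw [Path.symm_symm] at h3
    rw [← h3]
    exact h2
  have hne : rt (Mo (im PC) e) ≠ 0 := by
    intro h0
    have h2 : Mo (im PC) e = Mo (im PC) r0 := rt_injective (h0.trans rt_MC.symm)
    exact MA_ne (Mo_injective _ h2)
  have h4 := MD_neg hne
  rw [h1] at h4
  apply hne
  linear_combination (1 / 2 : ℂ) * h4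

theorem Mo_congr {x y : ↥(Kalgᶜ)} {P Q : Path x y}
    (h : Path.Homotopic.Quotient.mk P = Path.Homotopic.Quotient.mk Q)
    (e : pr3 ⁻¹' {Phi x}) : Mo (im P) e = Mo (im Q) e := by
  unfold Mo im
  have h1 := congrArg (fun q : Path.Homotopic.Quotient x y => q.map Phi) h
  rw [← Path.Homotopic.Quotient.mk_map, ← Path.Homotopic.Quotient.mk_map] at h1
  exact congrArg (fun q => pr3_cov.monodromy q e) h1

/-- **The complement of the long trefoil has a non commutative fundamental group.** -/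
theorem not_commCompl_Kalg : ¬ CommCompl Kalg := by
  intro hcomm
  have h1 := hcomm (stm pA) (Path.Homotopic.Quotient.mk PA) (Path.Homotopic.Quotient.mk PB)
  rw [FundamentalGroup.mul_def, FundamentalGroup.mul_def, ← Path.Homotopic.Quotient.mk_trans,
    ← Path.Homotopic.Quotient.mk_trans] at h1
  have h2 := Mo_congr h1 r0
  have e1 : Mo (im (PB.trans PA)) r0 = Mo (im PA) (Mo (im PB) r0) := by
    unfold im
    rw [Path.map_trans, Mo_trans]
  have e2 : Mo (im (PA.trans PB)) r0 = Mo (im PB) (Mo (im PA) r0) := by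
    unfold im
    rw [Path.map_trans, Mo_trans]
  rw [e1, e2, MB_r0] at h2
  exact MB_r1 h2.symm

end MPeb2336
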