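import Pool.Agent.Lib.MP_eb2336_co.Defs
import Pool.Agent.Lib.MP_eb2336_co.TrefoilGroup
import Pool.Agent.Lib.MP_eb2336_co.Isotopy

/-!
# MP_eb2336_co : the model curve

The algebraic long trefoil `Kalg` is the range of an explicit bi-Lipschitz rational curve `tref`;
cutting its velocity off at `±S` gives a `GoodModel`.
-/

noncomputable section

open Set Filter Topology MeasureTheory

namespace MPeb2336

def mA (u : ℝ) : ℝ := 5 * u ^ 4 - 10 * u ^ 2 + 1
def mB (u : ℝ) : ℝ := u ^ 5 - 10 * u ^ 3 + 5 * u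
def mQ (u : ℝ) : ℝ := 13 * u ^ 4 - 2 * u ^ 2 + 1

theorem mQ_pos (u : ℝ) : 0 < mQ u := by
  unfold mQ
  nlinarith [sq_nonneg (13 * u ^ 2 - 1)]

/-- the rational parametrisation of the long trefoil -/
def tref (u : ℝ) : E3 := WithLp.toLp 2 ![mA u / mQ u, u * mA u / mQ u, - mB u / mQ u]

@[simp] theorem tref_zero (u : ℝ) : tref u 0 = mA u / mQ u := rfl
@[simp] theorem tref_one (u : ℝ) : tref u 1 = u * mA u / mQ u := rfl
@[simp] theorem tref_two (u : ℝ) : tref u 2 = - mB u / mQ u := rfl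

theorem norm_sq_three (x : E3) : ‖x‖ ^ 2 = x 0 ^ 2 + x 1 ^ 2 + x 2 ^ 2 := by
  rw [EuclideanSpace.norm_sq_eq, Fin.sum_univ_three]
  simp [Real.norm_eq_abs, sq_abs]

theorem tref_norm_sq (u : ℝ) : ‖tref u‖ ^ 2 = 2 * (u ^ 2 + 1) ^ 3 / mQ u - 1 := by
  have hQ := (mQ_pos u).ne'
  rw [norm_sq_three, tref_zero, tref_one, tref_two]
  field_simp
  unfold mA mB mQ
  ring

theorem uI_ne (u : ℝ) : (u : ℂ) - Complex.I ≠ 0 := by
  intro h
  have := congrArg Complex.im h
  simp at this

theorem uI_mul (u : ℝ) : ((u : ℂ) + Complex.I) * ((u : ℂ) - Complex.I) = (u : ℂ) ^ 2 + 1 := by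
  linear_combination (-1 : ℂ) * Complex.I_sq

theorem uI_pow4 (u : ℝ) : ((u : ℂ) + Complex.I) ^ 4 =
    ((u : ℂ) ^ 4 - 6 * u ^ 2 + 1) + (4 * u ^ 3 - 4 * u) * Complex.I := by
  linear_combination (6 * (u : ℂ) ^ 2 + 4 * u * Complex.I + (Complex.I ^ 2 - 1)) * Complex.I_sq

theorem uI_pow6 (u : ℝ) : ((u : ℂ) + Complex.I) ^ 6 =
    ((u : ℂ) ^ 6 - 15 * u ^ 4 + 15 * u ^ 2 - 1) + (6 * u ^ 5 - 20 * u ^ 3 + 6 * u) * Complex.I := by
  linear_combination (15 * (u : ℂ) ^ 4 + 20 * u ^ 3 * Complex.I + 15 * u ^ 2 * (Complex.I ^ 2 - 1)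
    + 6 * u * Complex.I * (Complex.I ^ 2 - 1) + (Complex.I ^ 4 - Complex.I ^ 2 + 1)) * Complex.I_sq

theorem sq_add_one_ne (u : ℝ) : ((u : ℂ) ^ 2 + 1) ≠ 0 := by
  have : (0:ℝ) < u ^ 2 + 1 := by positivity
  exact_mod_cast this.ne'

theorem z1_tref (u : ℝ) : z1 (tref u) = (((u : ℂ) + Complex.I) / ((u : ℂ) - Complex.I)) ^ 2 := by
  have hQ := (mQ_pos u).ne'
  have h0 : ‖tref u‖ ^ 2 + 1 = 2 * (u ^ 2 + 1) ^ 3 / mQ u := by rw [tref_norm_sq]; ring
  have h1 : ‖tref u‖ ^ 2 - 1 + 2 * tref u 0 =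
      2 * (u ^ 6 - 5 * u ^ 4 - 5 * u ^ 2 + 1) / mQ u := by
    rw [tref_norm_sq, tref_zero]
    field_simp
    unfold mA mQ
    ring
  have h2 : 2 * (tref u 1 + tref u 2) = 2 * (4 * u ^ 5 - 4 * u) / mQ u := by
    rw [tref_one, tref_two]
    field_simp
    unfold mA mB
    ring
  have hQc : ((mQ u : ℝ) : ℂ) ≠ 0 := by exact_mod_cast hQ
  have hq := sq_add_one_ne u
  have hm := uI_ne u
  unfold z1
  rw [h0, h1, h2, div_pow, div_eq_div_iff]
  · push_cast
    have e4 := uI_pow4 u
    have em := uI_mul u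
    field_simp
    have h3 : ((u : ℂ) ^ 6 - 5 * u ^ 4 - 5 * u ^ 2 + 1) + (4 * u ^ 5 - 4 * u) * Complex.I =
        ((u : ℂ) + Complex.I) ^ 4 * ((u : ℂ) ^ 2 + 1) := by rw [e4]; ring
    have h4 : ((u : ℂ) ^ 6 - 5 * u ^ 4 - 5 * u ^ 2 + 1 + (4 * u ^ 5 - 4 * u) * Complex.I) *
        ((u : ℂ) - Complex.I) ^ 2 = ((u : ℂ) + Complex.I) ^ 2 * ((u : ℂ) ^ 2 + 1) ^ 3 := by
      rw [h3, ← em]; ring
    linear_combination h4
  · push_cast
    exact div_ne_zero (mul_ne_zero two_ne_zero (pow_ne_zero _ hq)) hQc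
  · exact pow_ne_zero _ hm

theorem z2_tref (u : ℝ) : z2 (tref u) = (((u : ℂ) + Complex.I) / ((u : ℂ) - Complex.I)) ^ 3 := by
  have hQ := (mQ_pos u).ne'
  have h0 : ‖tref u‖ ^ 2 + 1 = 2 * (u ^ 2 + 1) ^ 3 / mQ u := by rw [tref_norm_sq]; ring
  have h1 : ‖tref u‖ ^ 2 - 1 - 2 * tref u 0 =
      2 * (u ^ 6 - 15 * u ^ 4 + 15 * u ^ 2 - 1) / mQ u := by
    rw [tref_norm_sq, tref_zero]
    field_simp
    unfold mA mQ
    ring
  have h2 : 2 * (tref u 1 - tref u 2) = 2 * (6 * u ^ 5 - 20 * u ^ 3 + 6 * u) / mQ u := by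
    rw [tref_one, tref_two]
    field_simp
    unfold mA mB
    ring
  have hQc : ((mQ u : ℝ) : ℂ) ≠ 0 := by exact_mod_cast hQ
  have hq := sq_add_one_ne u
  have hm := uI_ne u
  unfold z2
  rw [h0, h1, h2, div_pow, div_eq_div_iff]
  · push_cast
    have e6 := uI_pow6 u
    have em := uI_mul u
    field_simp
    have h4 : ((u : ℂ) ^ 6 - 15 * u ^ 4 + 15 * u ^ 2 - 1 +
        (6 * u ^ 5 - 20 * u ^ 3 + 6 * u) * Complex.I) *
        ((u : ℂ) - Complex.I) ^ 3 = ((u : ℂ) + Complex.I) ^ 3 * ((u : ℂ) ^ 2 + 1) ^ 3 := by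
      rw [← e6, ← em]; ring
    linear_combination h4
  · push_cast
    exact div_ne_zero (mul_ne_zero two_ne_zero (pow_ne_zero _ hq)) hQc
  · exact pow_ne_zero _ hm

theorem z1_re (X : E3) : (z1 X).re = (‖X‖ ^ 2 - 1 + 2 * X 0) / (‖X‖ ^ 2 + 1) := by
  unfold z1
  rw [Complex.div_ofReal_re, Complex.add_re, Complex.mul_I_re, Complex.ofReal_re,
    Complex.ofReal_im]
  ring

theorem z1_im (X : E3) : (z1 X).im = (2 * (X 1 + X 2)) / (‖X‖ ^ 2 + 1) := by
  unfold z1
  rw [Complex.div_ofReal_im, Complex.add_im, Complex.mul_I_im, Complex.ofReal_re,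
    Complex.ofReal_im]
  ring

theorem z2_re (X : E3) : (z2 X).re = (‖X‖ ^ 2 - 1 - 2 * X 0) / (‖X‖ ^ 2 + 1) := by
  unfold z2
  rw [Complex.div_ofReal_re, Complex.add_re, Complex.mul_I_re, Complex.ofReal_re,
    Complex.ofReal_im]
  ring

theorem z2_im (X : E3) : (z2 X).im = (2 * (X 1 - X 2)) / (‖X‖ ^ 2 + 1) := by
  unfold z2
  rw [Complex.div_ofReal_im, Complex.add_im, Complex.mul_I_im, Complex.ofReal_re,
    Complex.ofReal_im]
  ring

theorem z_sum_re (X : E3) : 2 - ((z1 X).re + (z2 X).re) = 4 / (‖X‖ ^ 2 + 1) := by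
  have h : ‖X‖ ^ 2 + 1 ≠ 0 := by positivity
  rw [z1_re, z2_re]
  field_simp
  ring

/-- the point is recovered from its two complex coordinates -/
theorem st_z_X (X : E3) : st (z1 X, z2 X) = X := by
  have h : ‖X‖ ^ 2 + 1 ≠ 0 := by positivity
  have hs := z_sum_re X
  unfold st
  simp only [Complex.add_re, Complex.sub_re, Complex.add_im, Complex.sub_im]
  rw [hs, z1_re, z2_re, z1_im, z2_im]
  ext i
  fin_cases i
  · simp
    field_simp
    ring
  · simp
    field_simp
    ring
  · simp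
    field_simp
    ring

theorem z_normSq (X : E3) : Complex.normSq (z1 X) + Complex.normSq (z2 X) = 2 := by
  have h : ‖X‖ ^ 2 + 1 ≠ 0 := by positivity
  rw [Complex.normSq_apply, Complex.normSq_apply, z1_re, z2_re, z1_im, z2_im]
  have h2 := norm_sq_three X
  set N := ‖X‖ ^ 2 with hN
  field_simp
  rw [h2]
  ring

theorem range_tref : range tref = Kalg := by
  ext X
  constructor
  · rintro ⟨u, rfl⟩
    change z1 (tref u) ^ 3 = z2 (tref u) ^ 2
    rw [z1_tref, z2_tref]
    ring
  · intro hX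
    change z1 X ^ 3 = z2 X ^ 2 at hX
    have hn := z_normSq X
    have hs := z_sum_re X
    have hs' : 0 < 2 - ((z1 X).re + (z2 X).re) := by rw [hs]; positivity
    set a := z1 X with ha
    set b := z2 X with hb
    have hp := Complex.normSq_nonneg a
    have hq := Complex.normSq_nonneg b
    have h3 : Complex.normSq a ^ 3 = Complex.normSq b ^ 2 := by
      rw [← map_pow, ← map_pow, hX]
    have hp1 : Complex.normSq a = 1 := by
      have h4 : Complex.normSq b = 2 - Complex.normSq a := by linarith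
      rw [h4] at h3
      have h5 : (Complex.normSq a - 1) * (Complex.normSq a ^ 2 + 4) = 0 := by
        linear_combination h3
      rcases mul_eq_zero.1 h5 with h6 | h6
      · linarith
      · nlinarith [sq_nonneg (Complex.normSq a)]
    have hq1 : Complex.normSq b = 1 := by linarith
    have ha0 : a ≠ 0 := by
      intro h; rw [h] at hp1; simp at hp1
    have hb0 : b ≠ 0 := by
      intro h; rw [h] at hq1; simp at hq1
    obtain ⟨ζ, hζ⟩ : ∃ ζ, ζ = b / a := ⟨_, rfl⟩
    have hζ2 : ζ ^ 2 = a := by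
      rw [hζ, div_pow, ← hX]
      field_simp
    have hζ3 : ζ ^ 3 = b := by
      rw [pow_succ, hζ2, hζ]
      field_simp
    have hζn : ζ.re ^ 2 + ζ.im ^ 2 = 1 := by
      have : Complex.normSq ζ = 1 := by rw [hζ, map_div₀, hp1, hq1]; norm_num
      rw [Complex.normSq_apply] at this
      linarith
    have hζ1 : 1 - ζ.re ≠ 0 := by
      intro h
      have h1 : ζ.re = 1 := by linarith
      have h2 : ζ.im = 0 := by
        rw [h1] at hζn
        nlinarith
      have h3 : ζ = 1 := Complex.ext h1 h2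
      rw [← hζ2, ← hζ3, h3] at hs'
      norm_num at hs'
    refine ⟨ζ.im / (1 - ζ.re), ?_⟩
    set u : ℝ := ζ.im / (1 - ζ.re) with hu
    have hu1 : u * (1 - ζ.re) = ζ.im := by rw [hu]; field_simp
    have hu2 : ζ.im * u = 1 + ζ.re := by
      rw [hu]
      field_simp
      linear_combination hζn
    have hζu : ζ = ((u : ℂ) + Complex.I) / ((u : ℂ) - Complex.I) := by
      rw [eq_div_iff (uI_ne u)]
      apply Complex.ext
      · simp
        linarith
      · simp
        linarith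
    rw [← st_z_X X, ← st_z_X (tref u), z1_tref, z2_tref, ← hζu, hζ2, hζ3]

/-! ### bi-Lipschitz bounds -/

def mP (u v : ℝ) : ℝ :=
  2 * (3 * ((u ^ 2 + 1) * (v ^ 2 + 1)) ^ 2 +
    6 * ((u ^ 2 - 1) * (v ^ 2 - 1) + 4 * u * v) * ((u ^ 2 + 1) * (v ^ 2 + 1)) +
    4 * ((u ^ 2 - 1) * (v ^ 2 - 1) + 4 * u * v) ^ 2)

theorem tref_dist_sq (u v : ℝ) :
    ‖tref u - tref v‖ ^ 2 = (u - v) ^ 2 * (mP u v / (mQ u * mQ v)) := by
  have hu := (mQ_pos u).ne'
  have hv := (mQ_pos v).ne'
  rw [norm_sq_three]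
  simp only [PiLp.sub_apply, tref_zero, tref_one, tref_two]
  field_simp
  unfold mA mB mQ mP
  ring

theorem mP_ge (u v : ℝ) : 3 / 2 * ((u ^ 2 + 1) * (v ^ 2 + 1)) ^ 2 ≤ mP u v := by
  unfold mP
  nlinarith [sq_nonneg (3 * ((u ^ 2 + 1) * (v ^ 2 + 1)) +
    4 * ((u ^ 2 - 1) * (v ^ 2 - 1) + 4 * u * v))]

theorem mQ_le (u : ℝ) : mQ u ≤ 13 * (u ^ 2 + 1) ^ 2 := by
  unfold mQ
  nlinarith [sq_nonneg u]

theorem tref_lower (u v : ℝ) : 1 / 11 * |u - v| ≤ ‖tref u - tref v‖ := by
  have hu := mQ_pos u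
  have hv := mQ_pos v
  have h1 : (3 / 338 : ℝ) ≤ mP u v / (mQ u * mQ v) := by
    rw [le_div_iff₀ (by positivity)]
    have h2 := mP_ge u v
    have h3 : mQ u * mQ v ≤ (13 * (u ^ 2 + 1) ^ 2) * (13 * (v ^ 2 + 1) ^ 2) :=
      mul_le_mul (mQ_le u) (mQ_le v) hv.le (by positivity)
    nlinarith
  refine abs_le_of_sq_le_sq' ?_ (norm_nonneg _) |>.2
  rw [tref_dist_sq, mul_pow, sq_abs]
  have := mul_le_mul_of_nonneg_left h1 (sq_nonneg (u - v))
  nlinarith [sq_nonneg (u - v)]

/-! ### derivative -/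

/-- velocity at infinity -/
def vinf : E3 := WithLp.toLp 2 ![0, 5 / 13, - (1 / 13)]

/-- the velocity of `tref` -/
def vtref (u : ℝ) : E3 := deriv tref u

theorem contDiff_tref : ContDiff ℝ ⊤ tref := by
  rw [contDiff_euclidean]
  intro i
  have hQ : ContDiff ℝ ⊤ mQ := by unfold mQ; fun_prop
  have hA : ContDiff ℝ ⊤ mA := by unfold mA; fun_prop
  have hB : ContDiff ℝ ⊤ mB := by unfold mB; fun_prop
  have hne : ∀ u, mQ u ≠ 0 := fun u => (mQ_pos u).ne'
  fin_cases i
  · exact hA.div hQ hne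
  · exact (contDiff_id.mul hA).div hQ hne
  · exact hB.neg.div hQ hne

theorem quot_deriv (r r' : ℝ → ℝ) (hr : ∀ u, HasDerivAt r (r' u) u) (a : ℝ)
    (h1 : ∀ u, 1 ≤ |u| → |r u| ≤ a * u ^ 4) (h2 : ∀ u, 1 ≤ |u| → |r' u| ≤ a * |u| ^ 3) (u : ℝ) :
    ∃ d, HasDerivAt (fun u => r u / mQ u) d u ∧ (1 ≤ |u| → |d| ≤ a / |u|) := by
  have hQ' : HasDerivAt mQ (52 * u ^ 3 - 4 * u) u := by
    unfold mQ
    have h := (((hasDerivAt_pow 4 u).const_mul 13).sub ((hasDerivAt_pow 2 u).const_mul 2)).add_const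
      (1 : ℝ)
    refine h.congr_deriv ?_
    norm_num
    ring
  refine ⟨_, (hr u).div hQ' (mQ_pos u).ne', fun hu => ?_⟩
  set t := |u| with ht
  have ht0 : 0 < t := by linarith
  have hu2 : u ^ 2 = t ^ 2 := by rw [ht, sq_abs]
  have hu4 : u ^ 4 = t ^ 4 := by
    have : u ^ 4 = (u ^ 2) ^ 2 := by ring
    rw [this, hu2]; ring
  have ht2 : 1 ≤ t ^ 2 := by nlinarith
  have hQle : mQ u ≤ 14 * t ^ 4 := by
    unfold mQ
    rw [hu2, hu4]
    nlinarith
  have hQge : 11 * t ^ 4 ≤ mQ u := by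
    unfold mQ
    rw [hu2, hu4]
    nlinarith
  have hQ'le : |52 * u ^ 3 - 4 * u| ≤ 56 * t ^ 3 := by
    calc |52 * u ^ 3 - 4 * u| ≤ |52 * u ^ 3| + |4 * u| := abs_sub _ _
      _ = 52 * t ^ 3 + 4 * t := by rw [abs_mul, abs_mul, abs_pow]; norm_num [ht]
      _ ≤ 56 * t ^ 3 := by nlinarith
  have h1' := h1 u hu
  have h2' := h2 u hu
  rw [hu4] at h1'
  have ha : 0 ≤ a := by
    have := (abs_nonneg _).trans h1'
    by_contra hneg
    push Not at hneg
    have : a * t ^ 4 < 0 := mul_neg_of_neg_of_pos hneg (by positivity)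
    linarith
  have hQpos := mQ_pos u
  rw [abs_div, abs_of_pos (by positivity : 0 < mQ u ^ 2), div_le_div_iff₀ (by positivity) ht0]
  have h3 : |r' u * mQ u - r u * (52 * u ^ 3 - 4 * u)| ≤ 70 * a * t ^ 7 := by
    calc |r' u * mQ u - r u * (52 * u ^ 3 - 4 * u)|
        ≤ |r' u * mQ u| + |r u * (52 * u ^ 3 - 4 * u)| := abs_sub _ _
      _ = |r' u| * mQ u + |r u| * |52 * u ^ 3 - 4 * u| := by
          rw [abs_mul, abs_mul, abs_of_pos hQpos]
      _ ≤ (a * t ^ 3) * (14 * t ^ 4) + (a * t ^ 4) * (56 * t ^ 3) := by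
          gcongr
      _ = 70 * a * t ^ 7 := by ring
  have h4 : 121 * t ^ 8 ≤ mQ u ^ 2 := by
    have := mul_le_mul hQge hQge (by positivity) hQpos.le
    nlinarith
  calc |r' u * mQ u - r u * (52 * u ^ 3 - 4 * u)| * t ≤ (70 * a * t ^ 7) * t := by gcongr
    _ = a * (70 * t ^ 8) := by ring
    _ ≤ a * mQ u ^ 2 := by
        apply mul_le_mul_of_nonneg_left _ ha
        have : 0 ≤ t ^ 8 := by positivity
        linarith

theorem differentiable_tref : Differentiable ℝ tref :=
  contDiff_tref.differentiable (by simp)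

theorem hasDerivAt_tref_coord (u : ℝ) (i : Fin 3) :
    HasDerivAt (fun u => tref u i) (vtref u i) u := by
  have h1 : HasDerivAt tref (vtref u) u := (differentiable_tref u).hasDerivAt
  exact ((EuclideanSpace.proj (𝕜 := ℝ) i).hasFDerivAt.comp_hasDerivAt u h1)

theorem vtref_sub_vinf (u : ℝ) (hu : 1 ≤ |u|) : ‖vtref u - vinf‖ ≤ 70 / |u| := by
  have hu0 : 0 < |u| := by linarith
  have hu2 : u ^ 2 = |u| ^ 2 := by rw [sq_abs]
  have hcoord : ∀ i, |(vtref u - vinf) i| ≤ 40 / |u| := by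
    intro i
    fin_cases i
    · obtain ⟨d, hd, hd'⟩ := quot_deriv mA (fun u => 20 * u ^ 3 - 20 * u) (by
        intro u
        unfold mA
        have h := (((hasDerivAt_pow 4 u).const_mul 5).sub
          ((hasDerivAt_pow 2 u).const_mul 10)).add_const (1 : ℝ)
        refine h.congr_deriv ?_
        norm_num
        ring) 40 (by
        intro u hu
        have : u ^ 2 ≥ 1 := by rw [← sq_abs]; nlinarith
        unfold mA
        rw [abs_le]
        constructor <;> nlinarith [sq_nonneg (u ^ 2)]) (by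
        intro u hu
        have h3 : |u| ≤ |u| ^ 3 := by nlinarith [sq_nonneg (|u|), sq_nonneg (|u| - 1)]
        calc |20 * u ^ 3 - 20 * u| ≤ |20 * u ^ 3| + |20 * u| := abs_sub _ _
          _ = 20 * |u| ^ 3 + 20 * |u| := by rw [abs_mul, abs_mul, abs_pow]; norm_num
          _ ≤ 40 * |u| ^ 3 := by linarith) u
      have h1 := (hasDerivAt_tref_coord u 0).unique hd
      have h2 : (vtref u - vinf) 0 = d := by
        rw [PiLp.sub_apply, h1]
        simp [vinf]
      have h5 := hd' hu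
      rw [← h2] at h5
      exact h5
    · obtain ⟨d, hd, hd'⟩ := quot_deriv (fun u => (8 * u - 120 * u ^ 3) / 13)
        (fun u => (8 - 360 * u ^ 2) / 13) (by
        intro u
        have h := (((hasDerivAt_id u).const_mul 8).sub
          ((hasDerivAt_pow 3 u).const_mul 120)).div_const (13 : ℝ)
        refine h.congr_deriv ?_
        norm_num
        ring) 40 (by
        intro u hu
        have h3 : |u| ≤ |u| ^ 3 := by nlinarith [sq_nonneg (|u|), sq_nonneg (|u| - 1)]
        have h4 : |u| ^ 3 ≤ u ^ 4 := by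
          have : u ^ 4 = |u| ^ 3 * |u| := by
            rw [← Even.pow_abs (by decide : Even 4) u]; ring
          rw [this]
          nlinarith [pow_nonneg (abs_nonneg u) 3]
        rw [abs_div, div_le_iff₀ (by norm_num)]
        calc |8 * u - 120 * u ^ 3| ≤ |8 * u| + |120 * u ^ 3| := abs_sub _ _
          _ = 8 * |u| + 120 * |u| ^ 3 := by rw [abs_mul, abs_mul, abs_pow]; norm_num
          _ ≤ 40 * u ^ 4 * |13| := by norm_num; nlinarith) (by
        intro u hu
        have h2 : 1 ≤ |u| ^ 2 := by nlinarith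
        have h3 : |u| ^ 2 ≤ |u| ^ 3 := by nlinarith [sq_nonneg (|u|)]
        rw [abs_div, div_le_iff₀ (by norm_num)]
        calc |8 - 360 * u ^ 2| ≤ |8| + |360 * u ^ 2| := abs_sub _ _
          _ = 8 + 360 * |u| ^ 2 := by rw [abs_mul, abs_pow]; norm_num
          _ ≤ 40 * |u| ^ 3 * |13| := by
              rw [abs_of_pos (by norm_num : (0:ℝ) < 13)]
              nlinarith) u
      have h0 : HasDerivAt (fun u => 5 / 13 * u + (8 * u - 120 * u ^ 3) / 13 / mQ u)
          (5 / 13 + d) u := by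
        have := ((hasDerivAt_id u).const_mul (5 / 13 : ℝ)).add hd
        refine this.congr_deriv ?_
        simp
      have h00 : (fun u => tref u 1) = fun u => 5 / 13 * u + (8 * u - 120 * u ^ 3) / 13 / mQ u := by
        funext u
        have := (mQ_pos u).ne'
        rw [tref_one]
        field_simp
        unfold mA mQ
        ring
      have h1 := (hasDerivAt_tref_coord u 1).unique (by rw [h00]; exact h0)
      have h2 : (vtref u - vinf) 1 = d := by
        rw [PiLp.sub_apply, h1]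
        simp [vinf]
      have h5 := hd' hu
      rw [← h2] at h5
      exact h5
    · obtain ⟨d, hd, hd'⟩ := quot_deriv (fun u => (128 * u ^ 3 - 64 * u) / 13)
        (fun u => (384 * u ^ 2 - 64) / 13) (by
        intro u
        have h := (((hasDerivAt_pow 3 u).const_mul 128).sub
          ((hasDerivAt_id u).const_mul 64)).div_const (13 : ℝ)
        refine h.congr_deriv ?_
        norm_num
        ring) 40 (by
        intro u hu
        have h3 : |u| ≤ |u| ^ 3 := by nlinarith [sq_nonneg (|u|), sq_nonneg (|u| - 1)]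
        have h4 : |u| ^ 3 ≤ u ^ 4 := by
          have : u ^ 4 = |u| ^ 3 * |u| := by
            rw [← Even.pow_abs (by decide : Even 4) u]; ring
          rw [this]
          nlinarith [pow_nonneg (abs_nonneg u) 3]
        rw [abs_div, div_le_iff₀ (by norm_num)]
        calc |128 * u ^ 3 - 64 * u| ≤ |128 * u ^ 3| + |64 * u| := abs_sub _ _
          _ = 128 * |u| ^ 3 + 64 * |u| := by rw [abs_mul, abs_mul, abs_pow]; norm_num
          _ ≤ 40 * u ^ 4 * |13| := by norm_num; nlinarith) (by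
        intro u hu
        have h2 : 1 ≤ |u| ^ 2 := by nlinarith
        have h3 : |u| ^ 2 ≤ |u| ^ 3 := by nlinarith [sq_nonneg (|u|)]
        rw [abs_div, div_le_iff₀ (by norm_num)]
        calc |384 * u ^ 2 - 64| ≤ |384 * u ^ 2| + |64| := abs_sub _ _
          _ = 384 * |u| ^ 2 + 64 := by rw [abs_mul, abs_pow]; norm_num
          _ ≤ 40 * |u| ^ 3 * |13| := by
              rw [abs_of_pos (by norm_num : (0:ℝ) < 13)]
              nlinarith) u
      have h0 : HasDerivAt (fun u => (- (1 / 13)) * u + (128 * u ^ 3 - 64 * u) / 13 / mQ u)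
          (- (1 / 13) + d) u := by
        have := ((hasDerivAt_id u).const_mul (- (1 / 13) : ℝ)).add hd
        refine this.congr_deriv ?_
        simp
      have h00 : (fun u => tref u 2) =
          fun u => (- (1 / 13)) * u + (128 * u ^ 3 - 64 * u) / 13 / mQ u := by
        funext u
        have := (mQ_pos u).ne'
        rw [tref_two]
        field_simp
        unfold mB mQ
        ring
      have h1 := (hasDerivAt_tref_coord u 2).unique (by rw [h00]; exact h0)
      have h2 : (vtref u - vinf) 2 = d := by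
        rw [PiLp.sub_apply, h1]
        simp [vinf]
      have h5 := hd' hu
      rw [← h2] at h5
      exact h5
  have h1 := euclid_le_sup (vtref u - vinf) _ (by positivity) hcoord
  have h2 : Real.sqrt 3 ≤ 7 / 4 := by
    rw [Real.sqrt_le_left (by norm_num)]; norm_num
  calc ‖vtref u - vinf‖ ≤ Real.sqrt 3 * (40 / |u|) := h1
    _ ≤ 7 / 4 * (40 / |u|) := by gcongr
    _ = 70 / |u| := by ring

/-! ### cutting off -/

/-- the clamp to `[-S, S]` -/
def clamp (S u : ℝ) : ℝ := max (-S) (min S u)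

theorem clamp_mem {S : ℝ} (hS : 0 < S) (u : ℝ) : clamp S u ∈ Icc (-S) S :=
  ⟨le_max_left _ _, max_le (by linarith) (min_le_left _ _)⟩

theorem clamp_dist (S u v : ℝ) : |clamp S u - clamp S v| ≤ |u - v| := by
  unfold clamp
  calc |max (-S) (min S u) - max (-S) (min S v)| ≤ |min S u - min S v| := by
        have := abs_max_sub_max_le_max (-S) (min S u) (-S) (min S v)
        simpa using this
    _ ≤ |u - v| := by
        have := abs_min_sub_min_le_max S u S v
        simpa using this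

theorem clamp_of_mem {S u : ℝ} (h : |u| ≤ S) : clamp S u = u := by
  have := abs_le.1 h
  unfold clamp
  rw [min_eq_right this.2, max_eq_right this.1]

theorem continuous_vtref : Continuous vtref := by
  have h : ContDiff ℝ 1 tref := contDiff_tref.of_le (by simp)
  exact h.continuous_deriv le_rfl

theorem lipschitz_vtref (S : ℝ) : ∃ K : ℝ, 0 ≤ K ∧ ∀ x ∈ Icc (-S) S, ∀ y ∈ Icc (-S) S,
    ‖vtref x - vtref y‖ ≤ K * |x - y| := by
  have h2 : ContDiff ℝ 2 tref := contDiff_tref.of_le (by simp)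
  have h1 : ContDiff ℝ 1 vtref := by
    have : ContDiff ℝ (1 + 1) tref := by
      have e : (1 + 1 : WithTop ℕ∞) = 2 := by norm_num
      rw [e]; exact h2
    exact (contDiff_succ_iff_deriv.1 this).2.2
  obtain ⟨K, hK⟩ := (h1.contDiffOn (s := Icc (-S) S)).exists_lipschitzOnWith one_ne_zero
    (convex_Icc _ _) isCompact_Icc
  refine ⟨K, K.2, fun x hx y hy => ?_⟩
  have := hK.dist_le_mul x hx y hy
  rwa [dist_eq_norm, Real.dist_eq] at this

/-- Existence of the model curve. -/
theorem exists_goodModel : ∃ (V : ℝ → E3) (c C S : ℝ), GoodModel V c C S := by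
  obtain ⟨K, hK0, hK⟩ := lipschitz_vtref 10000
  have hS : (0:ℝ) < 10000 := by norm_num
  set V : ℝ → E3 := fun s => vtref (clamp 10000 s) with hV
  have hVlip : ∀ s t, ‖V s - V t‖ ≤ K * |s - t| := by
    intro s t
    exact (hK _ (clamp_mem hS s) _ (clamp_mem hS t)).trans
      (mul_le_mul_of_nonneg_left (clamp_dist _ _ _) hK0)
  have hVc : Continuous V := by
    have : LipschitzWith K.toNNReal V := LipschitzWith.of_dist_le_mul (fun s t => by
      rw [dist_eq_norm, Real.dist_eq, Real.coe_toNNReal _ hK0]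
      exact hVlip s t)
    exact this.continuous
  -- the difference of the velocities is small
  have hE : ∀ u, ‖V u - vtref u‖ ≤ 14 / 1000 := by
    intro u
    by_cases hu : |u| ≤ 10000
    · simp only [hV, clamp_of_mem hu, sub_self, norm_zero]
      norm_num
    · push Not at hu
      have h1 : |clamp 10000 u| = 10000 := by
        unfold clamp
        rcases le_abs.1 hu.le with h | h
        · rw [min_eq_left h, max_eq_right (by norm_num)]; norm_num
        · rw [min_eq_right (by linarith), max_eq_left (by linarith)]; norm_num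
      have h2 := vtref_sub_vinf u (by linarith)
      have h3 := vtref_sub_vinf (clamp 10000 u) (by rw [h1]; norm_num)
      rw [h1] at h3
      have h4 : 70 / |u| ≤ 70 / 10000 := by gcongr
      have h5 : V u - vtref u = (vtref (clamp 10000 u) - vinf) - (vtref u - vinf) := by
        simp only [hV]; abel
      rw [h5]
      refine (norm_sub_le _ _).trans ?_
      linarith
  have hint : ∀ s t, ∫ u in s..t, vtref u = tref t - tref s := by
    intro s t
    exact intervalIntegral.integral_deriv_eq_sub (fun x _ => differentiable_tref x)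
      (continuous_vtref.intervalIntegrable _ _)
  have hdiff : ∀ s t, ‖(∫ u in s..t, V u) - (tref t - tref s)‖ ≤ 14 / 1000 * |t - s| := by
    intro s t
    rw [← hint, ← intervalIntegral.integral_sub (hVc.intervalIntegrable _ _)
      (continuous_vtref.intervalIntegrable _ _)]
    exact intervalIntegral.norm_integral_le_of_norm_le_const (fun x _ => hE x)
  refine ⟨V, 1 / 20, K, 10000, ⟨by norm_num, hS, hVlip, ?_, ?_, ?_, ?_⟩⟩
  · intro s hs
    simp only [hV]
    congr 1
    unfold clamp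
    rw [min_eq_left hs, min_self]
  · intro s hs
    simp only [hV]
    congr 1
    unfold clamp
    rw [min_eq_right (by linarith), min_eq_right (by linarith), max_eq_left hs, max_self]
  · intro s t
    have h1 := hdiff s t
    have h2 := tref_lower t s
    have h3 : ‖tref t - tref s‖ ≤ ‖∫ u in s..t, V u‖ + ‖(∫ u in s..t, V u) - (tref t - tref s)‖ := by
      have : tref t - tref s = (∫ u in s..t, V u) - ((∫ u in s..t, V u) - (tref t - tref s)) := by
        abel
      calc ‖tref t - tref s‖ = _ := congrArg norm this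
        _ ≤ _ := norm_sub_le _ _
    rw [abs_sub_comm s t]
    have := abs_nonneg (t - s)
    linarith
  · rw [← commCompl_of_close tref (fun s => ∫ u in (0:ℝ)..s, V u) ?_, range_tref]
    · exact not_commCompl_Kalg
    · intro s t
      have h1 : ((∫ u in (0:ℝ)..s, V u) - tref s) - ((∫ u in (0:ℝ)..t, V u) - tref t) =
          (∫ u in t..s, V u) - (tref s - tref t) := by
        rw [← intervalIntegral.integral_add_adjacent_intervals (a := (0:ℝ)) (b := t) (c := s)
          (hVc.intervalIntegrable _ _) (hVc.intervalIntegrable _ _)]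
        abel
      rw [h1]
      have h2 := hdiff t s
      have h3 := tref_lower s t
      have := abs_nonneg (s - t)
      linarith

end MPeb2336
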