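import Pool.Agent.Lib.MP_eb2336_co.Statement

/-!
# MP_eb2336_co : long curves, motion invariance, certified configurations are locked
-/

noncomputable section

/-! ### the perturbation lemma -/

section

open Set Filter Topology MeasureTheory NNReal CategoryTheory

namespace MPeb2336

lemma exists_lip_ext {ι : Type*} (F G : ι → E3)
    (h : ∀ i j, ‖(G i - F i) - (G j - F j)‖ ≤ (1/4) * ‖F i - F j‖) :
    ∃ u : E3 → E3, (∀ x y, ‖u x - u y‖ ≤ (1/2) * ‖x - y‖) ∧ ∀ i, u (F i) = G i - F i := by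
  classical
  by_cases hι : Nonempty ι
  swap
  · refine ⟨fun _ => 0, fun x y => ?_, fun i => (hι ⟨i⟩).elim⟩
    simp only [sub_self, norm_zero]; positivity
  -- section of F
  let s : E3 → ι := Function.invFun F
  have hs : ∀ i, F (s (F i)) = F i := fun i => Function.invFun_eq (f := F) ⟨i, rfl⟩
  let u0 : E3 → E3 := fun x => G (s x) - F (s x)
  have hu0 : ∀ i, u0 (F i) = G i - F i := by
    intro i
    have := h (s (F i)) i
    rw [hs i, sub_self, norm_zero, mul_zero] at this
    have h2 := norm_le_zero_iff.1 this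
    have h3 : G (s (F i)) - F i - (G i - F i) = 0 := h2
    simp only [u0]
    rw [hs i]
    exact sub_eq_zero.1 h3
  have hlip : ∀ k : Fin 3, LipschitzOnWith (1/4 : ℝ≥0) (fun x => u0 x k) (range F) := by
    intro k
    rw [lipschitzOnWith_iff_dist_le_mul]
    rintro _ ⟨i, rfl⟩ _ ⟨j, rfl⟩
    rw [hu0, hu0, Real.dist_eq, dist_eq_norm]
    have h1 : |((G i - F i) - (G j - F j)) k| ≤ ‖(G i - F i) - (G j - F j)‖ := by
      have := PiLp.norm_apply_le ((G i - F i) - (G j - F j)) k
      simpa [Real.norm_eq_abs] using this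
    have h2 := h i j
    have e : (G i - F i) k - (G j - F j) k = ((G i - F i) - (G j - F j)) k := by simp
    rw [e]
    refine h1.trans (h2.trans ?_)
    simp
  choose g hg hgeq using fun k => (hlip k).extend_real
  refine ⟨fun x => WithLp.toLp 2 (fun k => g k x), fun x y => ?_, fun i => ?_⟩
  · have hk : ∀ k, (g k x - g k y)^2 ≤ (1/16) * ‖x - y‖^2 := by
      intro k
      have := (hg k).dist_le_mul x y
      rw [Real.dist_eq, dist_eq_norm] at this
      have h0 : (0:ℝ) ≤ |g k x - g k y| := abs_nonneg _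
      have h1 : |g k x - g k y| ≤ (1/4) * ‖x - y‖ := by simpa using this
      calc (g k x - g k y)^2 = |g k x - g k y|^2 := (sq_abs _).symm
        _ ≤ ((1/4) * ‖x - y‖)^2 := by gcongr
        _ = (1/16) * ‖x - y‖^2 := by ring
    rw [EuclideanSpace.norm_eq]
    rw [show (1/2) * ‖x - y‖ = √((1/4) * ‖x-y‖^2) by
      rw [show (1/4) * ‖x-y‖^2 = ((1/2) * ‖x - y‖)^2 by ring, Real.sqrt_sq (by positivity)]]
    apply Real.sqrt_le_sqrt
    rw [Fin.sum_univ_three]
    have e0 := hk 0
    have e1 := hk 1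
    have e2 := hk 2
    simp only [PiLp.sub_apply, Real.norm_eq_abs, sq_abs]
    nlinarith [norm_nonneg (x - y), sq_nonneg ‖x - y‖]
  · ext k
    have := hgeq k (mem_range_self i)
    simp only [hu0] at this
    simp [← this]

/-- The perturbation lemma. -/
theorem exists_homeo_of_close {ι : Type*} (F G : ι → E3)
    (h : ∀ i j, ‖(G i - F i) - (G j - F j)‖ ≤ (1/4) * ‖F i - F j‖) :
    ∃ Φ : E3 ≃ₜ E3, ∀ i, Φ (F i) = G i := by
  obtain ⟨u, hu, huF⟩ := exists_lip_ext F G h
  have happ : ApproximatesLinearOn (fun x => x + u x)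
      ((ContinuousLinearEquiv.refl ℝ E3 : E3 ≃L[ℝ] E3) : E3 →L[ℝ] E3) univ (1/2 : ℝ≥0) := by
    intro x _ y _
    have := hu x y
    have e : (x + u x) - (y + u y) - (x - y) = u x - u y := by abel
    simpa [e] using this
  have hc : Subsingleton E3 ∨ (1/2 : ℝ≥0) <
      ‖((ContinuousLinearEquiv.refl ℝ E3).symm : E3 →L[ℝ] E3)‖₊⁻¹ := by
    right
    have : ‖((ContinuousLinearEquiv.refl ℝ E3).symm : E3 →L[ℝ] E3)‖₊ = 1 := by
      have h1 : (((ContinuousLinearEquiv.refl ℝ E3).symm : E3 ≃L[ℝ] E3) : E3 →L[ℝ] E3)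
          = ContinuousLinearMap.id ℝ E3 := rfl
      rw [h1]
      exact ContinuousLinearMap.nnnorm_id
    rw [this]
    norm_num
  refine ⟨happ.toHomeomorph _ hc, fun i => ?_⟩
  change F i + u (F i) = G i
  rw [huF]; abel

/-- Commutativity of the group of the complement is invariant under homeomorphisms of `ℝ³`. -/
theorem commCompl_of_homeo {K K' : Set E3} (Φ : E3 ≃ₜ E3) (h : Φ '' K = K')
    (hK : CommCompl K) : CommCompl K' := by
  subst h
  intro x a b
  -- homeomorphism of the complements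
  let g : ↥((Φ '' K)ᶜ) ≃ₜ ↥(Kᶜ) :=
    (Φ.symm.subtype (fun x => by
      constructor
      · intro hx hx'
        exact hx ⟨_, hx', by simp⟩
      · rintro hx ⟨y, hy, rfl⟩
        exact hx (by simpa using hy)))
  let gc : C(↥((Φ '' K)ᶜ), ↥(Kᶜ)) := ⟨g, g.continuous⟩
  let gs : C(↥(Kᶜ), ↥((Φ '' K)ᶜ)) := ⟨g.symm, g.symm.continuous⟩
  have hcomp : FundamentalGroupoid.map gc ⋙ FundamentalGroupoid.map gs = 𝟭 _ := by
    rw [← FundamentalGroupoid.map_comp, ← FundamentalGroupoid.map_id]
    congr 1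
    ext y
    simp [gc, gs]
  have hfaith : (FundamentalGroupoid.map gc).Faithful :=
    CategoryTheory.Functor.Faithful.of_comp_eq hcomp
  have key := hK (g x) (FundamentalGroup.map gc x a) (FundamentalGroup.map gc x b)
  rw [← map_mul, ← map_mul] at key
  exact (FundamentalGroupoid.map gc).map_injective key

end MPeb2336

end

/-! ### estimates for the long curve -/

section

open Set Filter Topology MeasureTheory

namespace MPeb2336

lemma measurable_step (e : ℕ → E3) : Measurable (fun u : ℝ => e ⌊u⌋₊) :=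
  (measurable_of_countable e).comp Nat.measurable_floor

lemma measurable_vel (R : ℝ) (e : ℕ → E3) : Measurable (vel R e) :=
  Measurable.ite measurableSet_Iio (measurable_step e) measurable_const

lemma measurable_vel2 (R : ℝ) (ep em : ℕ → E3) : Measurable (vel2 R ep em) :=
  Measurable.ite measurableSet_Ici (measurable_vel R ep)
    ((measurable_vel R em).comp measurable_neg).neg

lemma intervalIntegrable_of_bdd {f : ℝ → E3} (hf : Measurable f) {M : ℝ}
    (hM : ∀ u, ‖f u‖ ≤ M) (a b : ℝ) : IntervalIntegrable f volume a b := by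
  refine (intervalIntegrable_const (c := M)).mono_fun hf.aestronglyMeasurable ?_
  refine ae_of_all _ fun u => ?_
  have h0 : 0 ≤ M := (norm_nonneg _).trans (hM u)
  simpa [abs_of_nonneg h0] using hM u

section half

variable {a : ℕ} {e : ℕ → E3} (h : HalfCert a e)

include h

lemma HalfCert.step_ii (x y : ℝ) : IntervalIntegrable (fun u : ℝ => e ⌊u⌋₊) volume x y :=
  intervalIntegrable_of_bdd (measurable_step e) (M := 1001/1000) (fun u => h.ub _) x y

lemma HalfCert.half_sub (s t : ℝ) : half e s - half e t = ∫ u in t..s, e ⌊u⌋₊ := by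
  unfold half
  rw [intervalIntegral.integral_interval_sub_left (h.step_ii _ _) (h.step_ii _ _)]

lemma HalfCert.half_lip (s t : ℝ) : ‖half e s - half e t‖ ≤ 1001/1000 * |s - t| := by
  rw [h.half_sub]
  exact intervalIntegral.norm_integral_le_of_norm_le_const (fun _ _ => h.ub _)

lemma HalfCert.half_continuous : Continuous (half e) := by
  have : LipschitzWith (1001/1000 : NNReal) (half e) := by
    refine LipschitzWith.of_dist_le_mul fun x y => ?_
    rw [dist_eq_norm, Real.dist_eq]
    simpa using h.half_lip x y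
  exact this.continuous

omit h in
lemma half_zero : half e 0 = 0 := by simp [half]

lemma HalfCert.norm_half_le {s : ℝ} (hs : 0 ≤ s) : ‖half e s‖ ≤ 1001/1000 * s := by
  have := h.half_lip s 0
  rwa [half_zero, sub_zero, sub_zero, abs_of_nonneg hs] at this

/-- along the needle the curve is almost straight -/
lemma HalfCert.needle_sub {s t : ℝ} (ht : (a:ℝ) ≤ t) (hts : t ≤ s) :
    ‖half e s - half e t - (s - t) • e a‖ ≤ (s - t) / 500 := by
  rw [h.half_sub]
  have e1 : (s - t) • e a = ∫ u in t..s, e a := by simp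
  rw [e1, ← intervalIntegral.integral_sub (h.step_ii _ _) intervalIntegrable_const]
  have := intervalIntegral.norm_integral_le_of_norm_le_const (a := t) (b := s) (C := 1/500)
    (f := fun u => e ⌊u⌋₊ - e a) (fun u hu => by
      rw [uIoc_of_le hts] at hu
      exact h.needle _ (Nat.le_floor (ht.trans hu.1.le)))
  rw [abs_of_nonneg (by linarith)] at this
  linarith

lemma HalfCert.norm_dir : 1 ≤ ‖e a‖ ∧ ‖e a‖ ≤ 1001/1000 := ⟨h.lb a, h.ub a⟩

lemma HalfCert.half_approx {s : ℝ} (hs : (a:ℝ) ≤ s) :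
    ‖half e s - s • e a‖ ≤ 2002/1000 * a + s / 500 := by
  have h1 := h.needle_sub (le_refl (a:ℝ)) hs
  have ha : (0:ℝ) ≤ a := Nat.cast_nonneg a
  have h2 := h.norm_half_le ha
  have h3 : ‖(a:ℝ) • e a‖ ≤ 1001/1000 * a := by
    rw [norm_smul, Real.norm_eq_abs, abs_of_nonneg ha]
    nlinarith [h.norm_dir.2]
  have e1 : half e s - s • e a = (half e s - half e a - (s - a) • e a) + (half e a - (a:ℝ) • e a) := by
    rw [sub_smul]; abel
  rw [e1]
  calc _ ≤ ‖half e s - half e a - (s - a) • e a‖ + ‖half e a - (a:ℝ) • e a‖ := norm_add_le _ _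
    _ ≤ (s - a)/500 + (‖half e a‖ + ‖(a:ℝ) • e a‖) := add_le_add h1 (norm_sub_le _ _)
    _ ≤ _ := by nlinarith

lemma HalfCert.half_approx' {s : ℝ} (hs : 1000 * (a:ℝ) ≤ s) (ha : 1 ≤ a) :
    ‖half e s - s • e a‖ ≤ 41/10000 * s := by
  have ha' : (1:ℝ) ≤ a := by exact_mod_cast ha
  have := h.half_approx (s := s) (by nlinarith)
  linarith

/-- radial growth along the needle -/
lemma HalfCert.radial {s t : ℝ} (ha : 1 ≤ a) (ht : 1000 * (a:ℝ) ≤ t) (hts : t ≤ s) :
    ‖half e t‖ + 9/10 * (s - t) ≤ ‖half e s‖ := by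
  have ha' : (1:ℝ) ≤ a := by exact_mod_cast ha
  have h1 := h.half_approx' ht ha
  have h2 := h.needle_sub (s := s) (t := t) (by linarith) hts
  set x := half e t with hx
  set d := e a with hd
  obtain ⟨hd1, hd2⟩ := h.norm_dir
  have ht0 : 0 < t := by linarith
  have hx1 : ‖x‖ ≤ 1001/1000 * t := h.norm_half_le ht0.le
  have hx0 : 0 < ‖x‖ := by
    have : ‖t • d‖ ≤ ‖t • d - x‖ + ‖x‖ := by
      have := norm_add_le (t • d - x) x
      simpa using this
    rw [norm_sub_rev, norm_smul, Real.norm_eq_abs, abs_of_pos ht0] at this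
    nlinarith
  -- inner product
  have key : 9/10 * (s - t) * ‖x‖ ≤ inner ℝ x (half e s - x) := by
    have e1 : half e s - x = (s - t) • d + (half e s - x - (s - t) • d) := by abel
    rw [e1, inner_add_right, inner_smul_right]
    have i1 : inner ℝ x d ≥ t * ‖d‖^2 - 41/10000 * t * ‖d‖ := by
      have : inner ℝ x d = t * ‖d‖^2 + inner ℝ (x - t • d) d := by
        rw [inner_sub_left, inner_smul_left, real_inner_self_eq_norm_sq]; simp
      rw [this]
      have := abs_real_inner_le_norm (x - t • d) d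
      have := (abs_le.1 this).1
      nlinarith [norm_nonneg d, norm_nonneg (x - t • d)]
    have i2 : |inner ℝ x (half e s - x - (s - t) • d)| ≤ ‖x‖ * ((s - t)/500) :=
      (abs_real_inner_le_norm _ _).trans (by gcongr)
    have i3 := (abs_le.1 i2).1
    have hst : 0 ≤ s - t := by linarith
    have i4 : inner ℝ x d ≥ 99/100 * t := by
      have i5 : ‖d‖^2 - 41/10000 * ‖d‖ ≥ 99/100 := by nlinarith
      nlinarith [mul_le_mul_of_nonneg_left i5 ht0.le]
    nlinarith [mul_nonneg hst hx0.le, mul_nonneg hst ht0.le]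
  have hcs := real_inner_le_norm x (half e s)
  have e2 : inner ℝ x (half e s) = ‖x‖^2 + inner ℝ x (half e s - x) := by
    rw [inner_sub_right, real_inner_self_eq_norm_sq]; ring
  rw [e2] at hcs
  have : ‖x‖ * (‖x‖ + 9/10 * (s-t)) ≤ ‖x‖ * ‖half e s‖ := by nlinarith
  exact le_of_mul_le_mul_left this hx0


/-- radius of the ball -/
def Rad (a : ℕ) : ℝ := 1010 * a

/-- the exit time for the radius `Rad a` -/
def tau (a : ℕ) (e : ℕ → E3) : ℝ := exitT (Rad a) e

lemma HalfCert.exit_set (ha : 1 ≤ a) :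
    IsClosed {s : ℝ | 0 ≤ s ∧ Rad a ≤ ‖half e s‖} ∧
    (1100 * (a:ℝ)) ∈ {s : ℝ | 0 ≤ s ∧ Rad a ≤ ‖half e s‖} ∧
    BddBelow {s : ℝ | 0 ≤ s ∧ Rad a ≤ ‖half e s‖} := by
  have ha' : (1:ℝ) ≤ a := by exact_mod_cast ha
  refine ⟨?_, ?_, ⟨0, fun s hs => hs.1⟩⟩
  · exact isClosed_Ici.inter (isClosed_le continuous_const h.half_continuous.norm)
  · refine ⟨by positivity, ?_⟩
    have h1 := h.half_approx' (s := 1100 * a) (by linarith) ha
    have h2 : ‖(1100 * (a:ℝ)) • e a‖ ≥ 1100 * a := by
      rw [norm_smul, Real.norm_eq_abs, abs_of_nonneg (by positivity)]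
      nlinarith [h.norm_dir.1]
    have h3 : ‖(1100 * (a:ℝ)) • e a‖ ≤ ‖half e (1100 * a)‖ + 41/10000 * (1100 * a) := by
      have := norm_sub_norm_le ((1100 * (a:ℝ)) • e a) (half e (1100 * a))
      rw [norm_sub_rev] at this
      linarith
    unfold Rad
    linarith

lemma HalfCert.tau_mem (ha : 1 ≤ a) :
    0 ≤ tau a e ∧ Rad a ≤ ‖half e (tau a e)‖ :=
  (h.exit_set ha).1.csInf_mem ⟨_, (h.exit_set ha).2.1⟩ (h.exit_set ha).2.2

lemma HalfCert.tau_le (ha : 1 ≤ a) : tau a e ≤ 1100 * a :=
  csInf_le (h.exit_set ha).2.2 (h.exit_set ha).2.1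

lemma HalfCert.lt_tau (ha : 1 ≤ a) {s : ℝ} (hs : 0 ≤ s) (hs' : s < tau a e) :
    ‖half e s‖ < Rad a := by
  by_contra hcon
  exact absurd (csInf_le (h.exit_set ha).2.2 ⟨hs, not_lt.1 hcon⟩) (not_le.2 hs')

lemma HalfCert.tau_ge (ha : 1 ≤ a) : 1008 * (a:ℝ) ≤ tau a e := by
  have h1 := h.tau_mem ha
  have h2 := h.norm_half_le h1.1
  have ha' : (1:ℝ) ≤ a := by exact_mod_cast ha
  unfold Rad at h1
  nlinarith [h1.2]

lemma HalfCert.norm_tau (ha : 1 ≤ a) : ‖half e (tau a e)‖ = Rad a := by
  refine le_antisymm ?_ (h.tau_mem ha).2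
  have ha' : (1:ℝ) ≤ a := by exact_mod_cast ha
  have hpos : 0 < tau a e := by linarith [h.tau_ge ha]
  have hcl : tau a e ∈ closure (Ico 0 (tau a e)) := by
    rw [closure_Ico hpos.ne]; exact right_mem_Icc.2 hpos.le
  have hclosed : IsClosed {s : ℝ | ‖half e s‖ ≤ Rad a} :=
    isClosed_le h.half_continuous.norm continuous_const
  exact hclosed.closure_subset_iff.2 (fun s hs => (h.lt_tau ha hs.1 hs.2).le) hcl

lemma HalfCert.norm_half_le_Rad (ha : 1 ≤ a) {s : ℝ} (hs : 0 ≤ s) (hs' : s ≤ tau a e) :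
    ‖half e s‖ ≤ Rad a := by
  rcases hs'.lt_or_eq with hlt | heq
  · exact (h.lt_tau ha hs hlt).le
  · rw [heq, h.norm_tau ha]

omit h in
lemma Rad_pos (ha : 1 ≤ a) : 0 < Rad a := by
  have ha' : (1:ℝ) ≤ a := by exact_mod_cast ha
  unfold Rad; linarith

/-- direction of the ray -/
def ray (a : ℕ) (e : ℕ → E3) : E3 := (1 / Rad a) • half e (tau a e)

lemma HalfCert.norm_ray (ha : 1 ≤ a) : ‖ray a e‖ = 1 := by
  have := Rad_pos ha
  unfold ray
  rw [norm_smul, h.norm_tau ha, Real.norm_eq_abs, abs_of_pos (by positivity)]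
  field_simp

lemma HalfCert.ray_near (ha : 1 ≤ a) : ‖ray a e - e a‖ ≤ 1/100 := by
  have ha' : (1:ℝ) ≤ a := by exact_mod_cast ha
  have hR := Rad_pos ha
  have h1 := h.tau_ge ha
  have h2 := h.half_approx' (s := tau a e) (by linarith) ha
  have h3 := h.norm_tau ha
  obtain ⟨hd1, hd2⟩ := h.norm_dir
  set τ := tau a e
  have hτ : 0 < τ := by linarith
  have n1 : ‖τ • e a‖ = τ * ‖e a‖ := by rw [norm_smul, Real.norm_eq_abs, abs_of_pos hτ]
  have b1 : Rad a ≤ τ * ‖e a‖ + 41/10000 * τ := by
    have := norm_add_le (half e τ - τ • e a) (τ • e a)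
    rw [sub_add_cancel, h3, n1] at this
    linarith
  have b2 : τ * ‖e a‖ - 41/10000 * τ ≤ Rad a := by
    have := norm_add_le (τ • e a - half e τ) (half e τ)
    rw [sub_add_cancel, h3, n1, norm_sub_rev] at this
    linarith
  have e1 : ray a e - e a = (1 / Rad a) • ((half e τ - τ • e a) + (τ - Rad a) • e a) := by
    unfold ray
    rw [smul_add, smul_sub, smul_smul, smul_smul, mul_sub, sub_smul, one_div, inv_mul_cancel₀ hR.ne',
      one_smul]
    abel
  rw [e1, norm_smul, Real.norm_eq_abs, abs_of_pos (by positivity), one_div, inv_mul_le_iff₀ hR]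
  refine (norm_add_le _ _).trans ?_
  rw [norm_smul, Real.norm_eq_abs]
  have b3 : |τ - Rad a| ≤ 51/10000 * τ := by
    rw [abs_le]; constructor <;> nlinarith
  have b4 : |τ - Rad a| * ‖e a‖ ≤ 51/10000 * τ * (1001/1000) := by gcongr
  nlinarith

omit h in
lemma vel_of_lt {u : ℝ} (hu : u < tau a e) : vel (Rad a) e u = e ⌊u⌋₊ := if_pos hu

omit h in
lemma vel_of_ge {u : ℝ} (hu : tau a e ≤ u) : vel (Rad a) e u = ray a e :=
  if_neg (not_lt.2 hu)

lemma HalfCert.norm_vel_le (ha : 1 ≤ a) (u : ℝ) : ‖vel (Rad a) e u‖ ≤ 1001/1000 := by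
  rcases lt_or_ge u (tau a e) with hu | hu
  · rw [vel_of_lt hu]; exact h.ub _
  · rw [vel_of_ge hu, h.norm_ray ha]; norm_num

lemma HalfCert.vel_near (ha : 1 ≤ a) {u : ℝ} (hu : (a:ℝ) ≤ u) :
    ‖vel (Rad a) e u - e a‖ ≤ 1/100 := by
  rcases lt_or_ge u (tau a e) with hu' | hu'
  · rw [vel_of_lt hu']
    exact (h.needle _ (Nat.le_floor hu)).trans (by norm_num)
  · rw [vel_of_ge hu']; exact h.ray_near ha

omit h in
/-- a common direction for two vectors making an angle at most `π/2`. -/
lemma common_dir {x y : E3} (hx : 1 ≤ ‖x‖) (hx' : ‖x‖ ≤ 1001/1000) (hy : 1 ≤ ‖y‖)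
    (hy' : ‖y‖ ≤ 1001/1000) (hxy : 0 ≤ inner ℝ x y) :
    ∃ w : E3, ‖w‖ ≤ 1 ∧ 1/2 ≤ inner ℝ w x ∧ 1/2 ≤ inner ℝ w y := by
  have hn : ‖x + y‖^2 = ‖x‖^2 + 2 * inner ℝ x y + ‖y‖^2 := norm_add_sq_real x y
  have hpos : 0 < ‖x + y‖ := by
    have : 0 < ‖x+y‖^2 := by rw [hn]; nlinarith
    by_contra hcon
    have h0 : ‖x + y‖ = 0 := le_antisymm (not_lt.1 hcon) (norm_nonneg _)
    rw [h0] at this
    norm_num at this
  have hX : 1 ≤ ‖x‖^2 := by nlinarith
  have hX' : ‖x‖^2 ≤ 101/100 := by nlinarith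
  have hY : 1 ≤ ‖y‖^2 := by nlinarith
  have hY' : ‖y‖^2 ≤ 101/100 := by nlinarith
  refine ⟨(1/‖x+y‖) • (x + y), ?_, ?_, ?_⟩
  · rw [norm_smul, Real.norm_eq_abs, abs_of_pos (by positivity)]
    field_simp
    exact le_refl _
  · rw [inner_smul_left, inner_add_left, real_inner_self_eq_norm_sq, real_inner_comm]
    simp only [conj_trivial]
    rw [one_div_mul_eq_div, le_div_iff₀ hpos]
    set c := inner ℝ x y
    have : (1/2 * ‖x+y‖)^2 ≤ (‖x‖^2 + c)^2 := by
      have h1 : c ≤ ‖x‖^2 * c := by nlinarith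
      have h2 : 1 ≤ (‖x‖^2)^2 := by nlinarith
      rw [mul_pow, hn]
      nlinarith [mul_nonneg hxy hxy]
    exact abs_le_of_sq_le_sq' this (by positivity) |>.2
  · rw [inner_smul_left, inner_add_left, real_inner_self_eq_norm_sq]
    simp only [conj_trivial]
    rw [one_div_mul_eq_div, le_div_iff₀ hpos]
    set c := inner ℝ x y
    have : (1/2 * ‖x+y‖)^2 ≤ (c + ‖y‖^2)^2 := by
      have h1 : c ≤ ‖y‖^2 * c := by nlinarith
      have h2 : 1 ≤ (‖y‖^2)^2 := by nlinarith
      rw [mul_pow, hn]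
      nlinarith [mul_nonneg hxy hxy]
    exact abs_le_of_sq_le_sq' this (by positivity) |>.2

/-- local direction -/
lemma HalfCert.local_dir (ha : 1 ≤ a) {v : ℝ} (hv : 0 ≤ v) :
    ∃ w : E3, ‖w‖ ≤ 1 ∧ ∀ u ∈ Icc v (v + 1), 1/2 ≤ inner ℝ w (vel (Rad a) e u) := by
  have ha' : (1:ℝ) ≤ a := by exact_mod_cast ha
  rcases lt_or_ge v a with hva | hva
  · obtain ⟨w, hw, h1, h2⟩ := common_dir (h.lb ⌊v⌋₊) (h.ub _) (h.lb (⌊v⌋₊ + 1)) (h.ub _)
      (h.turn ⌊v⌋₊)
    refine ⟨w, hw, fun u hu => ?_⟩
    have hτ := h.tau_ge ha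
    rw [vel_of_lt (by linarith [hu.2])]
    have hf1 : ⌊v⌋₊ ≤ ⌊u⌋₊ := Nat.floor_le_floor hu.1
    have hf2 : ⌊u⌋₊ ≤ ⌊v⌋₊ + 1 := by
      have := Nat.floor_le_floor hu.2
      rwa [Nat.floor_add_one hv] at this
    rcases (Nat.le_succ_iff.1 hf2) with hle | heq
    · rw [le_antisymm hle hf1]; exact h1
    · rw [heq]; exact h2
  · obtain ⟨hd1, hd2⟩ := h.norm_dir
    refine ⟨(1/‖e a‖) • e a, ?_, fun u hu => ?_⟩
    · rw [norm_smul, Real.norm_eq_abs, abs_of_pos (by positivity)]
      field_simp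
      exact le_refl _
    · have h1 := h.vel_near ha (hva.trans hu.1)
      have e1 : vel (Rad a) e u = e a + (vel (Rad a) e u - e a) := by abel
      rw [inner_smul_left, e1, inner_add_right, real_inner_self_eq_norm_sq]
      simp only [conj_trivial]
      rw [one_div_mul_eq_div, le_div_iff₀ (by positivity)]
      have := (abs_le.1 (abs_real_inner_le_norm (e a) (vel (Rad a) e u - e a))).1
      nlinarith [norm_nonneg (vel (Rad a) e u - e a)]

end half

end MPeb2336

end

/-! ### the two-sided long curve -/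

section

open Set Filter Topology MeasureTheory

namespace MPeb2336

/-- two half chains making an angle `≤ π/2` at the middle vertex -/
structure Cert (a : ℕ) (ep em : ℕ → E3) : Prop where
  ha : 1 ≤ a
  hp : HalfCert a ep
  hm : HalfCert a em
  mid : inner ℝ (ep 0) (em 0) ≤ (0:ℝ)

variable {a : ℕ} {ep em : ℕ → E3}

lemma Cert.norm_vel2_le (h : Cert a ep em) (u : ℝ) : ‖vel2 (Rad a) ep em u‖ ≤ 1001/1000 := by
  unfold vel2
  split_ifs
  · exact h.hp.norm_vel_le h.ha u
  · rw [norm_neg]; exact h.hm.norm_vel_le h.ha _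

lemma Cert.ii (h : Cert a ep em) (x y : ℝ) :
    IntervalIntegrable (vel2 (Rad a) ep em) volume x y :=
  intervalIntegrable_of_bdd (measurable_vel2 _ _ _) h.norm_vel2_le x y

lemma Cert.curve_sub (h : Cert a ep em) (x y : ℝ) :
    curve (Rad a) ep em x - curve (Rad a) ep em y = ∫ u in y..x, vel2 (Rad a) ep em u := by
  unfold curve
  rw [intervalIntegral.integral_interval_sub_left (h.ii _ _) (h.ii _ _)]

lemma Cert.curve_lip (h : Cert a ep em) (x y : ℝ) :
    ‖curve (Rad a) ep em x - curve (Rad a) ep em y‖ ≤ 1001/1000 * |x - y| := by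
  rw [h.curve_sub]
  exact intervalIntegral.norm_integral_le_of_norm_le_const (fun _ _ => h.norm_vel2_le _)

lemma Cert.curve_continuous (h : Cert a ep em) : Continuous (curve (Rad a) ep em) := by
  have : LipschitzWith (1001/1000 : NNReal) (curve (Rad a) ep em) := by
    refine LipschitzWith.of_dist_le_mul fun x y => ?_
    rw [dist_eq_norm, Real.dist_eq]
    simpa using h.curve_lip x y
  exact this.continuous

lemma curve_zero (R : ℝ) : curve R ep em 0 = 0 := by simp [curve]

/-- local direction of the two-sided curve -/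
lemma Cert.local_dir (h : Cert a ep em) (s : ℝ) :
    ∃ w : E3, ‖w‖ ≤ 1 ∧ ∀ u ∈ Ico s (s + 1), 1/2 ≤ inner ℝ w (vel2 (Rad a) ep em u) := by
  have ha' : (1:ℝ) ≤ a := by exact_mod_cast h.ha
  rcases le_or_gt 0 s with hs | hs
  · obtain ⟨w, hw, hw'⟩ := h.hp.local_dir h.ha hs
    refine ⟨w, hw, fun u hu => ?_⟩
    unfold vel2
    rw [if_pos (hs.trans hu.1)]
    exact hw' u (Ico_subset_Icc_self hu)
  rcases le_or_gt s (-1) with hs1 | hs1
  · obtain ⟨w, hw, hw'⟩ := h.hm.local_dir h.ha (v := -s - 1) (by linarith)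
    refine ⟨-w, by rwa [norm_neg], fun u hu => ?_⟩
    unfold vel2
    rw [if_neg (by linarith [hu.2]), inner_neg_neg]
    exact hw' (-u) ⟨by linarith [hu.2], by linarith [hu.1]⟩
  · obtain ⟨w, hw, h1, h2⟩ := common_dir (x := ep 0) (y := - em 0) (h.hp.lb 0) (h.hp.ub 0)
      (by rw [norm_neg]; exact h.hm.lb 0) (by rw [norm_neg]; exact h.hm.ub 0)
      (by rw [inner_neg_right]; linarith [h.mid])
    refine ⟨w, hw, fun u hu => ?_⟩
    have t1 := h.hp.tau_ge h.ha
    have t2 := h.hm.tau_ge h.ha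
    unfold vel2
    split_ifs with hu0
    · rw [vel_of_lt (by linarith [hu.2])]
      have : ⌊u⌋₊ = 0 := by
        rw [Nat.floor_eq_zero]; linarith [hu.2]
      rw [this]; exact h1
    · rw [vel_of_lt (by linarith [hu.1])]
      have : ⌊-u⌋₊ = 0 := by
        rw [Nat.floor_eq_zero]; linarith [hu.1]
      rw [this]; exact h2

/-- integrated local direction -/
lemma Cert.local_mono (h : Cert a ep em) (s : ℝ) :
    ∃ w : E3, ‖w‖ ≤ 1 ∧ ∀ x y, s ≤ y → y ≤ x → x ≤ s + 1 →
      1/2 * (x - y) ≤ inner ℝ w (curve (Rad a) ep em x - curve (Rad a) ep em y) := by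
  obtain ⟨w, hw, hw'⟩ := h.local_dir s
  refine ⟨w, hw, fun x y hy hyx hx => ?_⟩
  rw [h.curve_sub]
  have e1 : inner ℝ w (∫ u in y..x, vel2 (Rad a) ep em u)
      = ∫ u in y..x, inner ℝ w (vel2 (Rad a) ep em u) := by
    have := (innerSL ℝ w).intervalIntegral_comp_comm (h.ii y x)
    simpa using this.symm
  rw [e1]
  have e2 : 1/2 * (x - y) = ∫ u in y..x, (1/2 : ℝ) := by simp; ring
  rw [e2]
  have hint : IntervalIntegrable (fun u => inner ℝ w (vel2 (Rad a) ep em u)) volume y x := by
    have := (h.ii y x)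
    exact ⟨this.1.const_inner w, this.2.const_inner w⟩
  rw [intervalIntegral.integral_of_le hyx, intervalIntegral.integral_of_le hyx,
    ← MeasureTheory.integral_Ico_eq_integral_Ioc, ← MeasureTheory.integral_Ico_eq_integral_Ioc]
  refine setIntegral_mono_on ?_ ?_ measurableSet_Ico fun u hu => hw' u ⟨hy.trans hu.1, hu.2.trans_le hx⟩
  · exact integrableOn_const (by simp)
  · have := (intervalIntegrable_iff_integrableOn_Ico_of_le hyx).1 hint
    exact this

lemma Cert.local_lb (h : Cert a ep em) {x y : ℝ} (hxy : |x - y| ≤ 1) :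
    1/2 * |x - y| ≤ ‖curve (Rad a) ep em x - curve (Rad a) ep em y‖ := by
  wlog hle : y ≤ x generalizing x y
  · rw [abs_sub_comm, norm_sub_rev]
    exact this (by rwa [abs_sub_comm]) (le_of_not_ge hle)
  rw [abs_of_nonneg (sub_nonneg.2 hle)] at hxy ⊢
  obtain ⟨w, hw, hw'⟩ := h.local_mono y
  refine (hw' x y le_rfl hle (by linarith)).trans ?_
  refine (real_inner_le_norm _ _).trans ?_
  exact mul_le_of_le_one_left (norm_nonneg _) hw

/-- the curve on the positive side, before the exit -/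
lemma Cert.curve_pos (_h : Cert a ep em) {x : ℝ} (hx : 0 ≤ x) (hx' : x ≤ tau a ep) :
    curve (Rad a) ep em x = half ep x := by
  unfold curve half
  refine intervalIntegral.integral_congr_ae ?_
  have : ∀ᵐ u ∂volume, u ≠ x := by
    exact Measure.ae_ne volume x
  filter_upwards [this] with u hux hu
  rw [uIoc_of_le hx] at hu
  unfold vel2
  rw [if_pos hu.1.le, vel_of_lt (lt_of_lt_of_le (lt_of_le_of_ne hu.2 hux) hx')]

lemma Cert.curve_pos_ray (h : Cert a ep em) {x : ℝ} (hx : tau a ep ≤ x) :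
    curve (Rad a) ep em x = (Rad a + (x - tau a ep)) • ray a ep := by
  have ht := h.hp.tau_mem h.ha
  have e1 : curve (Rad a) ep em x = curve (Rad a) ep em (tau a ep) +
      (curve (Rad a) ep em x - curve (Rad a) ep em (tau a ep)) := by abel
  rw [e1, h.curve_sub, h.curve_pos ht.1 le_rfl]
  have e2 : ∫ u in (tau a ep)..x, vel2 (Rad a) ep em u = ∫ u in (tau a ep)..x, ray a ep := by
    refine intervalIntegral.integral_congr fun u hu => ?_
    rw [uIcc_of_le hx] at hu
    simp only [vel2]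
    rw [if_pos (ht.1.trans hu.1), vel_of_ge hu.1]
  rw [e2, intervalIntegral.integral_const, add_smul]
  congr 1
  unfold ray
  rw [smul_smul, mul_one_div, div_self (Rad_pos h.ha).ne', one_smul]

/-- reversing the roles of the two halves -/
lemma Cert.symm (h : Cert a ep em) : Cert a em ep :=
  ⟨h.ha, h.hm, h.hp, by rw [real_inner_comm]; exact h.mid⟩

lemma curve_neg (x : ℝ) :
    curve (Rad a) ep em (-x) = curve (Rad a) em ep x := by
  unfold curve
  have e1 : ∫ u in (0:ℝ)..(-x), vel2 (Rad a) ep em u = ∫ u in x..0, vel2 (Rad a) ep em (-u) := by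
    rw [intervalIntegral.integral_comp_neg, neg_zero]
  rw [e1, intervalIntegral.integral_symm, ← intervalIntegral.integral_neg]
  refine intervalIntegral.integral_congr_ae ?_
  filter_upwards [Measure.ae_ne volume (0:ℝ)] with u hu0 _
  unfold vel2
  rcases lt_or_gt_of_ne hu0 with hu | hu
  · rw [if_pos (by linarith), if_neg (by linarith)]
  · rw [if_neg (by linarith), if_pos hu.le, neg_neg, neg_neg]

/-- norm of the curve beyond the exit time -/
lemma Cert.norm_curve_ray (h : Cert a ep em) {x : ℝ} (hx : tau a ep ≤ x) :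
    ‖curve (Rad a) ep em x‖ = Rad a + (x - tau a ep) := by
  have := Rad_pos h.ha
  rw [h.curve_pos_ray hx, norm_smul, h.hp.norm_ray h.ha, Real.norm_eq_abs,
    abs_of_nonneg (by linarith), mul_one]

lemma Cert.norm_curve_ray_neg (h : Cert a ep em) {x : ℝ} (hx : tau a em ≤ x) :
    ‖curve (Rad a) ep em (-x)‖ = Rad a + (x - tau a em) := by
  rw [curve_neg, h.symm.norm_curve_ray hx]

lemma Cert.norm_curve_le_of_pos (h : Cert a ep em) {x : ℝ} (hx : 0 ≤ x) (hx' : x ≤ tau a ep) :
    ‖curve (Rad a) ep em x‖ ≤ Rad a := by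
  rw [h.curve_pos hx hx']
  exact h.hp.norm_half_le_Rad h.ha hx hx'

lemma Cert.norm_curve_lt_of_pos (h : Cert a ep em) {x : ℝ} (hx : 0 ≤ x) (hx' : x < tau a ep) :
    ‖curve (Rad a) ep em x‖ < Rad a := by
  rw [h.curve_pos hx hx'.le]
  exact h.hp.lt_tau h.ha hx hx'

lemma Cert.norm_curve_le (h : Cert a ep em) {x : ℝ} (hx : - tau a em ≤ x) (hx' : x ≤ tau a ep) :
    ‖curve (Rad a) ep em x‖ ≤ Rad a := by
  rcases le_total 0 x with h0 | h0
  · exact h.norm_curve_le_of_pos h0 hx'
  · have := h.symm.norm_curve_le_of_pos (x := -x) (by linarith) (by linarith)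
    rwa [curve_neg] at this

lemma Cert.norm_curve_lt (h : Cert a ep em) {x : ℝ} (hx : - tau a em < x) (hx' : x < tau a ep) :
    ‖curve (Rad a) ep em x‖ < Rad a := by
  rcases le_total 0 x with h0 | h0
  · exact h.norm_curve_lt_of_pos h0 hx'
  · have := h.symm.norm_curve_lt_of_pos (x := -x) (by linarith) (by linarith)
    rwa [curve_neg] at this

/-- the curve is proper -/
lemma Cert.proper (h : Cert a ep em) :
    Tendsto (fun t => ‖curve (Rad a) ep em t‖) (cocompact ℝ) atTop := by
  have hle : ∀ t, |t| - (1100 * a) ≤ ‖curve (Rad a) ep em t‖ := by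
    intro t
    have hR := Rad_pos h.ha
    have t1 := h.hp.tau_le h.ha
    have t2 := h.hm.tau_le h.ha
    rcases le_total 0 t with h0 | h0
    · rw [abs_of_nonneg h0]
      rcases le_total (tau a ep) t with h1 | h1
      · rw [h.norm_curve_ray h1]; linarith
      · have := norm_nonneg (curve (Rad a) ep em t); linarith
    · rw [abs_of_nonpos h0]
      rcases le_total (tau a em) (-t) with h1 | h1
      · have := h.norm_curve_ray_neg h1
        rw [neg_neg] at this
        rw [this]; linarith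
      · have := norm_nonneg (curve (Rad a) ep em t); linarith
  refine tendsto_atTop_mono hle ?_
  refine tendsto_atTop_add_const_right _ _ ?_
  exact tendsto_norm_cocompact_atTop

/-- injectivity of the long curve from injectivity of the part inside the ball -/
lemma Cert.injective (h : Cert a ep em)
    (hinj : InjOn (curve (Rad a) ep em) (Icc (- tau a em) (tau a ep))) :
    Function.Injective (curve (Rad a) ep em) := by
  have hR := Rad_pos h.ha
  have tp := h.hp.tau_mem h.ha
  have tm := h.hm.tau_mem h.ha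
  have t1 := h.hp.tau_ge h.ha
  have t2 := h.hm.tau_ge h.ha
  have ha' : (1:ℝ) ≤ a := by exact_mod_cast h.ha
  -- ordered version
  have key : ∀ x y, x < y → curve (Rad a) ep em x ≠ curve (Rad a) ep em y := by
    intro x y hxy heq
    rcases le_or_gt y (tau a ep) with hy | hy
    · rcases le_or_gt (- tau a em) x with hx | hx
      · exact hxy.ne (hinj ⟨hx, hxy.le.trans hy⟩ ⟨hx.trans hxy.le, hy⟩ heq)
      · -- x on the negative ray
        have n1 := h.norm_curve_ray_neg (x := -x) (by linarith)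
        rw [neg_neg] at n1
        rcases le_or_gt (- tau a em) y with hy2 | hy2
        · have n2 := h.norm_curve_le hy2 hy
          rw [← heq, n1] at n2
          linarith
        · have n2 := h.norm_curve_ray_neg (x := -y) (by linarith)
          rw [neg_neg, ← heq, n1] at n2
          linarith
    · have n1 := h.norm_curve_ray hy.le
      rcases le_or_gt (tau a ep) x with hx | hx
      · have n2 := h.norm_curve_ray hx
        rw [heq, n1] at n2
        linarith
      · rcases le_or_gt (- tau a em) x with hx2 | hx2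
        · have n2 := h.norm_curve_le hx2 hx.le
          rw [heq, n1] at n2
          linarith
        · have n2 := h.norm_curve_ray_neg (x := -x) (by linarith)
          rw [neg_neg, heq, n1] at n2
          -- same norm, hence the rays coincide
          have e1 := h.curve_pos_ray hy.le
          have e2 := h.symm.curve_pos_ray (x := -x) (by linarith)
          rw [← curve_neg, neg_neg, heq, e1, n2] at e2
          have hpos : Rad a + (-x - tau a em) ≠ 0 := by
            have : 0 < Rad a + (-x - tau a em) := by linarith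
            exact this.ne'
          have e3 : ray a ep = ray a em := smul_right_injective E3 hpos e2
          have e4 : curve (Rad a) ep em (tau a ep) = curve (Rad a) ep em (- tau a em) := by
            rw [curve_neg, h.curve_pos_ray le_rfl, h.symm.curve_pos_ray le_rfl, e3]
            simp
          have := hinj ⟨by linarith, le_rfl⟩ ⟨le_rfl, by linarith⟩ e4
          linarith
  intro x y hxy
  rcases lt_trichotomy x y with hlt | heq | hgt
  · exact (key x y hlt hxy).elim
  · exact heq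
  · exact (key y x hgt hxy.symm).elim

end MPeb2336

end

/-! ### nearby long curves are carried to each other by homeomorphisms -/

section

open Set Filter Topology MeasureTheory

namespace MPeb2336

lemma integral_bound {f : ℝ → E3} {J : Set ℝ} (hJ : MeasurableSet J)
    {m κ β : ℝ} (hm : 0 ≤ m) (hJm : volume J ≤ ENNReal.ofReal m) (hβ : 0 ≤ β)
    (h1 : ∀ u, u ∉ J → ‖f u‖ ≤ κ) (h2 : ∀ u, ‖f u‖ ≤ κ + β) {x y : ℝ} (hyx : y ≤ x) :
    ‖∫ u in y..x, f u‖ ≤ κ * (x - y) + β * m := by
  have hfin : volume J ≠ ⊤ := (lt_of_le_of_lt hJm ENNReal.ofReal_lt_top).ne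
  have hg : IntervalIntegrable (fun u => κ + J.indicator (fun _ => β) u) volume y x := by
    refine intervalIntegrable_const.add ?_
    have : Integrable (J.indicator (fun _ => β)) volume :=
      (integrable_indicator_iff hJ).2 (integrableOn_const hfin)
    exact this.intervalIntegrable
  have hb := intervalIntegral.norm_integral_le_of_norm_le (μ := volume) (f := f) hyx
    (g := fun u => κ + J.indicator (fun _ => β) u)
    (ae_of_all _ fun u _ => by
      by_cases hu : u ∈ J
      · simpa [indicator_of_mem hu] using h2 u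
      · simpa [indicator_of_notMem hu] using h1 u hu) hg
  refine hb.trans ?_
  have hi : IntervalIntegrable (fun u => J.indicator (fun _ => β) u) volume y x := by
    have : Integrable (J.indicator (fun _ => β)) volume :=
      (integrable_indicator_iff hJ).2 (integrableOn_const hfin)
    exact this.intervalIntegrable
  rw [intervalIntegral.integral_add intervalIntegrable_const hi, intervalIntegral.integral_const]
  have e1 : ∫ u in y..x, J.indicator (fun _ => β) u ≤ β * m := by
    rw [intervalIntegral.integral_of_le hyx, setIntegral_indicator hJ, setIntegral_const]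
    rw [smul_eq_mul, mul_comm]
    refine mul_le_mul_of_nonneg_left ?_ hβ
    refine (measureReal_mono (μ := volume) inter_subset_right hfin).trans ?_
    exact ENNReal.toReal_le_of_le_ofReal hm hJm
  have e2 : (x - y) • κ = κ * (x - y) := by rw [smul_eq_mul, mul_comm]
  rw [e2]
  linarith

lemma unit_sep {p q : E3} (hp : ‖p‖ = 1) (hq : ‖q‖ = 1) {X Y : ℝ} :
    ‖p - q‖ / 2 * (X + Y) ≤ ‖X • p - Y • q‖ := by
  have h1 : ‖X • p - Y • q‖^2 = X^2 - 2 * (X * Y * inner ℝ p q) + Y^2 := by
    rw [norm_sub_sq_real, norm_smul, norm_smul, hp, hq, Real.norm_eq_abs, Real.norm_eq_abs,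
      inner_smul_left, inner_smul_right]
    simp only [conj_trivial, mul_one, sq_abs]
    ring
  have h2 : ‖p - q‖^2 = 2 - 2 * inner ℝ p q := by
    rw [norm_sub_sq_real, hp, hq]; ring
  have h3 : -1 ≤ inner ℝ p q := by
    have := (abs_le.1 (abs_real_inner_le_norm p q)).1
    rw [hp, hq] at this; linarith
  have h4 : (‖p - q‖ / 2 * (X + Y))^2 ≤ ‖X • p - Y • q‖^2 := by
    rw [mul_pow, div_pow, h2, h1]
    nlinarith [mul_nonneg (by linarith : 0 ≤ 1 + inner ℝ p q) (sq_nonneg (X - Y))]
  exact (abs_le_of_sq_le_sq' h4 (norm_nonneg _)).2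

variable {a : ℕ} {ep em : ℕ → E3}

lemma Cert.far_lb (h : Cert a ep em) (hray : ray a ep ≠ ray a em) :
    ∃ c : ℝ, 0 < c ∧ ∀ x y, 4400 * (a:ℝ) ≤ x →
      c * |x - y| ≤ ‖curve (Rad a) ep em x - curve (Rad a) ep em y‖ := by
  have ha' : (1:ℝ) ≤ a := by exact_mod_cast h.ha
  have hR := Rad_pos h.ha
  have tp := h.hp.tau_mem h.ha
  have tm := h.hm.tau_mem h.ha
  have t1 := h.hp.tau_ge h.ha
  have t2 := h.hm.tau_ge h.ha
  have t3 := h.hp.tau_le h.ha
  have t4 := h.hm.tau_le h.ha
  have hκ : 0 < ‖ray a ep - ray a em‖ := norm_pos_iff.2 (sub_ne_zero.2 hray)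
  refine ⟨min (1/2) (‖ray a ep - ray a em‖ / 4), by positivity, fun x y hx => ?_⟩
  have hxt : tau a ep ≤ x := by linarith
  rcases le_or_gt (tau a ep) y with hy | hy
  · -- same ray
    rw [h.curve_pos_ray hxt, h.curve_pos_ray hy, ← sub_smul, norm_smul, h.hp.norm_ray h.ha,
      Real.norm_eq_abs, mul_one]
    have e1 : Rad a + (x - tau a ep) - (Rad a + (y - tau a ep)) = x - y := by ring
    rw [e1]
    have : min (1/2) (‖ray a ep - ray a em‖ / 4) ≤ 1 := (min_le_left _ _).trans (by norm_num)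
    nlinarith [abs_nonneg (x - y)]
  rcases le_or_gt (- tau a em) y with hy2 | hy2
  · have n1 := h.norm_curve_ray hxt
    have n2 := h.norm_curve_le hy2 hy.le
    have n3 := norm_sub_norm_le (curve (Rad a) ep em x) (curve (Rad a) ep em y)
    have : |x - y| ≤ x + 1100 * a := by rw [abs_le]; constructor <;> linarith
    have h5 : min (1/2) (‖ray a ep - ray a em‖ / 4) ≤ 1/2 := min_le_left _ _
    nlinarith [abs_nonneg (x - y)]
  · have e1 := h.curve_pos_ray hxt
    have e2 := h.symm.curve_pos_ray (x := -y) (by linarith)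
    rw [← curve_neg, neg_neg] at e2
    have n1 := unit_sep (h.hp.norm_ray h.ha) (h.hm.norm_ray h.ha) (X := Rad a + (x - tau a ep))
      (Y := Rad a + (-y - tau a em))
    rw [e1, e2]
    refine le_trans ?_ n1
    rw [abs_of_nonneg (by linarith)]
    have h5 : min (1/2) (‖ray a ep - ray a em‖ / 4) ≤ ‖ray a ep - ray a em‖ / 4 := min_le_right _ _
    have h6 : (x - y) ≤ 2 * (Rad a + (x - tau a ep) + (Rad a + (-y - tau a em))) := by
      unfold Rad; linarith
    have h7 : 0 ≤ x - y := by linarith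
    calc min (1/2) (‖ray a ep - ray a em‖ / 4) * (x - y) ≤ ‖ray a ep - ray a em‖ / 4 * (x - y) := by
          gcongr
      _ ≤ ‖ray a ep - ray a em‖ / 4 * (2 * (Rad a + (x - tau a ep) + (Rad a + (-y - tau a em)))) := by
          gcongr
      _ = _ := by ring

lemma Cert.ray_ne (h : Cert a ep em) (hinj : Function.Injective (curve (Rad a) ep em)) :
    ray a ep ≠ ray a em := by
  intro heq
  have t1 := h.hp.tau_ge h.ha
  have t2 := h.hm.tau_ge h.ha
  have ha' : (1:ℝ) ≤ a := by exact_mod_cast h.ha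
  have e4 : curve (Rad a) ep em (tau a ep) = curve (Rad a) ep em (- tau a em) := by
    rw [curve_neg, h.curve_pos_ray le_rfl, h.symm.curve_pos_ray le_rfl, heq]
    simp
  have := hinj e4
  linarith

/-- an injective long curve is globally bi-Lipschitz -/
lemma Cert.global_lb (h : Cert a ep em) (hinj : Function.Injective (curve (Rad a) ep em)) :
    ∃ c : ℝ, 0 < c ∧ ∀ x y, 1 ≤ |x - y| →
      c * |x - y| ≤ ‖curve (Rad a) ep em x - curve (Rad a) ep em y‖ := by
  have ha' : (1:ℝ) ≤ a := by exact_mod_cast h.ha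
  obtain ⟨c1, hc1, H1⟩ := h.far_lb (h.ray_ne hinj)
  obtain ⟨c2, hc2, H2⟩ := h.symm.far_lb (h.ray_ne hinj).symm
  -- compact part
  set T : ℝ := 4400 * a with hT
  let Q : Set (ℝ × ℝ) := (Icc (-T) T ×ˢ Icc (-T) T) ∩ {p | 1 ≤ |p.1 - p.2|}
  have hQc : IsCompact Q := (isCompact_Icc.prod isCompact_Icc).inter_right
    (isClosed_le continuous_const (by fun_prop))
  have hQne : Q.Nonempty := ⟨(1, 0), by
    refine ⟨⟨⟨?_, ?_⟩, ⟨?_, ?_⟩⟩, ?_⟩ <;> simp [hT] <;> linarith⟩
  have hcont : Continuous fun p : ℝ × ℝ =>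
      ‖curve (Rad a) ep em p.1 - curve (Rad a) ep em p.2‖ := by
    have := h.curve_continuous
    fun_prop
  obtain ⟨p0, hp0, hmin⟩ := hQc.exists_isMinOn hQne hcont.continuousOn
  set δ := ‖curve (Rad a) ep em p0.1 - curve (Rad a) ep em p0.2‖ with hδ
  have hδpos : 0 < δ := by
    rw [hδ, norm_pos_iff, sub_ne_zero]
    intro heq
    have := hinj heq
    have h2 : 1 ≤ |p0.1 - p0.2| := hp0.2
    rw [this, sub_self, abs_zero] at h2
    linarith
  have hTpos : 0 < T := by rw [hT]; linarith
  refine ⟨min (min c1 c2) (δ / (2 * T)), by positivity, fun x y hxy => ?_⟩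
  have m1 : min (min c1 c2) (δ / (2 * T)) ≤ c1 := (min_le_left _ _).trans (min_le_left _ _)
  have m2 : min (min c1 c2) (δ / (2 * T)) ≤ c2 := (min_le_left _ _).trans (min_le_right _ _)
  have m3 : min (min c1 c2) (δ / (2 * T)) ≤ δ / (2 * T) := min_le_right _ _
  have hab := abs_nonneg (x - y)
  by_cases hx : T ≤ x
  · exact (mul_le_mul_of_nonneg_right m1 hab).trans (H1 x y hx)
  by_cases hx2 : T ≤ -x
  · have := H2 (-x) (-y) hx2
    rw [curve_neg, curve_neg] at this
    have e : |-x - -y| = |x - y| := by rw [show -x - -y = -(x - y) by ring, abs_neg]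
    rw [e] at this
    exact (mul_le_mul_of_nonneg_right m2 hab).trans this
  by_cases hy : T ≤ y
  · have := H1 y x hy
    rw [abs_sub_comm, norm_sub_rev] at this
    exact (mul_le_mul_of_nonneg_right m1 hab).trans this
  by_cases hy2 : T ≤ -y
  · have := H2 (-y) (-x) hy2
    rw [curve_neg, curve_neg] at this
    have e : |-y - -x| = |x - y| := by rw [show -y - -x = x - y by ring]
    rw [e, norm_sub_rev] at this
    exact (mul_le_mul_of_nonneg_right m2 hab).trans this
  rw [not_le] at hx hx2 hy hy2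
  have hmem : (x, y) ∈ Q := ⟨⟨⟨by linarith, hx.le⟩, ⟨by linarith, hy.le⟩⟩, hxy⟩
  have h1 : δ ≤ ‖curve (Rad a) ep em x - curve (Rad a) ep em y‖ := by
    have := isMinOn_iff.1 hmin (x, y) hmem
    exact this
  have h2 : |x - y| ≤ 2 * T := by rw [abs_le]; constructor <;> linarith
  calc min (min c1 c2) (δ / (2 * T)) * |x - y| ≤ δ / (2 * T) * (2 * T) := by gcongr
    _ = δ := by field_simp
    _ ≤ _ := h1

end MPeb2336

end

/-! ### closeness of long curves -/

section

open Set Filter Topology MeasureTheory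

namespace MPeb2336

section half
variable {a : ℕ} {e e' : ℕ → E3} {η : ℝ}

lemma half_close (h : HalfCert a e) (h' : HalfCert a e') (hη : ∀ k, ‖e' k - e k‖ ≤ η) {s : ℝ}
    (hs : 0 ≤ s) : ‖half e' s - half e s‖ ≤ η * s := by
  unfold half
  rw [← intervalIntegral.integral_sub (h'.step_ii _ _) (h.step_ii _ _)]
  have := intervalIntegral.norm_integral_le_of_norm_le_const (a := 0) (b := s) (C := η)
    (f := fun u => e' ⌊u⌋₊ - e ⌊u⌋₊) (fun _ _ => hη _)
  rwa [sub_zero, abs_of_nonneg hs] at this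

lemma tau_close_aux (ha : 1 ≤ a) (h : HalfCert a e) (h' : HalfCert a e')
    (hη : ∀ k, ‖e' k - e k‖ ≤ η) (hle : tau a e ≤ tau a e') :
    tau a e' - tau a e ≤ 1300 * a * η := by
  have ha' : (1:ℝ) ≤ a := by exact_mod_cast ha
  have hη0 : 0 ≤ η := (norm_nonneg _).trans (hη 0)
  have t1 := h.tau_ge ha
  have t2 := h.tau_le ha
  have h1 := h'.radial (s := tau a e') (t := tau a e) ha (by linarith) hle
  rw [h'.norm_tau ha, ← h.norm_tau ha] at h1
  have h2 := half_close h h' hη (s := tau a e) (by linarith)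
  have h3 := norm_sub_norm_le (half e (tau a e)) (half e' (tau a e))
  rw [norm_sub_rev] at h3
  have h4 : η * tau a e ≤ η * (1100 * a) := by gcongr
  have h5 : 0 ≤ (a:ℝ) * η := by positivity
  linarith

lemma tau_close (ha : 1 ≤ a) (h : HalfCert a e) (h' : HalfCert a e')
    (hη : ∀ k, ‖e' k - e k‖ ≤ η) :
    |tau a e' - tau a e| ≤ 1300 * a * η := by
  have hη' : ∀ k, ‖e k - e' k‖ ≤ η := fun k => by rw [norm_sub_rev]; exact hη k
  rcases le_total (tau a e) (tau a e') with hle | hle
  · rw [abs_of_nonneg (by linarith)]; exact tau_close_aux ha h h' hη hle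
  · rw [abs_of_nonpos (by linarith), neg_sub]; exact tau_close_aux ha h' h hη' hle

lemma ray_close (ha : 1 ≤ a) (h : HalfCert a e) (h' : HalfCert a e')
    (hη : ∀ k, ‖e' k - e k‖ ≤ η) : ‖ray a e' - ray a e‖ ≤ 3 * η := by
  have ha' : (1:ℝ) ≤ a := by exact_mod_cast ha
  have hη0 : 0 ≤ η := (norm_nonneg _).trans (hη 0)
  have hR := Rad_pos ha
  have t1 := h.tau_ge ha
  have t2 := h.tau_le ha
  have e1 : ray a e' - ray a e = (1 / Rad a) •
      ((half e' (tau a e') - half e' (tau a e)) + (half e' (tau a e) - half e (tau a e))) := by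
    unfold ray
    rw [← smul_sub]; congr 1; abel
  rw [e1, norm_smul, Real.norm_eq_abs, abs_of_pos (by positivity), one_div, inv_mul_le_iff₀ hR]
  have h1 := h'.half_lip (tau a e') (tau a e)
  have h2 := half_close h h' hη (s := tau a e) (by linarith)
  have h3 := tau_close ha h h' hη
  have h4 : η * tau a e ≤ η * (1100 * a) := by gcongr
  have h5 : 0 ≤ (a:ℝ) * η := by positivity
  refine (norm_add_le _ _).trans ?_
  unfold Rad
  nlinarith

/-- the exceptional interval between the two exit times -/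
def excep (a : ℕ) (e e' : ℕ → E3) : Set ℝ :=
  Icc (min (tau a e) (tau a e')) (max (tau a e) (tau a e'))

lemma vel_close_out (ha : 1 ≤ a) (h : HalfCert a e) (h' : HalfCert a e')
    (hη : ∀ k, ‖e' k - e k‖ ≤ η) {u : ℝ} (hu : u ∉ excep a e e') :
    ‖vel (Rad a) e' u - vel (Rad a) e u‖ ≤ 3 * η := by
  have hη0 : 0 ≤ η := (norm_nonneg _).trans (hη 0)
  unfold excep at hu
  rw [mem_Icc, not_and_or, not_le, not_le, lt_min_iff, max_lt_iff] at hu
  rcases hu with ⟨h1, h2⟩ | ⟨h1, h2⟩
  · rw [vel_of_lt h1, vel_of_lt h2]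
    linarith [hη ⌊u⌋₊]
  · rw [vel_of_ge h1.le, vel_of_ge h2.le]
    exact ray_close ha h h' hη

lemma vel_close_all (ha : 1 ≤ a) (h : HalfCert a e) (h' : HalfCert a e')
    (hη : ∀ k, ‖e' k - e k‖ ≤ η) (u : ℝ) :
    ‖vel (Rad a) e' u - vel (Rad a) e u‖ ≤ 3 * η + 1/50 := by
  have hη0 : 0 ≤ η := (norm_nonneg _).trans (hη 0)
  have ha' : (1:ℝ) ≤ a := by exact_mod_cast ha
  by_cases hu : u ∈ excep a e e'
  · have t1 := h.tau_ge ha
    have t2 := h'.tau_ge ha
    have hau : (a:ℝ) ≤ u := by
      have : (a:ℝ) ≤ min (tau a e) (tau a e') := le_min (by linarith) (by linarith)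
      exact this.trans hu.1
    have h1 := h.vel_near ha hau
    have h2 := h'.vel_near ha hau
    have e1 : vel (Rad a) e' u - vel (Rad a) e u = (vel (Rad a) e' u - e' a) + (e' a - e a)
        - (vel (Rad a) e u - e a) := by abel
    rw [e1]
    refine (norm_sub_le _ _).trans ?_
    have := norm_add_le (vel (Rad a) e' u - e' a) (e' a - e a)
    linarith [hη a]
  · linarith [vel_close_out ha h h' hη hu]

lemma volume_excep (ha : 1 ≤ a) (h : HalfCert a e) (h' : HalfCert a e')
    (hη : ∀ k, ‖e' k - e k‖ ≤ η) : volume (excep a e e') ≤ ENNReal.ofReal (1300 * a * η) := by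
  unfold excep
  rw [Real.volume_Icc, max_sub_min_eq_abs']
  refine ENNReal.ofReal_le_ofReal ?_
  rw [abs_sub_comm]
  exact tau_close ha h h' hη

end half

variable {a : ℕ} {ep em ep' em' : ℕ → E3}

/-- **Local constancy**: nearby certified long curves are carried to each other by a
homeomorphism of `ℝ³`. -/
theorem Cert.homeo_of_near (h : Cert a ep em)
    (hinj : Function.Injective (curve (Rad a) ep em)) :
    ∃ η : ℝ, 0 < η ∧ ∀ ep' em' : ℕ → E3, Cert a ep' em' → (∀ k, ‖ep' k - ep k‖ ≤ η) →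
      (∀ k, ‖em' k - em k‖ ≤ η) →
      ∃ Φ : E3 ≃ₜ E3, ∀ x, Φ (curve (Rad a) ep em x) = curve (Rad a) ep' em' x := by
  obtain ⟨c, hc, hlb⟩ := h.global_lb hinj
  have ha' : (1:ℝ) ≤ a := by exact_mod_cast h.ha
  set η : ℝ := min (1/100) (c / (4 * (3 + 60 * a))) with hη
  have hη0 : 0 < η := by positivity
  have hη1 : η ≤ 1/100 := min_le_left _ _
  have hη2 : (3 + 60 * a) * η ≤ c / 4 := by
    have : η ≤ c / (4 * (3 + 60 * a)) := min_le_right _ _
    calc (3 + 60 * a) * η ≤ (3 + 60 * a) * (c / (4 * (3 + 60 * a))) := by gcongr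
      _ = c / 4 := by field_simp
  refine ⟨η, hη0, fun ep' em' h' hp hm => ?_⟩
  refine exists_homeo_of_close _ _ fun x y => ?_
  set J : Set ℝ := excep a ep ep' ∪ (fun u => -u) ⁻¹' (excep a em em') with hJdef
  have hJ : MeasurableSet J :=
    measurableSet_Icc.union (measurable_neg measurableSet_Icc)
  have hvJ : volume J ≤ ENNReal.ofReal (2600 * a * η) := by
    refine (measure_union_le _ _).trans ?_
    have e1 : volume ((fun u : ℝ => -u) ⁻¹' (excep a em em')) = volume (excep a em em') := by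
      exact Measure.measure_preimage_neg volume _
    rw [e1]
    have e2 : ENNReal.ofReal (2600 * a * η) = ENNReal.ofReal (1300 * a * η) +
        ENNReal.ofReal (1300 * a * η) := by
      rw [← ENNReal.ofReal_add (by positivity) (by positivity)]; congr 1; ring
    rw [e2]
    exact add_le_add (volume_excep h.ha h.hp h'.hp hp) (volume_excep h.ha h.hm h'.hm hm)
  let f : ℝ → E3 := fun u => vel2 (Rad a) ep' em' u - vel2 (Rad a) ep em u
  have f1 : ∀ u, u ∉ J → ‖f u‖ ≤ 3 * η := by
    intro u hu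
    have hu1 : u ∉ excep a ep ep' := fun hh => hu (Or.inl hh)
    have hu2 : -u ∉ excep a em em' := fun hh => hu (Or.inr hh)
    simp only [f, vel2]
    split_ifs
    · exact vel_close_out h.ha h.hp h'.hp hp hu1
    · rw [neg_sub_neg, norm_sub_rev]
      exact vel_close_out h.ha h.hm h'.hm hm hu2
  have f2 : ∀ u, ‖f u‖ ≤ 3 * η + 1/50 := by
    intro u
    simp only [f, vel2]
    split_ifs
    · exact vel_close_all h.ha h.hp h'.hp hp _
    · rw [neg_sub_neg, norm_sub_rev]
      exact vel_close_all h.ha h.hm h'.hm hm _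
  have hdiff : ∀ x y, (curve (Rad a) ep' em' x - curve (Rad a) ep em x) -
      (curve (Rad a) ep' em' y - curve (Rad a) ep em y) = ∫ u in y..x, f u := by
    intro x y
    simp only [f]
    rw [intervalIntegral.integral_sub (h'.ii _ _) (h.ii _ _), ← h'.curve_sub, ← h.curve_sub]
    abel
  rcases le_or_gt |x - y| 1 with hxy | hxy
  · rw [hdiff]
    have h1 := intervalIntegral.norm_integral_le_of_norm_le_const (a := y) (b := x)
      (C := 3 * η + 1/50) (f := f) (fun u _ => f2 u)
    have h2 := h.local_lb hxy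
    have h3 : (3 * η + 1/50) * |x - y| ≤ 1/8 * |x - y| := by
      gcongr; linarith
    linarith
  · have h2 := hlb x y hxy.le
    have main : ‖∫ u in y..x, f u‖ ≤ c/4 * |x - y| := by
      wlog hle : y ≤ x generalizing x y
      · rw [intervalIntegral.integral_symm, norm_neg, abs_sub_comm]
        refine this y x (by rwa [abs_sub_comm]) ?_ (le_of_not_ge hle)
        rw [abs_sub_comm, norm_sub_rev]; exact h2
      rw [abs_of_nonneg (sub_nonneg.2 hle)] at hxy ⊢
      have h1 := integral_bound hJ (by positivity) hvJ (by norm_num) f1 f2 hle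
      have h3 : 1/50 * (2600 * (a:ℝ) * η) ≤ 57 * a * η * (x - y) := by
        have : 0 ≤ (a:ℝ) * η := by positivity
        nlinarith
      have h4 : (3 + 60 * a) * η * (x - y) ≤ c/4 * (x - y) :=
        mul_le_mul_of_nonneg_right hη2 (by linarith)
      have h5 : 0 ≤ (a:ℝ) * η * (x - y) := by
        have : 0 ≤ x - y := by linarith
        positivity
      nlinarith
    rw [hdiff]
    linarith

end MPeb2336

end

/-! ### the complement group is invariant along a motion -/

section

open Set Filter Topology MeasureTheory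

namespace MPeb2336

theorem commCompl_of_range_eq {F G : ℝ → E3} (Φ : E3 ≃ₜ E3) (h : ∀ x, Φ (F x) = G x) :
    CommCompl (range F) ↔ CommCompl (range G) := by
  have h1 : Φ '' range F = range G := by
    rw [← range_comp]; congr 1; ext1 x; exact h x
  have h2 : Φ.symm '' range G = range F := by
    rw [← h1, ← image_comp]; simp
  exact ⟨commCompl_of_homeo Φ h1, commCompl_of_homeo Φ.symm h2⟩

/-- invariance along a motion -/
theorem invariance {a m : ℕ} {ep em : ℝ → ℕ → E3}
    (hcert : ∀ t ∈ Icc (0:ℝ) 1, Cert a (ep t) (em t))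
    (hinj : ∀ t ∈ Icc (0:ℝ) 1, Function.Injective (curve (Rad a) (ep t) (em t)))
    (hcp : ∀ k, ContinuousOn (fun t => ep t k) (Icc 0 1))
    (hcm : ∀ k, ContinuousOn (fun t => em t k) (Icc 0 1))
    (htp : ∀ t k, m ≤ k → ep t k = ep t m)
    (htm : ∀ t k, m ≤ k → em t k = em t m) :
    CommCompl (range (curve (Rad a) (ep 0) (em 0))) ↔
      CommCompl (range (curve (Rad a) (ep 1) (em 1))) := by
  let g : ↥(Icc (0:ℝ) 1) → Prop := fun t =>
    CommCompl (range (curve (Rad a) (ep t) (em t)))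
  have hg : IsLocallyConstant g := by
    rw [IsLocallyConstant.iff_eventually_eq]
    intro t0
    obtain ⟨η, hη, H⟩ := (hcert t0 t0.2).homeo_of_near (hinj t0 t0.2)
    have key : ∀ (e : ℝ → ℕ → E3), (∀ k, ContinuousOn (fun t => e t k) (Icc 0 1)) →
        (∀ t k, m ≤ k → e t k = e t m) →
        ∀ᶠ t : ↥(Icc (0:ℝ) 1) in 𝓝 t0, ∀ k, ‖e t k - e t0 k‖ ≤ η := by
      intro e hce hte
      have h1 : ∀ᶠ t : ↥(Icc (0:ℝ) 1) in 𝓝 t0, ∀ k ∈ Finset.range (m + 1),
          ‖e t k - e t0 k‖ ≤ η := by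
        rw [Filter.eventually_all_finset]
        intro k _
        have hc : Continuous (fun t : ↥(Icc (0:ℝ) 1) => e t k) :=
          continuousOn_iff_continuous_domRestrict.1 (hce k)
        have ht : Tendsto (fun t : ↥(Icc (0:ℝ) 1) => ‖e t k - e t0 k‖) (𝓝 t0) (𝓝 0) := by
          have : Continuous (fun t : ↥(Icc (0:ℝ) 1) => ‖e t k - e t0 k‖) :=
            (hc.sub continuous_const).norm
          have h2 := this.tendsto t0
          simpa using h2
        exact (ht.eventually (gt_mem_nhds hη)).mono fun t ht => ht.le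
      filter_upwards [h1] with t ht k
      rcases le_or_gt m k with hk | hk
      · rw [hte t k hk, hte t0 k hk]
        exact ht m (by simp)
      · exact ht k (by simp; omega)
    filter_upwards [key ep hcp htp, key em hcm htm] with t h1 h2
    obtain ⟨Φ, hΦ⟩ := H (ep t) (em t) (hcert t t.2) h1 h2
    exact propext (commCompl_of_range_eq Φ hΦ).symm
  have h01 := hg.apply_eq_of_preconnectedSpace (⟨0, by simp⟩ : ↥(Icc (0:ℝ) 1)) ⟨1, by simp⟩
  exact iff_of_eq h01

end MPeb2336

end

/-! ### from configurations of chains to long curves -/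

section

open Set Filter Topology MeasureTheory InnerProductGeometry

namespace MPeb2336

/-- unit vectors are at distance at most their angle -/
lemma unit_dist_le_angle {x y : E3} (hx : x ≠ 0) (hy : y ≠ 0) :
    ‖‖x‖⁻¹ • x - ‖y‖⁻¹ • y‖ ≤ angle x y := by
  have hx' : 0 < ‖x‖ := norm_pos_iff.2 hx
  have hy' : 0 < ‖y‖ := norm_pos_iff.2 hy
  have h1 : ‖‖x‖⁻¹ • x - ‖y‖⁻¹ • y‖^2 = 2 - 2 * Real.cos (angle x y) := by
    rw [norm_sub_sq_real, norm_smul, norm_smul, norm_inv, norm_inv, norm_norm, norm_norm,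
      inv_mul_cancel₀ hx'.ne', inv_mul_cancel₀ hy'.ne', inner_smul_left, inner_smul_right,
      cos_angle]
    simp only [conj_trivial]
    field_simp
    ring
  have h2 := Real.one_sub_sq_div_two_le_cos (x := angle x y)
  have h3 : ‖‖x‖⁻¹ • x - ‖y‖⁻¹ • y‖^2 ≤ (angle x y)^2 := by rw [h1]; linarith
  exact (abs_le_of_sq_le_sq' h3 (angle_nonneg x y)).2

lemma inner_nonneg_of_angle {x y : E3} (h : angle x y ≤ Real.pi / 2) : 0 ≤ inner ℝ x y := by
  rw [← cos_angle_mul_norm_mul_norm]
  have := Real.cos_nonneg_of_neg_pi_div_two_le_of_le (x := angle x y)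
    (by linarith [angle_nonneg x y, Real.pi_pos]) h
  positivity

/-- a half chain satisfying the certificate -/
lemma halfCert_of {a m : ℕ} (ham : a < m) {f : ℕ → E3}
    (hlen : ∀ k < m, 1 ≤ ‖f k‖ ∧ ‖f k‖ ≤ 1 + 1/10000)
    (hturn : ∀ k, k + 1 < m → angle (f k) (f (k + 1)) ≤ Real.pi / 2)
    (hneedle : ∑ k ∈ Finset.Ico a (m - 1), angle (f k) (f (k + 1)) ≤ 1/2000) :
    HalfCert a (fun k => f (min k (m - 1))) where
  lb k := (hlen _ (by omega)).1
  ub k := (hlen _ (by omega)).2.trans (by norm_num)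
  turn k := by
    rcases lt_or_ge (k + 1) m with hk | hk
    · have e1 : min k (m - 1) = k := by omega
      have e2 : min (k + 1) (m - 1) = k + 1 := by omega
      simp only [e1, e2]
      exact inner_nonneg_of_angle (hturn k hk)
    · have e1 : min k (m - 1) = m - 1 := by omega
      have e2 : min (k + 1) (m - 1) = m - 1 := by omega
      simp only [e1, e2]
      exact real_inner_self_nonneg
  needle k hk := by
    have e0 : min a (m - 1) = a := by omega
    simp only [e0]
    set j := min k (m - 1) with hj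
    have hja : a ≤ j := by omega
    have hjm : j < m := by omega
    have hne : ∀ i < m, f i ≠ 0 := fun i hi h0 => by
      have := (hlen i hi).1
      rw [h0, norm_zero] at this
      linarith
    let D : ℕ → E3 := fun i => ‖f i‖⁻¹ • f i
    have h1 : ‖D a - D j‖ ≤ 1/2000 := by
      have h2 := dist_le_Ico_sum_dist D hja
      rw [dist_eq_norm] at h2
      refine h2.trans (le_trans ?_ hneedle)
      calc ∑ i ∈ Finset.Ico a j, dist (D i) (D (i + 1))
          ≤ ∑ i ∈ Finset.Ico a j, angle (f i) (f (i + 1)) := by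
            refine Finset.sum_le_sum fun i hi => ?_
            rw [Finset.mem_Ico] at hi
            rw [dist_eq_norm]
            exact unit_dist_le_angle (hne i (by omega)) (hne (i + 1) (by omega))
        _ ≤ ∑ i ∈ Finset.Ico a (m - 1), angle (f i) (f (i + 1)) := by
            refine Finset.sum_le_sum_of_subset_of_nonneg ?_ fun i _ _ => angle_nonneg _ _
            exact Finset.Ico_subset_Ico le_rfl (by omega)
    have la := hlen a ham
    have lj := hlen j hjm
    have ea : f a = ‖f a‖ • D a := by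
      simp only [D]; rw [smul_smul, mul_inv_cancel₀ (by linarith : ‖f a‖ ≠ 0), one_smul]
    have ej : f j = ‖f j‖ • D j := by
      simp only [D]; rw [smul_smul, mul_inv_cancel₀ (by linarith : ‖f j‖ ≠ 0), one_smul]
    have e1 : f j - f a = (‖f j‖ - ‖f a‖) • D j - ‖f a‖ • (D a - D j) := by
      conv_lhs => rw [ea, ej]
      rw [sub_smul, smul_sub]; abel
    have nD : ‖D j‖ = 1 := by
      simp only [D]; rw [norm_smul, norm_inv, norm_norm, inv_mul_cancel₀ (by linarith : ‖f j‖ ≠ 0)]
    rw [e1]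
    refine (norm_sub_le _ _).trans ?_
    rw [norm_smul _ (D j), norm_smul _ (D a - D j), nD, norm_norm, Real.norm_eq_abs]
    have h3 : |‖f j‖ - ‖f a‖| ≤ 1/10000 := by rw [abs_le]; constructor <;> linarith
    have h4 : ‖f a‖ * ‖D a - D j‖ ≤ (1 + 1/10000) * (1/2000) := by
      gcongr
      exact la.2
    linarith

/-- edge vectors of the right half (constant continuation) -/
def epOf (m : ℕ) (q : ℕ → E3) (k : ℕ) : E3 :=
  q (m + min k (m - 1) + 1) - q (m + min k (m - 1))

/-- edge vectors of the left half (constant continuation) -/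
def emOf (m : ℕ) (q : ℕ → E3) (k : ℕ) : E3 :=
  q (m - 1 - min k (m - 1)) - q (m - min k (m - 1))

/-- The certificate for a chain with `2 m` links, in terms of lengths and angles only. -/
structure ChainCert (a m : ℕ) (ℓ θ : ℕ → ℝ) : Prop where
  ha : 1 ≤ a
  hm : 1100 * a < m
  lb : ∀ i < 2 * m, 1 ≤ ℓ i
  ub : ∀ i < 2 * m, ℓ i ≤ 1 + 1/10000
  turn : ∀ i, 1 ≤ i → i < 2 * m → θ i ≤ Real.pi / 2
  needle_p : ∑ k ∈ Finset.Ico a (m - 1), θ (m + k + 1) ≤ 1/2000
  needle_m : ∑ k ∈ Finset.Ico a (m - 1), θ (m - 1 - k) ≤ 1/2000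

variable {a m : ℕ} {ℓ θ : ℕ → ℝ} {q : ℕ → E3}

lemma edge_ne (hc : ChainCert a m ℓ θ) (hq : IsConfig (2 * m) ℓ θ q) {i : ℕ} (hi : i < 2 * m) :
    q (i + 1) - q i ≠ 0 := by
  intro h0
  have h1 := hq.length i hi
  rw [dist_comm, dist_eq_norm, h0, norm_zero] at h1
  have := hc.lb i hi
  linarith

lemma cert_of_config (hc : ChainCert a m ℓ θ) (hq : IsConfig (2 * m) ℓ θ q) :
    Cert a (epOf m q) (emOf m q) := by
  have ha := hc.ha
  have hm := hc.hm
  refine ⟨ha, ?_, ?_, ?_⟩
  · refine halfCert_of (f := fun k => q (m + k + 1) - q (m + k)) (by omega) ?_ ?_ ?_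
    · intro k hk
      have h1 := hq.length (m + k) (by omega)
      rw [dist_comm, dist_eq_norm] at h1
      rw [h1]
      exact ⟨hc.lb _ (by omega), hc.ub _ (by omega)⟩
    · intro k hk
      have h1 := hq.turn (m + k + 1) (by omega) (by omega)
      have h2 := hc.turn (m + k + 1) (by omega) (by omega)
      rw [← h1] at h2
      exact h2
    · refine le_trans (le_of_eq ?_) hc.needle_p
      refine Finset.sum_congr rfl fun k hk => ?_
      rw [Finset.mem_Ico] at hk
      exact hq.turn (m + k + 1) (by omega) (by omega)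
  · have key : ∀ k, k + 1 < m → angle (q (m - 1 - k) - q (m - k))
        (q (m - 1 - (k + 1)) - q (m - (k + 1))) = θ (m - 1 - k) := by
      intro k hk
      have h1 := hq.turn (m - 1 - k) (by omega) (by omega)
      have e1 : m - 1 - k + 1 = m - k := by omega
      have e2 : m - 1 - (k + 1) = m - 1 - k - 1 := by omega
      have e3 : m - (k + 1) = m - 1 - k := by omega
      rw [e1] at h1
      rw [e2, e3, ← h1, angle_comm, ← angle_neg_neg, neg_sub, neg_sub]
    refine halfCert_of (f := fun k => q (m - 1 - k) - q (m - k)) (by omega) ?_ ?_ ?_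
    · intro k hk
      have h1 := hq.length (m - 1 - k) (by omega)
      have e1 : m - 1 - k + 1 = m - k := by omega
      rw [dist_eq_norm, e1] at h1
      rw [h1]
      exact ⟨hc.lb _ (by omega), hc.ub _ (by omega)⟩
    · intro k hk
      rw [key k hk]
      exact hc.turn _ (by omega) (by omega)
    · refine le_trans (le_of_eq ?_) hc.needle_m
      refine Finset.sum_congr rfl fun k hk => ?_
      rw [Finset.mem_Ico] at hk
      exact key k (by omega)
  · have h1 := hq.turn m (by omega) (by omega)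
    have h2 := hc.turn m (by omega) (by omega)
    rw [← h1] at h2
    have h3 := inner_nonneg_of_angle h2
    have e1 : epOf m q 0 = q (m + 1) - q m := by simp [epOf]
    have e2 : emOf m q 0 = - (q m - q (m - 1)) := by simp [emOf]
    rw [e1, e2, inner_neg_right, real_inner_comm]
    linarith

lemma half_step {e : ℕ → E3} (h : HalfCert a e) (k : ℕ) {s : ℝ} (hs : (k:ℝ) ≤ s)
    (hs' : s ≤ k + 1) : half e s = half e k + (s - k) • e k := by
  have e1 : half e s = half e k + (half e s - half e k) := by abel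
  rw [e1, h.half_sub]
  congr 1
  have e2 : (s - k) • e k = ∫ u in (k:ℝ)..s, e k := by simp
  rw [e2]
  refine intervalIntegral.integral_congr_ae ?_
  filter_upwards [Measure.ae_ne volume ((k:ℝ)+1)] with u hu0 hu
  rw [uIoc_of_le hs] at hu
  have : ⌊u⌋₊ = k := by
    rw [Nat.floor_eq_iff (by linarith [hu.1, Nat.cast_nonneg (α := ℝ) k])]
    exact ⟨hu.1.le, lt_of_le_of_ne (hu.2.trans hs') hu0⟩
  rw [this]

lemma half_ep (h : HalfCert a (epOf m q)) (k : ℕ) (hk : k ≤ m) :
    half (epOf m q) k = q (m + k) - q m := by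
  induction k with
  | zero => simp [half]
  | succ k ih =>
    have h1 := half_step h k (s := (k:ℝ) + 1) (by linarith) le_rfl
    push_cast
    rw [h1, ih (by omega)]
    have e1 : min k (m - 1) = k := by omega
    simp only [epOf, e1]
    rw [add_sub_cancel_left, one_smul, ← add_assoc]
    abel

lemma half_em (h : HalfCert a (emOf m q)) (k : ℕ) (hk : k ≤ m) :
    half (emOf m q) k = q (m - k) - q m := by
  induction k with
  | zero => simp [half]
  | succ k ih =>
    have h1 := half_step h k (s := (k:ℝ) + 1) (by linarith) le_rfl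
    push_cast
    rw [h1, ih (by omega)]
    have e1 : min k (m - 1) = k := by omega
    have e2 : m - 1 - k = m - (k + 1) := by omega
    simp only [emOf, e1, e2]
    rw [add_sub_cancel_left, one_smul]
    abel

/-- the long curve follows the polygonal path -/
lemma curve_eq_poly (h : Cert a (epOf m q) (emOf m q)) {x : ℝ}
    (hx : - tau a (emOf m q) ≤ x) (hx' : x ≤ tau a (epOf m q)) {i : ℕ} (hi : i < 2 * m)
    (h1 : (i:ℝ) ≤ x + m) (h2 : x + m ≤ i + 1) :
    curve (Rad a) (epOf m q) (emOf m q) x + q m = q i + (x + m - i) • (q (i + 1) - q i) := by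
  rcases le_or_gt m i with him | him
  · obtain ⟨k, rfl⟩ := Nat.exists_eq_add_of_le him
    push_cast at h1 h2 ⊢
    have h0 : (0:ℝ) ≤ k := Nat.cast_nonneg k
    rw [h.curve_pos (by linarith) hx', half_step h.hp k (by linarith) (by linarith),
      half_ep h.hp k (by omega)]
    have e1 : min k (m - 1) = k := by omega
    simp only [epOf, e1]
    have e2 : x + m - (m + k) = x - k := by ring
    rw [e2]; abel
  · obtain ⟨k, hkm, rfl⟩ : ∃ k, k < m ∧ i = m - 1 - k := ⟨m - 1 - i, by omega, by omega⟩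
    have e0 : ((m - 1 - k : ℕ) : ℝ) = (m:ℝ) - 1 - k := by
      have : m - 1 - k = m - (k + 1) := by omega
      rw [this, Nat.cast_sub (by omega)]; push_cast; ring
    rw [e0] at h1 h2 ⊢
    have e1 : m - 1 - k + 1 = m - k := by omega
    rw [e1]
    have e3 : curve (Rad a) (epOf m q) (emOf m q) x = half (emOf m q) (-x) := by
      have := h.symm.curve_pos (x := -x) (by linarith [Nat.cast_nonneg (α := ℝ) k]) (by linarith)
      rw [← this, ← curve_neg]
    rw [e3, half_step h.hm k (by linarith) (by linarith), half_em h.hm k (by omega)]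
    have e4 : min k (m - 1) = k := by omega
    simp only [emOf, e4]
    module

lemma mem_seg {x y : E3} {t : ℝ} (h0 : 0 ≤ t) (h1 : t ≤ 1) : x + t • (y - x) ∈ segment ℝ x y := by
  rw [segment_eq_image']
  exact ⟨t, ⟨h0, h1⟩, rfl⟩

/-- the long curve of a configuration is injective -/
lemma injective_of_config (hc : ChainCert a m ℓ θ) (hq : IsConfig (2 * m) ℓ θ q) :
    Function.Injective (curve (Rad a) (epOf m q) (emOf m q)) := by
  have h := cert_of_config hc hq
  have hm := hc.hm
  have ha' : (1:ℝ) ≤ a := by exact_mod_cast hc.ha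
  have hmr : 1100 * (a:ℝ) < m := by exact_mod_cast hm
  have tp := h.hp.tau_le hc.ha
  have tm := h.hm.tau_le hc.ha
  have tp1 := h.hp.tau_ge hc.ha
  have tm1 := h.hm.tau_ge hc.ha
  refine h.injective ?_
  -- ordered version
  have key : ∀ x ∈ Icc (- tau a (emOf m q)) (tau a (epOf m q)),
      ∀ y ∈ Icc (- tau a (emOf m q)) (tau a (epOf m q)), x < y →
      curve (Rad a) (epOf m q) (emOf m q) x ≠ curve (Rad a) (epOf m q) (emOf m q) y := by
    intro x hx y hy hxy heq
    obtain ⟨i, hi1, hi2⟩ : ∃ i : ℕ, (i:ℝ) ≤ x + m ∧ x + m < i + 1 :=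
      ⟨⌊x + m⌋₊, Nat.floor_le (by linarith [hx.1]), Nat.lt_floor_add_one _⟩
    obtain ⟨j, hj1, hj2⟩ : ∃ j : ℕ, (j:ℝ) < y + m ∧ y + m ≤ j + 1 := by
      have hpos : 0 < ⌈y + m⌉₊ := Nat.ceil_pos.2 (by linarith [hy.1])
      refine ⟨⌈y + m⌉₊ - 1, ?_, ?_⟩
      · rw [← Nat.lt_ceil]; omega
      · have := Nat.le_ceil (y + m)
        have e : ((⌈y + m⌉₊ - 1 : ℕ) : ℝ) = (⌈y + m⌉₊ : ℝ) - 1 := by
          rw [Nat.cast_sub (by omega)]; simp
        rw [e]; linarith
    have hij : i ≤ j := by
      have : (i:ℝ) < j + 1 := by linarith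
      have : i < j + 1 := by exact_mod_cast this
      omega
    have hj : j < 2 * m := by
      have : (j:ℝ) < 2 * m := by linarith [hy.2]
      exact_mod_cast this
    have px := curve_eq_poly h hx.1 hx.2 (i := i) (by omega) hi1 hi2.le
    have py := curve_eq_poly h hy.1 hy.2 (i := j) hj hj1.le hj2
    rw [heq] at px
    have pxy := px.symm.trans py
    have sx : q i + (x + m - i) • (q (i + 1) - q i) ∈ segment ℝ (q i) (q (i + 1)) :=
      mem_seg (by linarith) (by linarith)
    have sy : q j + (y + m - j) • (q (j + 1) - q j) ∈ segment ℝ (q j) (q (j + 1)) :=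
      mem_seg (by linarith) (by linarith)
    rcases hij.lt_or_eq with hlt | rfl
    · rcases (Nat.succ_le_of_lt hlt).lt_or_eq with hlt2 | heq2
      · have hd := hq.disjoint i j (by omega) hj
        rw [pxy] at sx
        exact Set.disjoint_left.1 hd sx sy
      · have e1 : j = i + 1 := by omega
        subst e1
        have had := hq.adjacent i hj
        have : q i + (x + m - i) • (q (i + 1) - q i) ∈
            segment ℝ (q i) (q (i + 1)) ∩ segment ℝ (q (i + 1)) (q (i + 2)) :=
          ⟨sx, by rw [pxy]; exact sy⟩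
        rw [had, mem_singleton_iff] at this
        have e2 : (x + m - i - 1) • (q (i + 1) - q i) = 0 := by
          have e3 : (x + m - i - 1) • (q (i + 1) - q i) =
            (q i + (x + m - i) • (q (i + 1) - q i)) - q (i + 1) := by module
          rw [e3, this, sub_self]
        rcases smul_eq_zero.1 e2 with h0 | h0
        · linarith
        · exact edge_ne hc hq (by omega) h0
    · have e2 : (x - y) • (q (i + 1) - q i) = 0 := by
        have e3 : (x - y) • (q (i + 1) - q i) =
            (q i + (x + m - i) • (q (i + 1) - q i)) - (q i + (y + m - i) • (q (i + 1) - q i)) := by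
          module
        rw [e3, pxy, sub_self]
      rcases smul_eq_zero.1 e2 with h0 | h0
      · linarith
      · exact edge_ne hc hq (by omega) h0
  intro x hx y hy hxy
  rcases lt_trichotomy x y with hlt | heq | hgt
  · exact (key x hx y hy hlt hxy).elim
  · exact heq
  · exact (key y hy x hx hgt hxy.symm).elim

/-- a flat configuration gives a flat long curve -/
lemma flat_curve (hc : ChainCert a m ℓ θ) (hq : IsConfig (2 * m) ℓ θ q) (hf : Flat (2 * m) q) :
    ∃ v : E3, v ≠ 0 ∧ ∀ t, inner ℝ v (curve (Rad a) (epOf m q) (emOf m q) t) = (0:ℝ) := by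
  obtain ⟨v, c, hv, hvc⟩ := hf
  have h := cert_of_config hc hq
  have hm := hc.hm
  refine ⟨v, hv, ?_⟩
  have ep0 : ∀ k, inner ℝ v (epOf m q k) = (0:ℝ) := by
    intro k
    simp only [epOf]
    rw [inner_sub_right, hvc _ (by omega), hvc _ (by omega), sub_self]
  have em0 : ∀ k, inner ℝ v (emOf m q k) = (0:ℝ) := by
    intro k
    simp only [emOf]
    rw [inner_sub_right, hvc _ (by omega), hvc _ (by omega), sub_self]
  have hint : ∀ (f : ℝ → E3) (x : ℝ), IntervalIntegrable f volume 0 x →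
      (∀ u, inner ℝ v (f u) = (0:ℝ)) → inner ℝ v (∫ u in (0:ℝ)..x, f u) = (0:ℝ) := by
    intro f x hf h0
    have := (innerSL ℝ v).intervalIntegral_comp_comm hf
    simp only [innerSL_apply_apply, h0] at this
    rw [← this]; simp
  have hhalf : ∀ (e : ℕ → E3), HalfCert a e → (∀ k, inner ℝ v (e k) = (0:ℝ)) →
      ∀ u, inner ℝ v (vel (Rad a) e u) = (0:ℝ) := by
    intro e he h0 u
    unfold vel
    split_ifs
    · exact h0 _
    · rw [inner_smul_right, half, hint _ _ (he.step_ii _ _) (fun u => h0 _), mul_zero]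
  intro t
  unfold curve
  refine hint _ _ (h.ii _ _) fun u => ?_
  unfold vel2
  split_ifs
  · exact hhalf _ h.hp ep0 _
  · rw [inner_neg_right, hhalf _ h.hm em0, neg_zero]

lemma local_strictMono (h : Cert a (epOf m q) (emOf m q)) (s : ℝ) :
    ∃ w : E3, ∃ r > 0, StrictMonoOn
      (fun t => inner ℝ w (curve (Rad a) (epOf m q) (emOf m q) t)) (Icc (s - r) (s + r)) := by
  obtain ⟨w, _, hw⟩ := h.local_mono (s - 1/2)
  refine ⟨w, 1/2, by norm_num, fun y hy x hx hyx => ?_⟩
  have := hw x y hy.1 hyx.le (by linarith [hx.2])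
  rw [inner_sub_right] at this
  simp only
  linarith

end MPeb2336

end

/-! ### a certified configuration with nontrivial long curve is locked -/

section

open Set Filter Topology MeasureTheory

namespace MPeb2336

/-- The statement of the flat case (proved in `FlatCase.lean`). -/
def FlatCaseStatement : Prop :=
  ∀ F : ℝ → E3, Continuous F → Function.Injective F →
    Tendsto (fun t => ‖F t‖) (cocompact ℝ) atTop →
    (∀ s, ∃ w : E3, ∃ r > 0, StrictMonoOn (fun t => inner ℝ w (F t)) (Icc (s - r) (s + r))) →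
    (∃ v : E3, v ≠ 0 ∧ ∀ t, inner ℝ v (F t) = (0 : ℝ)) → CommCompl (range F)

variable {a m : ℕ} {ℓ θ : ℕ → ℝ} {q : ℕ → E3}

lemma epOf_congr {q q' : ℕ → E3} (hm : 1 ≤ m) (h : ∀ i ≤ 2 * m, q i = q' i) :
    epOf m q = epOf m q' := by
  funext k
  simp only [epOf]
  rw [h _ (by omega), h _ (by omega)]

lemma emOf_congr {q q' : ℕ → E3} (hm : 1 ≤ m) (h : ∀ i ≤ 2 * m, q i = q' i) :
    emOf m q = emOf m q' := by
  funext k
  simp only [emOf]
  rw [h _ (by omega), h _ (by omega)]

theorem locked_of_cert (hfc : FlatCaseStatement) (hc : ChainCert a m ℓ θ)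
    (hq : IsConfig (2 * m) ℓ θ q)
    (hnt : ¬ CommCompl (range (curve (Rad a) (epOf m q) (emOf m q)))) :
    Locked (2 * m) ℓ θ q := by
  refine ⟨hq, ?_⟩
  rintro ⟨γ, q', hγ, hflat⟩
  have hm := hc.hm
  have ha := hc.ha
  have hcfg := hγ.config
  have hinv := invariance (a := a) (m := m) (ep := fun t => epOf m (γ t))
    (em := fun t => emOf m (γ t))
    (fun t ht => cert_of_config hc (hcfg t ht))
    (fun t ht => injective_of_config hc (hcfg t ht))
    (fun k => (hγ.continuous _ (by omega)).sub (hγ.continuous _ (by omega)))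
    (fun k => (hγ.continuous _ (by omega)).sub (hγ.continuous _ (by omega)))
    (fun t k hk => by
      have e1 : min k (m - 1) = m - 1 := by omega
      have e2 : min m (m - 1) = m - 1 := by omega
      simp only [epOf, e1, e2])
    (fun t k hk => by
      have e1 : min k (m - 1) = m - 1 := by omega
      have e2 : min m (m - 1) = m - 1 := by omega
      simp only [emOf, e1, e2])
  rw [epOf_congr (by omega) hγ.start, emOf_congr (by omega) hγ.start] at hinv
  apply hnt
  rw [hinv]
  have h1 : (1:ℝ) ∈ Icc (0:ℝ) 1 := by simp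
  have hcert1 := cert_of_config hc (hcfg 1 h1)
  have hflat1 : Flat (2 * m) (γ 1) := by
    obtain ⟨v, c, hv, hvc⟩ := hflat
    exact ⟨v, c, hv, fun i hi => by rw [hγ.finish i hi]; exact hvc i hi⟩
  exact hfc _ hcert1.curve_continuous (injective_of_config hc (hcfg 1 h1)) hcert1.proper
    (local_strictMono hcert1) (flat_curve hc (hcfg 1 h1) hflat1)

end MPeb2336

end

/-! ### building configurations from edge vectors -/

section

open Set Filter Topology MeasureTheory InnerProductGeometry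

namespace MPeb2336

/-- vertices of the chain with edge vectors `f` -/
def vert (f : ℕ → E3) (i : ℕ) : E3 := ∑ j ∈ Finset.range i, f j

lemma vert_sub (f : ℕ → E3) (i : ℕ) : vert f (i + 1) - vert f i = f i := by
  unfold vert
  rw [Finset.sum_range_succ]; abel

/-- turn angles of a polygonal path -/
def angOf (q : ℕ → E3) (i : ℕ) : ℝ := angle (q i - q (i - 1)) (q (i + 1) - q i)

/-- link lengths of a polygonal path -/
def lenOf (q : ℕ → E3) (i : ℕ) : ℝ := ‖q (i + 1) - q i‖

lemma isConfig_of_injective {m : ℕ} (hm : 1 ≤ m) {q : ℕ → E3}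
    (h : Cert m (epOf m q) (emOf m q))
    (hinj : Function.Injective (curve (Rad m) (epOf m q) (emOf m q))) :
    IsConfig (2 * m) (lenOf q) (angOf q) q := by
  have hm' : (1:ℝ) ≤ m := by exact_mod_cast hm
  have tp := h.hp.tau_ge h.ha
  have tm := h.hm.tau_ge h.ha
  -- a point of the segment `i` is a point of the curve
  have pt : ∀ i < 2 * m, ∀ p ∈ segment ℝ (q i) (q (i + 1)), ∃ s : ℝ, 0 ≤ s ∧ s ≤ 1 ∧
      p = q i + s • (q (i + 1) - q i) ∧
      curve (Rad m) (epOf m q) (emOf m q) (i + s - m) + q m = p := by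
    intro i hi p hp
    rw [segment_eq_image'] at hp
    obtain ⟨s, ⟨hs0, hs1⟩, rfl⟩ := hp
    have hi' : (i:ℝ) + 1 ≤ 2 * m := by exact_mod_cast hi
    have hi0 : (0:ℝ) ≤ i := Nat.cast_nonneg i
    refine ⟨s, hs0, hs1, rfl, ?_⟩
    rw [curve_eq_poly h (i := i) (by linarith) (by linarith) hi (by linarith) (by linarith)]
    have : (i:ℝ) + s - m + m - i = s := by ring
    rw [this]
  refine ⟨fun i _ => ?_, fun i _ _ => rfl, fun i j hij hj => ?_, fun i hi => ?_⟩
  · rw [dist_comm, dist_eq_norm]; rfl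
  · rw [Set.disjoint_left]
    intro p hp hp'
    obtain ⟨s, hs0, hs1, -, e1⟩ := pt i (by omega) p hp
    obtain ⟨t, ht0, ht1, -, e2⟩ := pt j hj p hp'
    have e3 := hinj (add_right_cancel (e1.trans e2.symm))
    have : (i:ℝ) + 1 < j := by exact_mod_cast hij
    linarith
  · apply Set.Subset.antisymm
    · rintro p ⟨hp, hp'⟩
      obtain ⟨s, hs0, hs1, e0, e1⟩ := pt i (by omega) p hp
      obtain ⟨t, ht0, ht1, -, e2⟩ := pt (i + 1) hi p hp'
      have e3 := hinj (add_right_cancel (e1.trans e2.symm))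
      push_cast at e3
      have hs : s = 1 := by linarith
      rw [mem_singleton_iff, e0, hs, one_smul]; abel
    · rintro p rfl
      exact ⟨right_mem_segment _ _ _, left_mem_segment _ _ _⟩

/-- closeness to a unit speed chain whose tail is straight gives the half certificate -/
lemma halfCert_of_close {e f : ℕ → E3} {a0 a : ℕ} {d : E3} {η : ℝ} (hunit : ∀ k, ‖e k‖ = 1)
    (hconst : ∀ k, a0 ≤ k → e k = d) (ha : a0 ≤ a) (hcons : ∀ k, ‖e k - e (k + 1)‖ ≤ 1/10)
    (hf : ∀ k, ‖f k - e k‖ ≤ η) (hη : η ≤ 1/1000) (hlen : ∀ k, 1 ≤ ‖f k‖) :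
    HalfCert a f where
  lb := hlen
  ub k := by
    have := norm_add_le (f k - e k) (e k)
    rw [sub_add_cancel, hunit] at this
    linarith [hf k]
  turn k := by
    have h1 : ‖f k - f (k + 1)‖ ≤ 1 := by
      have e1 : f k - f (k + 1) = (f k - e k) + (e k - e (k + 1)) - (f (k + 1) - e (k + 1)) := by
        abel
      rw [e1]
      have h2 := norm_sub_le ((f k - e k) + (e k - e (k + 1))) (f (k + 1) - e (k + 1))
      have h3 := norm_add_le (f k - e k) (e k - e (k + 1))
      linarith [hf k, hf (k + 1), hcons k]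
    have h2 := norm_sub_sq_real (f k) (f (k + 1))
    nlinarith [hlen k, hlen (k + 1), norm_nonneg (f k - f (k + 1))]
  needle k hk := by
    have e1 : f k - f a = (f k - e k) - (f a - e a) := by
      rw [hconst k (ha.trans hk), hconst a ha]; abel
    rw [e1]
    refine (norm_sub_le _ _).trans ?_
    linarith [hf k, hf a]

/-- angle between two vectors of norm at least one -/
lemma angle_le_of_close {x y : E3} (hx : 1 ≤ ‖x‖) (hy : 1 ≤ ‖y‖) :
    angle x y ≤ Real.pi * ‖x - y‖ := by
  have hx' : 0 < ‖x‖ := by linarith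
  have hy' : 0 < ‖y‖ := by linarith
  -- chord of the unit vectors
  have h1 : ‖‖x‖⁻¹ • x - ‖y‖⁻¹ • y‖^2 = 2 - 2 * Real.cos (angle x y) := by
    rw [norm_sub_sq_real, norm_smul, norm_smul, norm_inv, norm_inv, norm_norm, norm_norm,
      inv_mul_cancel₀ hx'.ne', inv_mul_cancel₀ hy'.ne', inner_smul_left, inner_smul_right,
      cos_angle]
    simp only [conj_trivial]
    field_simp
    ring
  have h2 : ‖‖x‖⁻¹ • x - ‖y‖⁻¹ • y‖ ≤ 2 * ‖x - y‖ := by
    have e1 : ‖x‖⁻¹ • x - ‖y‖⁻¹ • y = ‖x‖⁻¹ • (x - y) + (‖x‖⁻¹ - ‖y‖⁻¹) • y := by module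
    rw [e1]
    refine (norm_add_le _ _).trans ?_
    rw [norm_smul, norm_smul, norm_inv, norm_norm, Real.norm_eq_abs]
    have h3 : |‖x‖⁻¹ - ‖y‖⁻¹| * ‖y‖ ≤ ‖x - y‖ := by
      have e2 : ‖x‖⁻¹ - ‖y‖⁻¹ = ‖x‖⁻¹ * ‖y‖⁻¹ * (‖y‖ - ‖x‖) := by field_simp
      rw [e2, abs_mul, abs_of_pos (by positivity : 0 < ‖x‖⁻¹ * ‖y‖⁻¹)]
      have h4 : |‖y‖ - ‖x‖| ≤ ‖x - y‖ := by rw [abs_sub_comm]; exact abs_norm_sub_norm_le x y
      have h5 : ‖x‖⁻¹ ≤ 1 := inv_le_one_of_one_le₀ hx
      calc ‖x‖⁻¹ * ‖y‖⁻¹ * |‖y‖ - ‖x‖| * ‖y‖ = ‖x‖⁻¹ * |‖y‖ - ‖x‖| * (‖y‖⁻¹ * ‖y‖) := by ring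
        _ = ‖x‖⁻¹ * |‖y‖ - ‖x‖| := by rw [inv_mul_cancel₀ hy'.ne', mul_one]
        _ ≤ 1 * ‖x - y‖ := by gcongr
        _ = _ := one_mul _
    have h5 : ‖x‖⁻¹ ≤ 1 := inv_le_one_of_one_le₀ hx
    nlinarith [norm_nonneg (x - y)]
  -- cosine bound
  have hθ0 := angle_nonneg x y
  have hθπ := angle_le_pi x y
  set θ := angle x y
  have h3 : 2 - 2 * Real.cos θ = (2 * Real.sin (θ/2))^2 := by
    have h4 := Real.sin_sq_add_cos_sq (θ/2)
    have h5 := Real.cos_two_mul (θ/2)
    rw [mul_div_cancel₀ θ (two_ne_zero)] at h5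
    rw [h5]
    nlinarith
  have h4 : 2 / Real.pi * (θ/2) ≤ Real.sin (θ/2) :=
    Real.mul_le_sin (by linarith) (by linarith)
  have h5 : 2 * Real.sin (θ/2) ≤ 2 * ‖x - y‖ := by
    have h6 : (2 * Real.sin (θ/2))^2 ≤ (2 * ‖x - y‖)^2 := by
      rw [← h3, ← h1]
      exact pow_le_pow_left₀ (norm_nonneg _) h2 2
    exact (abs_le_of_sq_le_sq' h6 (by positivity)).2
  have hpi := Real.pi_pos
  have h6 : θ / Real.pi ≤ ‖x - y‖ := by
    have : 2 / Real.pi * (θ/2) = θ / Real.pi := by field_simp
    linarith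
  rw [div_le_iff₀ hpi] at h6
  linarith

/-- closeness of the ray direction to the direction of the straight tail -/
lemma ray_near_dir {a0 a : ℕ} {f : ℕ → E3} {d : E3} {η : ℝ} (h : HalfCert a f) (ha : 1 ≤ a)
    (ha0 : a0 ≤ a) (hd : ‖d‖ = 1) (hη : 0 ≤ η) (hf : ∀ k, a0 ≤ k → ‖f k - d‖ ≤ η) :
    ‖ray a f - d‖ ≤ 4 * (a0 / a) + 3 * η := by
  have ha' : (1:ℝ) ≤ a := by exact_mod_cast ha
  have ha0' : (a0:ℝ) ≤ a := by exact_mod_cast ha0
  have ha00 : (0:ℝ) ≤ a0 := Nat.cast_nonneg a0
  have hR := Rad_pos ha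
  have t1 := h.tau_ge ha
  have t2 := h.tau_le ha
  have hnt := h.norm_tau ha
  set τ := tau a f
  have h1 : ‖half f τ - τ • d‖ ≤ 2001/1000 * a0 + η * τ := by
    have e1 : half f τ - τ • d = (half f τ - half f a0 - (τ - a0) • d) +
        (half f a0 - (a0:ℝ) • d) := by module
    rw [e1]
    have h2 : ‖half f τ - half f a0 - (τ - a0) • d‖ ≤ η * (τ - a0) := by
      rw [h.half_sub]
      have e1 : (τ - a0) • d = ∫ u in (a0:ℝ)..τ, d := by simp
      rw [e1, ← intervalIntegral.integral_sub (h.step_ii _ _) intervalIntegrable_const]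
      have := intervalIntegral.norm_integral_le_of_norm_le_const (a := (a0:ℝ)) (b := τ) (C := η)
        (f := fun u => f ⌊u⌋₊ - d) (fun u hu => by
          rw [uIoc_of_le (by linarith)] at hu
          exact hf _ (Nat.le_floor hu.1.le))
      rwa [abs_of_nonneg (by linarith)] at this
    have h3 : ‖half f a0 - (a0:ℝ) • d‖ ≤ 1001/1000 * a0 + a0 := by
      refine (norm_sub_le _ _).trans ?_
      rw [norm_smul, hd, Real.norm_eq_abs, abs_of_nonneg ha00, mul_one]
      linarith [h.norm_half_le ha00]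
    have h4 := norm_add_le (half f τ - half f a0 - (τ - a0) • d) (half f a0 - (a0:ℝ) • d)
    have h5 : η * (τ - a0) ≤ η * τ := by nlinarith
    linarith
  have hτ0 : 0 ≤ τ := by linarith
  have e1 : ray a f - d = (1 / Rad a) • ((half f τ - τ • d) + (τ - Rad a) • d) := by
    unfold ray
    rw [smul_add, smul_sub, smul_smul, smul_smul, mul_sub, sub_smul, one_div,
      inv_mul_cancel₀ hR.ne', one_smul]
    abel
  have h2 : |τ - Rad a| ≤ ‖half f τ - τ • d‖ := by
    have h3 := abs_norm_sub_norm_le (half f τ) (τ • d)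
    rw [hnt, norm_smul, hd, Real.norm_eq_abs, abs_of_nonneg hτ0, mul_one, abs_sub_comm] at h3
    exact h3
  rw [e1, norm_smul, Real.norm_eq_abs, abs_of_pos (by positivity), one_div, inv_mul_le_iff₀ hR]
  refine (norm_add_le _ _).trans ?_
  rw [norm_smul, hd, Real.norm_eq_abs, mul_one]
  have h5 : η * τ ≤ η * (1100 * a) := by gcongr
  have h6 : Rad a * (4 * (a0 / a) + 3 * η) = 4040 * a0 + 3030 * a * η := by
    unfold Rad
    field_simp
    ring
  rw [h6]
  nlinarith [mul_nonneg hη (by linarith : (0:ℝ) ≤ a)]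

end MPeb2336

end
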