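import Pool.Agent.Lib.MP_eb2336_co.Motion

/-!
# MP_eb2336_co : sampling of the model curve and the main construction
-/

noncomputable section

/-! ### sampling a curve at equal chords -/

section

open Set Filter Topology MeasureTheory

namespace MPeb2336

theorem continuous_of_lip {V : ℝ → E3} {C : ℝ} (hlip : ∀ s t, ‖V s - V t‖ ≤ C * |s - t|) :
    Continuous V := by
  have : LipschitzWith C.toNNReal V := LipschitzWith.of_dist_le_mul (fun s t => by
    rw [dist_eq_norm, Real.dist_eq]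
    refine (hlip s t).trans ?_
    gcongr
    exact Real.le_coe_toNNReal C)
  exact this.continuous

theorem exists_half_sampling {V : ℝ → E3} {c C M N : ℝ} (hc : 0 < c) (hN : 0 < N)
    (hM : ∀ s, ‖V s‖ ≤ M)
    (hlip : ∀ s t, ‖V s - V t‖ ≤ C * |s - t|) (hbi : ∀ s t, c * |s - t| ≤ ‖∫ u in s..t, V u‖) :
    ∃ s : ℕ → ℝ, s 0 = 0 ∧ ∀ k, 1 / (N * M) ≤ s (k+1) - s k ∧ s (k+1) - s k ≤ 1 / (c * N) ∧
      ‖∫ u in (s k)..(s (k+1)), V u‖ = 1 / N := by
  have hVc := continuous_of_lip hlip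
  have hM0 : 0 < M := by
    have h1 := hbi 0 1
    have h2 : ‖∫ u in (0:ℝ)..1, V u‖ ≤ M * |1 - 0| :=
      intervalIntegral.norm_integral_le_of_norm_le_const (fun x _ => hM x)
    norm_num at h1 h2
    linarith
  have step : ∀ a : ℝ, ∃ b, 1 / (N * M) ≤ b - a ∧ b - a ≤ 1 / (c * N) ∧
      ‖∫ u in a..b, V u‖ = 1 / N := by
    intro a
    have hle : a ≤ a + 1 / (c * N) := by
      have : 0 < 1 / (c * N) := by positivity
      linarith
    have hcont : ContinuousOn (fun b => ‖∫ u in a..b, V u‖) (Icc a (a + 1 / (c * N))) :=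
      (intervalIntegral.continuous_primitive (fun x y => hVc.intervalIntegrable x y) a).norm.continuousOn
    have hmem : (1 / N) ∈ Icc (‖∫ u in a..a, V u‖) (‖∫ u in a..(a + 1 / (c * N)), V u‖) := by
      constructor
      · rw [intervalIntegral.integral_same, norm_zero]; positivity
      · have h1 := hbi a (a + 1 / (c * N))
        have h2 : |a - (a + 1 / (c * N))| = 1 / (c * N) := by
          rw [abs_sub_comm, add_sub_cancel_left, abs_of_pos (by positivity)]
        rw [h2] at h1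
        calc 1 / N = c * (1 / (c * N)) := by field_simp
          _ ≤ _ := h1
    obtain ⟨b, hb, hb'⟩ := intermediate_value_Icc hle hcont hmem
    refine ⟨b, ?_, by linarith [hb.2], hb'⟩
    have h3 : ‖∫ u in a..b, V u‖ ≤ M * |b - a| :=
      intervalIntegral.norm_integral_le_of_norm_le_const (fun x _ => hM x)
    simp only at hb'
    rw [hb', abs_of_nonneg (by linarith [hb.1])] at h3
    rw [div_le_iff₀ (by positivity)]
    rw [div_le_iff₀ hN] at h3
    linarith
  choose f hf using step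
  refine ⟨fun k => Nat.rec 0 (fun _ a => f a) k, rfl, fun k => ?_⟩
  exact hf _

end MPeb2336

end

/-! ### the reparametrised model curve -/

section

open Set Filter Topology MeasureTheory

namespace MPeb2336

def sig (s : ℕ → ℝ) (x : ℝ) : ℝ := s ⌊x⌋₊ + (x - ⌊x⌋₊) * (s (⌊x⌋₊ + 1) - s ⌊x⌋₊)

def velG (N : ℝ) (V : ℝ → E3) (s : ℕ → ℝ) (u : ℝ) : E3 :=
  (N * (s (⌊u⌋₊ + 1) - s ⌊u⌋₊)) • V (sig s u)

variable {V : ℝ → E3} {C M N lo hi : ℝ} {s : ℕ → ℝ}

theorem measurable_sig (s : ℕ → ℝ) : Measurable (sig s) := by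
  have hf : Measurable (fun u : ℝ => ⌊u⌋₊) := Nat.measurable_floor
  have h1 : Measurable (fun u : ℝ => s ⌊u⌋₊) := (measurable_from_nat).comp hf
  have h2 : Measurable (fun u : ℝ => s (⌊u⌋₊ + 1)) :=
    (measurable_from_nat (f := fun k => s (k + 1))).comp hf
  have h3 : Measurable (fun u : ℝ => (⌊u⌋₊ : ℝ)) :=
    (measurable_from_nat (f := fun k => (k : ℝ))).comp hf
  exact h1.add ((measurable_id.sub h3).mul (h2.sub h1))

theorem measurable_velG (hlip : ∀ s t, ‖V s - V t‖ ≤ C * |s - t|) :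
    Measurable (velG N V s) := by
  have hf : Measurable (fun u : ℝ => ⌊u⌋₊) := Nat.measurable_floor
  have h1 : Measurable (fun u : ℝ => s ⌊u⌋₊) := (measurable_from_nat).comp hf
  have h2 : Measurable (fun u : ℝ => s (⌊u⌋₊ + 1)) :=
    (measurable_from_nat (f := fun k => s (k + 1))).comp hf
  have h3 : Measurable (fun u : ℝ => N * (s (⌊u⌋₊ + 1) - s ⌊u⌋₊)) := (h2.sub h1).const_mul N
  exact h3.smul ((continuous_of_lip hlip).measurable.comp (measurable_sig s))

theorem norm_velG_le (hN : 0 < N) (hlo : 0 < lo)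
    (hs : ∀ k, lo ≤ s (k+1) - s k ∧ s (k+1) - s k ≤ hi) (hM : ∀ s, ‖V s‖ ≤ M) (u : ℝ) :
    ‖velG N V s u‖ ≤ N * hi * M := by
  have h := hs ⌊u⌋₊
  have hM0 : 0 ≤ M := (norm_nonneg _).trans (hM 0)
  unfold velG
  rw [norm_smul, Real.norm_eq_abs, abs_of_nonneg (mul_nonneg hN.le (by linarith))]
  exact mul_le_mul (mul_le_mul_of_nonneg_left h.2 hN.le) (hM _) (norm_nonneg _)
    (mul_nonneg hN.le (by linarith))

theorem sig_eq {k : ℕ} {x : ℝ} (h1 : (k:ℝ) ≤ x) (h2 : x ≤ k + 1) :
    sig s x = s k + (x - k) * (s (k + 1) - s k) := by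
  rcases h2.lt_or_eq with h2 | h2
  · have : ⌊x⌋₊ = k := by
      rw [Nat.floor_eq_iff (by linarith [Nat.cast_nonneg (α := ℝ) k])]
      exact ⟨h1, h2⟩
    unfold sig
    rw [this]
  · have : ⌊x⌋₊ = k + 1 := by
      rw [h2]
      have : ((k:ℝ) + 1) = ((k + 1 : ℕ) : ℝ) := by push_cast; ring
      rw [this, Nat.floor_natCast]
    unfold sig
    rw [this, h2]
    push_cast
    ring

theorem sig_nat (k : ℕ) : sig s k = s k := by
  rw [sig_eq (k := k) le_rfl (by linarith)]
  ring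

theorem sig_zero (hs0 : s 0 = 0) : sig s 0 = 0 := by
  have := sig_nat (s := s) 0
  rw [Nat.cast_zero] at this
  rw [this, hs0]

/-- integral inside one cell -/
theorem integral_velG_cell (hN : 0 < N) (hlo : 0 < lo)
    (hs : ∀ k, lo ≤ s (k+1) - s k ∧ s (k+1) - s k ≤ hi) {k : ℕ} {x : ℝ} (h1 : (k:ℝ) ≤ x)
    (h2 : x ≤ k + 1) :
    ∫ u in (k:ℝ)..x, velG N V s u = N • ∫ u in (s k)..(sig s x), V u := by
  set d := s (k + 1) - s k with hd
  have hd0 : 0 < d := by have := (hs k).1; linarith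
  have hcongr : ∫ u in (k:ℝ)..x, velG N V s u =
      ∫ u in (k:ℝ)..x, (N * d) • V (d * u + (s k - k * d)) := by
    apply intervalIntegral.integral_congr_ae
    have hne : ∀ᵐ u : ℝ, u ≠ (k:ℝ) + 1 := by
      simp [ae_iff, measure_singleton]
    filter_upwards [hne] with u hu hmem
    rw [uIoc_of_le h1] at hmem
    have hlt : u < k + 1 := lt_of_le_of_ne (hmem.2.trans h2) hu
    have hfl : ⌊u⌋₊ = k := by
      rw [Nat.floor_eq_iff (by linarith [Nat.cast_nonneg (α := ℝ) k, hmem.1])]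
      exact ⟨hmem.1.le, hlt⟩
    unfold velG
    rw [hfl, sig_eq hmem.1.le hlt.le, ← hd]
    congr 2
    ring
  rw [hcongr, intervalIntegral.integral_smul, intervalIntegral.integral_comp_mul_add _ hd0.ne',
    smul_smul]
  rw [sig_eq h1 h2, ← hd]
  have e1 : N * d * d⁻¹ = N := by field_simp
  rw [e1]
  congr 2 <;> ring

theorem integral_velG_nat (hs0 : s 0 = 0) (hN : 0 < N) (hlo : 0 < lo)
    (hs : ∀ k, lo ≤ s (k+1) - s k ∧ s (k+1) - s k ≤ hi) (hM : ∀ s, ‖V s‖ ≤ M)
    (hlip : ∀ s t, ‖V s - V t‖ ≤ C * |s - t|) (k : ℕ) :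
    ∫ u in (0:ℝ)..k, velG N V s u = N • ∫ u in (0:ℝ)..(s k), V u := by
  have hii : ∀ x y, IntervalIntegrable (velG N V s) volume x y := fun x y =>
    intervalIntegrable_of_bdd (measurable_velG hlip) (norm_velG_le hN hlo hs hM) x y
  have hVc := continuous_of_lip hlip
  induction k with
  | zero => simp [hs0]
  | succ k ih =>
    rw [← intervalIntegral.integral_add_adjacent_intervals (hii 0 k) (hii k _), ih]
    have := integral_velG_cell (V := V) hN hlo hs (k := k) (x := ((k + 1 : ℕ) : ℝ))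
      (by push_cast; linarith) (by push_cast; linarith)
    rw [this, sig_nat, ← smul_add, intervalIntegral.integral_add_adjacent_intervals
      (hVc.intervalIntegrable _ _) (hVc.intervalIntegrable _ _)]

theorem integral_velG (hs0 : s 0 = 0) (hN : 0 < N) (hlo : 0 < lo)
    (hs : ∀ k, lo ≤ s (k+1) - s k ∧ s (k+1) - s k ≤ hi) (hM : ∀ s, ‖V s‖ ≤ M)
    (hlip : ∀ s t, ‖V s - V t‖ ≤ C * |s - t|) {x : ℝ} (hx : 0 ≤ x) :
    ∫ u in (0:ℝ)..x, velG N V s u = N • ∫ u in (0:ℝ)..(sig s x), V u := by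
  have hii : ∀ x y, IntervalIntegrable (velG N V s) volume x y := fun x y =>
    intervalIntegrable_of_bdd (measurable_velG hlip) (norm_velG_le hN hlo hs hM) x y
  have hVc := continuous_of_lip hlip
  rw [← intervalIntegral.integral_add_adjacent_intervals (hii 0 (⌊x⌋₊ : ℝ)) (hii _ x),
    integral_velG_nat hs0 hN hlo hs hM hlip,
    integral_velG_cell hN hlo hs (Nat.floor_le hx) (Nat.lt_floor_add_one x).le, ← smul_add,
    intervalIntegral.integral_add_adjacent_intervals
      (hVc.intervalIntegrable _ _) (hVc.intervalIntegrable _ _)]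

theorem s_mono (hlo : 0 < lo) (hs : ∀ k, lo ≤ s (k+1) - s k ∧ s (k+1) - s k ≤ hi) (j k : ℕ)
    (h : j ≤ k) : lo * ((k : ℝ) - j) ≤ s k - s j := by
  induction k, h using Nat.le_induction with
  | base => simp
  | succ k hk ih =>
    have := (hs k).1
    push_cast
    linarith

theorem sig_lb (hlo : 0 < lo) (hs : ∀ k, lo ≤ s (k+1) - s k ∧ s (k+1) - s k ≤ hi) {x y : ℝ}
    (hy : 0 ≤ y) (hyx : y ≤ x) : lo * (x - y) ≤ sig s x - sig s y := by
  have hx : 0 ≤ x := hy.trans hyx
  have hjk : ⌊y⌋₊ ≤ ⌊x⌋₊ := Nat.floor_mono hyx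
  have hyf := Nat.floor_le hy
  have hyf' := (Nat.lt_floor_add_one y).le
  have hxf := Nat.floor_le hx
  have hxf' := (Nat.lt_floor_add_one x).le
  rcases hjk.eq_or_lt with h | h
  · rw [sig_eq hyf hyf', sig_eq (k := ⌊y⌋₊) (x := x) (by rw [h]; exact hxf) (by rw [h]; exact hxf')]
    have h1 := (hs ⌊y⌋₊).1
    have : (s ⌊y⌋₊ + (x - ⌊y⌋₊) * (s (⌊y⌋₊ + 1) - s ⌊y⌋₊)) -
        (s ⌊y⌋₊ + (y - ⌊y⌋₊) * (s (⌊y⌋₊ + 1) - s ⌊y⌋₊)) = (s (⌊y⌋₊ + 1) - s ⌊y⌋₊) * (x - y) := by
      ring
    rw [this]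
    exact mul_le_mul_of_nonneg_right h1 (by linarith)
  · have h1 := s_mono hlo hs (⌊y⌋₊ + 1) ⌊x⌋₊ h
    rw [sig_eq hyf hyf', sig_eq hxf hxf']
    have h2 := mul_le_mul_of_nonneg_left (hs ⌊x⌋₊).1 (by linarith : 0 ≤ x - ⌊x⌋₊)
    have h3 := mul_le_mul_of_nonneg_left (hs ⌊y⌋₊).1 (by linarith : 0 ≤ ⌊y⌋₊ + 1 - y)
    push_cast at h1
    nlinarith

theorem sig_nonneg (hs0 : s 0 = 0) (hlo : 0 < lo)
    (hs : ∀ k, lo ≤ s (k+1) - s k ∧ s (k+1) - s k ≤ hi) {x : ℝ} (hx : 0 ≤ x) : 0 ≤ sig s x := by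
  have h := sig_lb hlo hs le_rfl hx
  rw [sig_zero hs0] at h
  have : 0 ≤ lo * (x - 0) := by positivity
  linarith

theorem sig_surj (hs0 : s 0 = 0) (hlo : 0 < lo)
    (hs : ∀ k, lo ≤ s (k+1) - s k ∧ s (k+1) - s k ≤ hi) {z : ℝ} (hz : 0 ≤ z) :
    ∃ x, 0 ≤ x ∧ sig s x = z := by
  -- the last index with `s k ≤ z`
  have hex : ∃ k, z < s k := by
    obtain ⟨k, hk⟩ := exists_nat_gt (z / lo)
    refine ⟨k, ?_⟩
    have := s_mono hlo hs 0 k (Nat.zero_le _)
    rw [hs0, Nat.cast_zero, sub_zero, sub_zero] at this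
    rw [div_lt_iff₀ hlo] at hk
    linarith
  classical
  have hk := Nat.find_spec hex
  have hk0 : Nat.find hex ≠ 0 := by
    intro h
    rw [h, hs0] at hk
    linarith
  obtain ⟨j, hj⟩ := Nat.exists_eq_succ_of_ne_zero hk0
  have hj' : s j ≤ z := by
    have := Nat.find_min hex (m := j) (by omega)
    linarith [not_lt.1 this]
  rw [hj] at hk
  have hd := (hs j).1
  have hd0 : 0 < s (j + 1) - s j := by linarith
  have hk' : z < s (j + 1) := hk
  have hq0 : 0 ≤ (z - s j) / (s (j + 1) - s j) := div_nonneg (by linarith) hd0.le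
  have hq1 : (z - s j) / (s (j + 1) - s j) ≤ 1 := by
    rw [div_le_one hd0]; linarith
  refine ⟨j + (z - s j) / (s (j + 1) - s j), by positivity, ?_⟩
  rw [sig_eq (k := j) (by linarith) (by linarith)]
  field_simp
  ring

theorem velG_near (hN : 0 < N) (hlo : 0 < lo)
    (hs : ∀ k, lo ≤ s (k+1) - s k ∧ s (k+1) - s k ≤ hi)
    (hlip : ∀ s t, ‖V s - V t‖ ≤ C * |s - t|) {u : ℝ} (hu : 0 ≤ u) :
    ‖velG N V s u - N • ∫ w in (s ⌊u⌋₊)..(s (⌊u⌋₊+1)), V w‖ ≤ N * C * hi ^ 2 := by
  set k := ⌊u⌋₊ with hk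
  set d := s (k + 1) - s k with hd
  have hd0 : 0 < d := by have := (hs k).1; linarith
  have hdhi : d ≤ hi := (hs k).2
  have hVc := continuous_of_lip hlip
  have hC : 0 ≤ C := by
    have := (norm_nonneg _).trans (hlip 0 1)
    norm_num at this
    exact this
  have hsig := sig_eq (s := s) (Nat.floor_le hu) (Nat.lt_floor_add_one u).le
  rw [← hk, ← hd] at hsig
  have hu1 : 0 ≤ u - k := by have := Nat.floor_le hu; rw [← hk] at this; linarith
  have hu2 : u - k ≤ 1 := by have := (Nat.lt_floor_add_one u).le; rw [← hk] at this; linarith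
  have e1 : velG N V s u - N • ∫ w in (s k)..(s (k+1)), V w =
      N • ∫ w in (s k)..(s (k+1)), (V (sig s u) - V w) := by
    rw [intervalIntegral.integral_sub (by simp) (hVc.intervalIntegrable _ _),
      intervalIntegral.integral_const, smul_sub, smul_smul]
    rfl
  rw [e1, norm_smul, Real.norm_eq_abs, abs_of_pos hN]
  have h2 : ‖∫ w in (s k)..(s (k+1)), (V (sig s u) - V w)‖ ≤ (C * hi) * |s (k + 1) - s k| := by
    apply intervalIntegral.norm_integral_le_of_norm_le_const
    intro w hw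
    rw [uIoc_of_le (by linarith)] at hw
    refine (hlip _ _).trans ?_
    apply mul_le_mul_of_nonneg_left _ hC
    rw [abs_le]
    have h3 : 0 ≤ (u - k) * d := mul_nonneg hu1 hd0.le
    have h4 : (u - k) * d ≤ d := by nlinarith
    rw [hsig]
    constructor <;> linarith [hw.1, hw.2]
  rw [← hd, abs_of_pos hd0] at h2
  calc N * ‖∫ w in (s k)..(s (k+1)), (V (sig s u) - V w)‖ ≤ N * ((C * hi) * d) := by gcongr
    _ ≤ N * ((C * hi) * hi) := by
        have : 0 ≤ C * hi := mul_nonneg hC (by linarith)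
        gcongr
    _ = N * C * hi ^ 2 := by ring

end MPeb2336

end

/-! ### comparison of the long curve of a chain with the reparametrised model -/

section

open Set Filter Topology MeasureTheory InnerProductGeometry

namespace MPeb2336

/-- the model velocity seen from the other end -/
def revV (V : ℝ → E3) (s : ℝ) : E3 := - V (-s)

/-- two-sided velocity of the reparametrised model -/
def velG2 (N : ℝ) (V : ℝ → E3) (sp sm : ℕ → ℝ) (u : ℝ) : E3 :=
  if 0 ≤ u then velG N V sp u else - velG N (revV V) sm (-u)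

/-- two-sided reparametrisation -/
def sig2 (sp sm : ℕ → ℝ) (x : ℝ) : ℝ := if 0 ≤ x then sig sp x else - sig sm (-x)

/-- data of a sampled model -/
structure Sampled (V : ℝ → E3) (c C M N lo hi : ℝ) (sp sm : ℕ → ℝ) : Prop where
  c_pos : 0 < c
  N_pos : 0 < N
  lo_pos : 0 < lo
  lip : ∀ s t, ‖V s - V t‖ ≤ C * |s - t|
  bilip : ∀ s t, c * |s - t| ≤ ‖∫ u in s..t, V u‖
  bdd : ∀ s, ‖V s‖ ≤ M
  sp0 : sp 0 = 0
  sm0 : sm 0 = 0
  stepp : ∀ k, lo ≤ sp (k+1) - sp k ∧ sp (k+1) - sp k ≤ hi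
  stepm : ∀ k, lo ≤ sm (k+1) - sm k ∧ sm (k+1) - sm k ≤ hi

variable {V : ℝ → E3} {c C M N lo hi : ℝ} {sp sm : ℕ → ℝ}

lemma lip_continuous (hlip : ∀ s t, ‖V s - V t‖ ≤ C * |s - t|) : Continuous V := by
  have : LipschitzWith (Real.toNNReal C) V := by
    refine LipschitzWith.of_dist_le_mul fun x y => ?_
    rw [dist_eq_norm, Real.dist_eq]
    refine (hlip x y).trans ?_
    gcongr
    exact Real.le_coe_toNNReal C
  exact this.continuous

lemma revV_lip (hlip : ∀ s t, ‖V s - V t‖ ≤ C * |s - t|) (s t : ℝ) :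
    ‖revV V s - revV V t‖ ≤ C * |s - t| := by
  unfold revV
  have := hlip (-t) (-s)
  have e1 : -V (-s) - -V (-t) = V (-t) - V (-s) := by abel
  have e2 : -t - -s = s - t := by ring
  rwa [e1, ← e2]

lemma revV_integral (s t : ℝ) : ∫ u in s..t, revV V u = ∫ u in (-s)..(-t), V u := by
  unfold revV
  rw [intervalIntegral.integral_neg, intervalIntegral.integral_comp_neg,
    intervalIntegral.integral_symm, neg_neg]

lemma revV_bilip (hbi : ∀ s t, c * |s - t| ≤ ‖∫ u in s..t, V u‖) (s t : ℝ) :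
    c * |s - t| ≤ ‖∫ u in s..t, revV V u‖ := by
  rw [revV_integral]
  have := hbi (-s) (-t)
  have e : |-s - -t| = |s - t| := by rw [show -s - -t = -(s - t) by ring, abs_neg]
  rwa [e] at this

lemma revV_bdd (hM : ∀ s, ‖V s‖ ≤ M) (s : ℝ) : ‖revV V s‖ ≤ M := by
  unfold revV; rw [norm_neg]; exact hM _

section
variable (h : Sampled V c C M N lo hi sp sm)
include h

lemma Sampled.measurable : Measurable (velG2 N V sp sm) :=
  Measurable.ite measurableSet_Ici (measurable_velG h.lip)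
    ((measurable_velG (revV_lip h.lip)).comp measurable_neg).neg

lemma Sampled.norm_le (u : ℝ) : ‖velG2 N V sp sm u‖ ≤ N * hi * M := by
  unfold velG2
  split_ifs
  · exact norm_velG_le h.N_pos h.lo_pos h.stepp h.bdd u
  · rw [norm_neg]
    exact norm_velG_le h.N_pos h.lo_pos h.stepm (revV_bdd h.bdd) _

lemma Sampled.ii (x y : ℝ) : IntervalIntegrable (velG2 N V sp sm) volume x y :=
  intervalIntegrable_of_bdd h.measurable h.norm_le x y

/-- the integral of the two-sided velocity is the scaled model curve reparametrised -/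
lemma Sampled.integral (x : ℝ) : ∫ u in (0:ℝ)..x, velG2 N V sp sm u =
    N • ∫ u in (0:ℝ)..sig2 sp sm x, V u := by
  rcases le_or_gt 0 x with hx | hx
  · have e1 : ∫ u in (0:ℝ)..x, velG2 N V sp sm u = ∫ u in (0:ℝ)..x, velG N V sp u := by
      refine intervalIntegral.integral_congr fun u hu => ?_
      rw [uIcc_of_le hx] at hu
      simp only [velG2, if_pos hu.1]
    rw [e1, integral_velG h.sp0 h.N_pos h.lo_pos h.stepp h.bdd h.lip hx]
    unfold sig2
    rw [if_pos hx]
  · have e1 : ∫ u in (0:ℝ)..x, velG2 N V sp sm u = ∫ u in (0:ℝ)..(-x), velG N (revV V) sm u := by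
      have e2 : ∫ u in (0:ℝ)..x, velG2 N V sp sm u =
          ∫ u in (-x)..0, velG2 N V sp sm (-u) := by
        rw [intervalIntegral.integral_comp_neg, neg_zero, neg_neg]
      rw [e2, intervalIntegral.integral_symm, ← intervalIntegral.integral_neg]
      refine intervalIntegral.integral_congr_ae ?_
      filter_upwards [Measure.ae_ne volume (0:ℝ)] with u hu0 hu
      rw [uIoc_of_le (by linarith)] at hu
      unfold velG2
      rw [if_neg (by linarith [hu.1]), neg_neg, neg_neg]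
    rw [e1, integral_velG h.sm0 h.N_pos h.lo_pos h.stepm (revV_bdd h.bdd) (revV_lip h.lip)
      (by linarith), revV_integral,
      neg_zero]
    unfold sig2
    rw [if_neg (not_le.2 hx)]

lemma Sampled.sig2_lb (x y : ℝ) : lo * |x - y| ≤ |sig2 sp sm x - sig2 sp sm y| := by
  wlog hyx : y ≤ x generalizing x y
  · rw [abs_sub_comm, abs_sub_comm (sig2 sp sm x)]
    exact this y x (le_of_not_ge hyx)
  rw [abs_of_nonneg (sub_nonneg.2 hyx)]
  refine le_trans ?_ (le_abs_self _)
  have z1 := sig_zero h.sp0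
  have z2 := sig_zero h.sm0
  unfold sig2
  split_ifs with hx hy hy
  · exact sig_lb h.lo_pos h.stepp hy hyx
  · have e1 := sig_lb h.lo_pos h.stepp le_rfl hx
    have e2 := sig_lb h.lo_pos h.stepm (x := -y) le_rfl (by linarith)
    rw [z1] at e1
    rw [z2] at e2
    linarith
  · linarith
  · have e2 := sig_lb h.lo_pos h.stepm (x := -y) (y := -x) (by linarith) (by linarith)
    linarith

lemma Sampled.sig2_surj (z : ℝ) : ∃ x, sig2 sp sm x = z := by
  rcases le_or_gt 0 z with hz | hz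
  · obtain ⟨x, hx, hxz⟩ := sig_surj h.sp0 h.lo_pos h.stepp hz
    exact ⟨x, by unfold sig2; rw [if_pos hx, hxz]⟩
  · obtain ⟨x, hx, hxz⟩ := sig_surj h.sm0 h.lo_pos h.stepm (z := -z) (by linarith)
    have hx0 : 0 < x := by
      rcases hx.lt_or_eq with h1 | h1
      · exact h1
      · rw [← h1, sig_zero h.sm0] at hxz; linarith
    exact ⟨-x, by unfold sig2; rw [if_neg (by linarith), neg_neg, hxz, neg_neg]⟩

/-- lower bound for the reparametrised model -/
lemma Sampled.lower (x y : ℝ) : N * c * lo * |x - y| ≤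
    ‖(∫ u in (0:ℝ)..x, velG2 N V sp sm u) - ∫ u in (0:ℝ)..y, velG2 N V sp sm u‖ := by
  rw [h.integral, h.integral, ← smul_sub, norm_smul, Real.norm_eq_abs, abs_of_pos h.N_pos]
  have hV := lip_continuous h.lip
  rw [intervalIntegral.integral_interval_sub_left (hV.intervalIntegrable _ _)
    (hV.intervalIntegrable _ _)]
  have h1 := h.bilip (sig2 sp sm y) (sig2 sp sm x)
  have h2 := h.sig2_lb x y
  rw [abs_sub_comm] at h1
  have hN := h.N_pos
  have hc := h.c_pos
  calc N * c * lo * |x - y| = N * (c * (lo * |x - y|)) := by ring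
    _ ≤ N * (c * |sig2 sp sm x - sig2 sp sm y|) := by gcongr
    _ ≤ _ := by gcongr

/-- the complement groups of the model and of the reparametrised scaled model agree -/
lemma Sampled.commCompl : CommCompl (range fun s => ∫ u in (0:ℝ)..s, V u) ↔
    CommCompl (range fun x => ∫ u in (0:ℝ)..x, velG2 N V sp sm u) := by
  have hN := h.N_pos
  let Φ : E3 ≃ₜ E3 := Homeomorph.smulOfNeZero N hN.ne'
  have h1 : Φ '' (range fun s => ∫ u in (0:ℝ)..s, V u) =
      range fun x => ∫ u in (0:ℝ)..x, velG2 N V sp sm u := by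
    ext p
    constructor
    · rintro ⟨_, ⟨s, rfl⟩, rfl⟩
      obtain ⟨x, hx⟩ := h.sig2_surj s
      refine ⟨x, ?_⟩
      simp only
      rw [h.integral, hx]
      rfl
    · rintro ⟨x, rfl⟩
      refine ⟨_, ⟨sig2 sp sm x, rfl⟩, ?_⟩
      simp only
      rw [h.integral]
      rfl
  have h2 : Φ.symm '' (range fun x => ∫ u in (0:ℝ)..x, velG2 N V sp sm u) =
      range fun s => ∫ u in (0:ℝ)..s, V u := by
    rw [← h1, ← image_comp]; simp
  exact ⟨commCompl_of_homeo Φ h1, commCompl_of_homeo Φ.symm h2⟩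

/-- **Comparison**: if the velocities are uniformly close, the long curve of the chain is
injective and has the same complement group as the model. -/
theorem Sampled.compare {a : ℕ} {ep em : ℕ → E3} (hcert : Cert a ep em) {κ : ℝ}
    (hκ : 4 * κ ≤ N * c * lo)
    (hp : ∀ u, 0 ≤ u → ‖vel (Rad a) ep u - velG N V sp u‖ ≤ κ)
    (hm : ∀ u, 0 ≤ u → ‖vel (Rad a) em u - velG N (revV V) sm u‖ ≤ κ) :
    Function.Injective (curve (Rad a) ep em) ∧
    (CommCompl (range fun s => ∫ u in (0:ℝ)..s, V u) ↔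
      CommCompl (range (curve (Rad a) ep em))) := by
  let G : ℝ → E3 := fun x => ∫ u in (0:ℝ)..x, velG2 N V sp sm u
  have hclose : ∀ x y, ‖(curve (Rad a) ep em x - G x) - (curve (Rad a) ep em y - G y)‖ ≤
      κ * |x - y| := by
    intro x y
    have e1 : (curve (Rad a) ep em x - G x) - (curve (Rad a) ep em y - G y) =
        ∫ u in y..x, (vel2 (Rad a) ep em u - velG2 N V sp sm u) := by
      rw [intervalIntegral.integral_sub (hcert.ii _ _) (h.ii _ _), ← hcert.curve_sub]
      have : ∫ u in y..x, velG2 N V sp sm u = G x - G y := by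
        simp only [G]
        rw [intervalIntegral.integral_interval_sub_left (h.ii _ _) (h.ii _ _)]
      rw [this]; abel
    rw [e1]
    refine intervalIntegral.norm_integral_le_of_norm_le_const fun u _ => ?_
    unfold vel2 velG2
    split_ifs with hu
    · exact hp u hu
    · rw [neg_sub_neg, norm_sub_rev]
      exact hm (-u) (by linarith)
  have hlow : ∀ x y, 4 * κ * |x - y| ≤ ‖G x - G y‖ := by
    intro x y
    refine le_trans ?_ (h.lower x y)
    gcongr
  have h14 : ∀ x y, ‖(curve (Rad a) ep em x - G x) - (curve (Rad a) ep em y - G y)‖ ≤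
      (1/4) * ‖G x - G y‖ := by
    intro x y
    linarith [hclose x y, hlow x y]
  obtain ⟨Φ, hΦ⟩ := exists_homeo_of_close G (curve (Rad a) ep em) h14
  have hGinj : Function.Injective G := by
    intro x y hxy
    have h1 := h.lower x y
    have h2 : G x - G y = 0 := sub_eq_zero.2 hxy
    have h3 : N * c * lo * |x - y| ≤ ‖G x - G y‖ := h1
    rw [h2, norm_zero] at h3
    have hpos : 0 < N * c * lo := by have := h.N_pos; have := h.c_pos; have := h.lo_pos; positivity
    have h4 : |x - y| ≤ 0 := by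
      by_contra hcon
      have := mul_pos hpos (not_le.1 hcon)
      linarith
    exact sub_eq_zero.1 (abs_eq_zero.1 (le_antisymm h4 (abs_nonneg _)))
  refine ⟨?_, h.commCompl.trans (commCompl_of_range_eq Φ hΦ)⟩
  intro x y hxy
  rw [← hΦ, ← hΦ] at hxy
  exact hGinj (Φ.injective hxy)

end

end MPeb2336

end

/-! ### the edge vectors of the sampled model -/

section

open Set Filter Topology MeasureTheory InnerProductGeometry

namespace MPeb2336

/-- edge vectors of the sampled model (half) -/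
def edge (N : ℝ) (V : ℝ → E3) (s : ℕ → ℝ) (k : ℕ) : E3 := N • ∫ u in (s k)..(s (k + 1)), V u

section
variable {V : ℝ → E3} {C N lo hi S : ℝ} {s : ℕ → ℝ}

lemma norm_edge (hN : 0 < N) (hunit : ∀ k, ‖∫ u in (s k)..(s (k + 1)), V u‖ = 1 / N) (k : ℕ) :
    ‖edge N V s k‖ = 1 := by
  unfold edge
  rw [norm_smul, hunit, Real.norm_eq_abs, abs_of_pos hN]
  field_simp

lemma edge_dir (hN : 0 < N) (hC : 0 ≤ C) (hlip : ∀ s t, ‖V s - V t‖ ≤ C * |s - t|)
    (hlo : 0 < lo) (hs : ∀ k, lo ≤ s (k+1) - s k ∧ s (k+1) - s k ≤ hi)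
    (hunit : ∀ k, ‖∫ u in (s k)..(s (k + 1)), V u‖ = 1 / N) (k : ℕ) {r : ℝ}
    (hr : r ∈ Icc (s k) (s (k + 1))) :
    ‖edge N V s k - ‖V r‖⁻¹ • V r‖ ≤ 2 * (N * C * hi ^ 2) := by
  obtain ⟨h1, h2⟩ := hs k
  set h := s (k + 1) - s k with hh
  have h0 : 0 < h := by linarith
  have hV := lip_continuous hlip
  have e1 : edge N V s k - (N * h) • V r = N • ∫ u in (s k)..(s (k + 1)), (V u - V r) := by
    rw [intervalIntegral.integral_sub (hV.intervalIntegrable _ _) intervalIntegrable_const]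
    rw [intervalIntegral.integral_const, smul_sub, ← hh, smul_smul]
    rfl
  have b1 : ‖edge N V s k - (N * h) • V r‖ ≤ N * C * hi ^ 2 := by
    rw [e1, norm_smul, Real.norm_eq_abs, abs_of_pos hN]
    have b2 : ‖∫ u in (s k)..(s (k + 1)), (V u - V r)‖ ≤ (C * h) * |s (k + 1) - s k| := by
      refine intervalIntegral.norm_integral_le_of_norm_le_const fun u hu => ?_
      rw [uIoc_of_le (by linarith)] at hu
      refine (hlip u r).trans ?_
      have : |u - r| ≤ h := by
        rw [abs_le]; constructor <;> linarith [hu.1, hu.2, hr.1, hr.2]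
      gcongr
    rw [← hh, abs_of_pos h0] at b2
    calc N * ‖∫ u in (s k)..(s (k + 1)), (V u - V r)‖ ≤ N * (C * h * h) := by gcongr
      _ = N * C * h ^ 2 := by ring
      _ ≤ N * C * hi ^ 2 := by gcongr
  have hn := norm_edge hN hunit k
  have b3 : |N * h * ‖V r‖ - 1| ≤ N * C * hi ^ 2 := by
    have := abs_norm_sub_norm_le (edge N V s k) ((N * h) • V r)
    rw [hn, norm_smul, Real.norm_eq_abs, abs_of_pos (by positivity : 0 < N * h),
      abs_sub_comm] at this
    linarith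
  have b4 : ‖(N * h) • V r - ‖V r‖⁻¹ • V r‖ ≤ N * C * hi ^ 2 := by
    by_cases hv : V r = 0
    · rw [hv]; simp; positivity
    · have hv' : 0 < ‖V r‖ := norm_pos_iff.2 hv
      rw [← sub_smul, norm_smul, Real.norm_eq_abs]
      have e2 : |N * h - ‖V r‖⁻¹| * ‖V r‖ = |N * h * ‖V r‖ - 1| := by
        rw [← abs_of_pos hv', ← abs_mul, abs_of_pos hv', sub_mul, inv_mul_cancel₀ hv'.ne']
      rw [e2]; exact b3
  have e3 : edge N V s k - ‖V r‖⁻¹ • V r = (edge N V s k - (N * h) • V r) +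
      ((N * h) • V r - ‖V r‖⁻¹ • V r) := by abel
  rw [e3]
  refine (norm_add_le _ _).trans ?_
  linarith

lemma edge_tail (hN : 0 < N) (hlo : 0 < lo)
    (hs : ∀ k, lo ≤ s (k+1) - s k ∧ s (k+1) - s k ≤ hi)
    (hunit : ∀ k, ‖∫ u in (s k)..(s (k + 1)), V u‖ = 1 / N)
    (hright : ∀ r, S ≤ r → V r = V S) {k : ℕ} (hk : S ≤ s k) :
    edge N V s k = ‖V S‖⁻¹ • V S := by
  obtain ⟨h1, h2⟩ := hs k
  set h := s (k + 1) - s k with hh
  have h0 : 0 < h := by linarith
  have e1 : edge N V s k = (N * h) • V S := by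
    unfold edge
    have : ∫ u in (s k)..(s (k + 1)), V u = ∫ u in (s k)..(s (k + 1)), V S := by
      refine intervalIntegral.integral_congr fun u hu => ?_
      rw [uIcc_of_le (by linarith)] at hu
      exact hright u (hk.trans hu.1)
    rw [this, intervalIntegral.integral_const, ← hh, smul_smul]
  have hn := norm_edge hN hunit k
  rw [e1, norm_smul, Real.norm_eq_abs, abs_of_pos (by positivity)] at hn
  have hv : ‖V S‖ ≠ 0 := by
    intro h0; rw [h0, mul_zero] at hn; exact zero_ne_one hn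
  rw [e1]
  congr 1
  field_simp
  linarith

lemma sample_ge (hs0 : s 0 = 0) (hs : ∀ k, lo ≤ s (k+1) - s k ∧ s (k+1) - s k ≤ hi) (k : ℕ) :
    lo * k ≤ s k := by
  induction k with
  | zero => simp [hs0]
  | succ k ih =>
    have := (hs k).1
    push_cast
    linarith

end

/-- a unit vector close to a given one and different from another given one -/
lemma exists_unit_near {E g : E3} (hE : ‖E‖ = 1) {η : ℝ} (hη : 0 < η) :
    ∃ g' : E3, ‖g'‖ = 1 ∧ ‖g' - E‖ ≤ η ∧ g' ≠ g := by
  by_cases hEg : E = g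
  swap
  · exact ⟨E, hE, by simp [hη.le], hEg⟩
  subst hEg
  -- a unit vector orthogonal to `E`
  obtain ⟨w, hw1, hw2⟩ : ∃ w : E3, ‖w‖ = 1 ∧ inner ℝ E w = (0:ℝ) := by
    have hfin : Module.finrank ℝ (ℝ ∙ E)ᗮ = 2 := by
      have : Fact (Module.finrank ℝ E3 = 2 + 1) := ⟨by simp⟩
      exact Submodule.finrank_orthogonal_span_singleton (𝕜 := ℝ) (n := 2)
        (by intro h0; rw [h0, norm_zero] at hE; exact zero_ne_one hE)
    have hnt : Nontrivial (ℝ ∙ E)ᗮ := by
      apply Module.nontrivial_of_finrank_pos (R := ℝ); omega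
    obtain ⟨⟨w, hw⟩, hw0⟩ := exists_ne (0 : (ℝ ∙ E)ᗮ)
    have hw0' : w ≠ 0 := fun h0 => hw0 (Subtype.ext h0)
    have hwn : 0 < ‖w‖ := norm_pos_iff.2 hw0'
    refine ⟨‖w‖⁻¹ • w, ?_, ?_⟩
    · rw [norm_smul, norm_inv, norm_norm, inv_mul_cancel₀ hwn.ne']
    · rw [inner_smul_right, Submodule.mem_orthogonal_singleton_iff_inner_right.1 hw, mul_zero]
  set t := min η 1 with ht
  have ht0 : 0 < t := lt_min hη one_pos
  have ht1 : t ≤ 1 := min_le_right _ _
  have hsin : 0 < Real.sin t := Real.sin_pos_of_pos_of_lt_pi ht0 (by linarith [Real.pi_gt_three])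
  refine ⟨Real.cos t • E + Real.sin t • w, ?_, ?_, ?_⟩
  · have h1 : ‖Real.cos t • E + Real.sin t • w‖^2 = 1 := by
      rw [norm_add_sq_real, norm_smul, norm_smul, hE, hw1, inner_smul_left, inner_smul_right, hw2]
      simp
    have h2 : 0 ≤ ‖Real.cos t • E + Real.sin t • w‖ := norm_nonneg _
    nlinarith
  · have h1 : ‖Real.cos t • E + Real.sin t • w - E‖^2 ≤ t^2 := by
      have e1 : Real.cos t • E + Real.sin t • w - E = (Real.cos t - 1) • E + Real.sin t • w := by
        module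
      rw [e1, norm_add_sq_real, norm_smul, norm_smul, hE, hw1, inner_smul_left, inner_smul_right,
        hw2]
      simp only [Real.norm_eq_abs, mul_one, mul_zero, add_zero, sq_abs]
      have h3 := Real.one_sub_sq_div_two_le_cos (x := t)
      have h4 := Real.sin_sq_add_cos_sq t
      nlinarith
    have h2 : ‖Real.cos t • E + Real.sin t • w - E‖ ≤ t :=
      (abs_le_of_sq_le_sq' h1 ht0.le).2
    exact h2.trans (min_le_left _ _)
  · intro hcon
    have h1 : inner ℝ (Real.cos t • E + Real.sin t • w) w = inner ℝ E w := by rw [hcon]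
    rw [inner_add_left, inner_smul_left, inner_smul_left, hw2, real_inner_self_eq_norm_sq, hw1] at h1
    simp at h1
    linarith

/-- perturbation of a sequence of unit vectors: consecutive vectors become different -/
lemma exists_perturbed (E : ℕ → E3) (hE : ∀ i, ‖E i‖ = 1) {η : ℝ} (hη : 0 < η) :
    ∃ g : ℕ → E3, (∀ i, ‖g i‖ = 1) ∧ (∀ i, ‖g i - E i‖ ≤ η) ∧ ∀ i, g (i + 1) ≠ g i := by
  choose G hG1 hG2 hG3 using fun (i : ℕ) (g : E3) => exists_unit_near (E := E i) (g := g) (hE i) hη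
  let g : ℕ → E3 := fun n => Nat.rec (E 0) (fun k gk => G (k + 1) gk) n
  have g0 : g 0 = E 0 := rfl
  have gs : ∀ k, g (k + 1) = G (k + 1) (g k) := fun k => rfl
  refine ⟨g, fun i => ?_, fun i => ?_, fun i => ?_⟩
  · cases i with
    | zero => rw [g0]; exact hE 0
    | succ k => rw [gs]; exact hG1 _ _
  · cases i with
    | zero => rw [g0, sub_self, norm_zero]; exact hη.le
    | succ k => rw [gs]; exact hG2 _ _
  · rw [gs]; exact hG3 _ _

end MPeb2336

end

/-! ### parameters and final construction -/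

section

open Set Filter Topology MeasureTheory InnerProductGeometry

namespace MPeb2336

/-- All parameters of the construction. -/
structure Params (V : ℝ → E3) (c C M N lo hi : ℝ) (sp sm : ℕ → ℝ) (S : ℝ) (a0 a m : ℕ)
    (η α : ℝ) : Prop where
  smp : Sampled V c C M N lo hi sp sm
  C_nonneg : 0 ≤ C
  unitp : ∀ k, ‖∫ u in (sp k)..(sp (k + 1)), V u‖ = 1 / N
  unitm : ∀ k, ‖∫ u in (sm k)..(sm (k + 1)), revV V u‖ = 1 / N
  right : ∀ r, S ≤ r → V r = V S
  left : ∀ r, r ≤ -S → V r = V (-S)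
  tail : S ≤ lo * a0
  ha : 1 ≤ a
  haa : a0 ≤ a
  hm : 1100 * a < m
  ratio : 4 * ((a0:ℝ) / a) + 3 * η + N * C * hi ^ 2 ≤ N * c * lo / 4
  η_pos : 0 < η
  η_le : η ≤ 1/20000
  β_le : 4 * (N * C * hi ^ 2) ≤ 1/10
  α_pos : 0 < α
  α_le : α ≤ Real.pi / 2
  angle_bd : Real.pi * (2 * η + 4 * (N * C * hi ^ 2)) ≤ α
  needle_bd : m * (Real.pi * (2 * η)) ≤ 1/2000

variable {V : ℝ → E3} {c C M N lo hi : ℝ} {sp sm : ℕ → ℝ} {S : ℝ} {a0 a m : ℕ} {η α : ℝ}

section
variable (P : Params V c C M N lo hi sp sm S a0 a m η α)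
include P

lemma Params.β_nonneg : 0 ≤ N * C * hi ^ 2 := by
  have := P.smp.N_pos
  have := P.C_nonneg
  positivity

lemma Params.normP (k : ℕ) : ‖edge N V sp k‖ = 1 := norm_edge P.smp.N_pos P.unitp k

lemma Params.normM (k : ℕ) : ‖edge N (revV V) sm k‖ = 1 := norm_edge P.smp.N_pos P.unitm k

lemma Params.tailP {k : ℕ} (hk : a0 ≤ k) : edge N V sp k = ‖V S‖⁻¹ • V S := by
  refine edge_tail P.smp.N_pos P.smp.lo_pos P.smp.stepp P.unitp P.right ?_
  refine P.tail.trans (le_trans ?_ (sample_ge P.smp.sp0 P.smp.stepp k))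
  have := P.smp.lo_pos
  have : (a0:ℝ) ≤ k := by exact_mod_cast hk
  gcongr

lemma Params.tailM {k : ℕ} (hk : a0 ≤ k) :
    edge N (revV V) sm k = ‖revV V S‖⁻¹ • revV V S := by
  refine edge_tail P.smp.N_pos P.smp.lo_pos P.smp.stepm P.unitm (fun r hr => ?_) ?_
  · unfold revV; rw [P.left (-r) (by linarith)]
  · refine P.tail.trans (le_trans ?_ (sample_ge P.smp.sm0 P.smp.stepm k))
    have := P.smp.lo_pos
    have : (a0:ℝ) ≤ k := by exact_mod_cast hk
    gcongr

lemma Params.consP (k : ℕ) :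
    ‖edge N V sp k - edge N V sp (k + 1)‖ ≤ 4 * (N * C * hi ^ 2) := by
  have h := P.smp
  have m1 : sp (k+1) ∈ Icc (sp k) (sp (k+1)) := ⟨by linarith [(h.stepp k).1, h.lo_pos], le_rfl⟩
  have m2 : sp (k+1) ∈ Icc (sp (k+1)) (sp (k+1+1)) :=
    ⟨le_rfl, by linarith [(h.stepp (k+1)).1, h.lo_pos]⟩
  have h1 := edge_dir h.N_pos P.C_nonneg h.lip h.lo_pos h.stepp P.unitp k m1
  have h2 := edge_dir h.N_pos P.C_nonneg h.lip h.lo_pos h.stepp P.unitp (k+1) m2
  have e1 : edge N V sp k - edge N V sp (k + 1) =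
    (edge N V sp k - ‖V (sp (k+1))‖⁻¹ • V (sp (k+1))) -
      (edge N V sp (k + 1) - ‖V (sp (k+1))‖⁻¹ • V (sp (k+1))) := by abel
  rw [e1]
  refine (norm_sub_le _ _).trans ?_
  linarith

lemma Params.consM (k : ℕ) :
    ‖edge N (revV V) sm k - edge N (revV V) sm (k + 1)‖ ≤ 4 * (N * C * hi ^ 2) := by
  have h := P.smp
  have m1 : sm (k+1) ∈ Icc (sm k) (sm (k+1)) := ⟨by linarith [(h.stepm k).1, h.lo_pos], le_rfl⟩
  have m2 : sm (k+1) ∈ Icc (sm (k+1)) (sm (k+1+1)) :=
    ⟨le_rfl, by linarith [(h.stepm (k+1)).1, h.lo_pos]⟩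
  have h1 := edge_dir h.N_pos P.C_nonneg (revV_lip h.lip) h.lo_pos h.stepm P.unitm k m1
  have h2 := edge_dir h.N_pos P.C_nonneg (revV_lip h.lip) h.lo_pos h.stepm P.unitm (k+1) m2
  have e1 : edge N (revV V) sm k - edge N (revV V) sm (k + 1) =
    (edge N (revV V) sm k - ‖revV V (sm (k+1))‖⁻¹ • revV V (sm (k+1))) -
      (edge N (revV V) sm (k + 1) - ‖revV V (sm (k+1))‖⁻¹ • revV V (sm (k+1))) := by abel
  rw [e1]
  refine (norm_sub_le _ _).trans ?_
  linarith

lemma Params.cons0 :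
    ‖- edge N (revV V) sm 0 - edge N V sp 0‖ ≤ 4 * (N * C * hi ^ 2) := by
  have h := P.smp
  have m1 : (0:ℝ) ∈ Icc (sp 0) (sp (0+1)) := by
    rw [h.sp0]; exact ⟨le_rfl, by have := (h.stepp 0).1; rw [h.sp0] at this; linarith [h.lo_pos]⟩
  have m2 : (0:ℝ) ∈ Icc (sm 0) (sm (0+1)) := by
    rw [h.sm0]; exact ⟨le_rfl, by have := (h.stepm 0).1; rw [h.sm0] at this; linarith [h.lo_pos]⟩
  have h1 := edge_dir h.N_pos P.C_nonneg h.lip h.lo_pos h.stepp P.unitp 0 m1
  have h2 := edge_dir h.N_pos P.C_nonneg (revV_lip h.lip) h.lo_pos h.stepm P.unitm 0 m2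
  have e0 : revV V 0 = - V 0 := by simp [revV]
  rw [e0, norm_neg] at h2
  have e1 : - edge N (revV V) sm 0 - edge N V sp 0 =
    -(edge N (revV V) sm 0 - ‖V 0‖⁻¹ • -V 0) - (edge N V sp 0 - ‖V 0‖⁻¹ • V 0) := by
    rw [smul_neg]; abel
  rw [e1]
  refine (norm_sub_le _ _).trans ?_
  rw [norm_neg]
  linarith

omit P in
/-- the edges of the whole chain -/
def fullE (N : ℝ) (V : ℝ → E3) (sp sm : ℕ → ℝ) (m : ℕ) (i : ℕ) : E3 :=
  if m ≤ i then edge N V sp (i - m) else - edge N (revV V) sm (m - 1 - i)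

lemma Params.norm_fullE (i : ℕ) : ‖fullE N V sp sm m i‖ = 1 := by
  unfold fullE
  split_ifs
  · exact P.normP _
  · rw [norm_neg]; exact P.normM _

lemma Params.cons_fullE (i : ℕ) :
    ‖fullE N V sp sm m i - fullE N V sp sm m (i + 1)‖ ≤ 4 * (N * C * hi ^ 2) := by
  unfold fullE
  split_ifs with h1 h2 h3
  · have e : i + 1 - m = (i - m) + 1 := by omega
    rw [e]; exact P.consP _
  · omega
  · have e1 : i + 1 - m = 0 := by omega
    have e2 : m - 1 - i = 0 := by omega
    rw [e1, e2]; exact P.cons0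
  · have e : m - 1 - i = (m - 1 - (i + 1)) + 1 := by omega
    rw [e, neg_sub_neg]; exact P.consM _

/-- in the tails the edges are constant -/
lemma Params.tail_fullE_p {i : ℕ} (hi : m + a0 ≤ i) :
    fullE N V sp sm m i = ‖V S‖⁻¹ • V S := by
  unfold fullE
  rw [if_pos (by omega)]
  exact P.tailP (by omega)

lemma Params.tail_fullE_m {i : ℕ} (hi : i + a0 + 1 ≤ m) :
    fullE N V sp sm m i = - (‖revV V S‖⁻¹ • revV V S) := by
  unfold fullE
  rw [if_neg (by omega), P.tailM (by omega)]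

variable {f : ℕ → E3} (hf : ∀ i, ‖f i - fullE N V sp sm m i‖ ≤ η) (hlen : ∀ i, 1 ≤ ‖f i‖)

omit P in
lemma epOf_vert (k : ℕ) : epOf m (vert f) k = f (m + min k (m - 1)) := vert_sub f _

omit P in
lemma emOf_vert (hm1 : 1 ≤ m) (k : ℕ) : emOf m (vert f) k = - f (m - 1 - min k (m - 1)) := by
  unfold emOf
  have e : m - min k (m - 1) = (m - 1 - min k (m - 1)) + 1 := by omega
  have := vert_sub f (m - 1 - min k (m - 1))
  rw [e, ← this]; abel

include hf in
lemma Params.ep_close (k : ℕ) : ‖epOf m (vert f) k - edge N V sp k‖ ≤ η := by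
  have hm := P.hm
  have haa := P.haa
  rw [epOf_vert]
  rcases lt_or_ge k m with hk | hk
  · have e1 : min k (m - 1) = k := by omega
    have h1 := hf (m + k)
    have e2 : fullE N V sp sm m (m + k) = edge N V sp k := by
      unfold fullE; rw [if_pos (by omega)]; congr 1; omega
    rw [e1, ← e2]; exact h1
  · have e1 : min k (m - 1) = m - 1 := by omega
    have h1 := hf (m + (m - 1))
    rw [P.tail_fullE_p (by omega)] at h1
    rw [e1, P.tailP (by omega)]; exact h1

include hf in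
lemma Params.em_close (k : ℕ) : ‖emOf m (vert f) k - edge N (revV V) sm k‖ ≤ η := by
  have hm := P.hm
  have haa := P.haa
  rw [emOf_vert (by omega)]
  rcases lt_or_ge k m with hk | hk
  · have e1 : min k (m - 1) = k := by omega
    have h1 := hf (m - 1 - k)
    have e2 : fullE N V sp sm m (m - 1 - k) = - edge N (revV V) sm k := by
      unfold fullE; rw [if_neg (by omega)]; congr 2; omega
    rw [e2] at h1
    rw [e1, ← norm_neg]
    have e3 : -(-f (m - 1 - k) - edge N (revV V) sm k) = f (m - 1 - k) - - edge N (revV V) sm k := by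
      abel
    rw [e3]; exact h1
  · have e1 : min k (m - 1) = m - 1 := by omega
    have h1 := hf (m - 1 - (m - 1))
    rw [P.tail_fullE_m (by omega)] at h1
    rw [e1, P.tailM (by omega), ← norm_neg]
    have e3 : -(-f (m - 1 - (m - 1)) - ‖revV V S‖⁻¹ • revV V S) =
      f (m - 1 - (m - 1)) - - (‖revV V S‖⁻¹ • revV V S) := by abel
    rw [e3]; exact h1

include hf hlen in
lemma Params.cert {A : ℕ} (hA : 1 ≤ A) (hA0 : a0 ≤ A) :
    Cert A (epOf m (vert f)) (emOf m (vert f)) := by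
  have hm := P.hm
  refine ⟨hA, ?_, ?_, ?_⟩
  · exact halfCert_of_close (η := η) P.normP (fun k hk => P.tailP hk) hA0
      (fun k => (P.consP k).trans P.β_le) (P.ep_close hf) (P.η_le.trans (by norm_num))
      (fun k => by rw [epOf_vert]; exact hlen _)
  · exact halfCert_of_close (η := η) P.normM (fun k hk => P.tailM hk) hA0
      (fun k => (P.consM k).trans P.β_le) (P.em_close hf) (P.η_le.trans (by norm_num))
      (fun k => by rw [emOf_vert (by omega), norm_neg]; exact hlen _)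
  · rw [epOf_vert, emOf_vert (by omega)]
    have e1 : m + min 0 (m - 1) = m := by omega
    have e2 : m - 1 - min 0 (m - 1) = m - 1 := by omega
    rw [e1, e2, inner_neg_right]
    have h1 : ‖f m - f (m - 1)‖ ≤ 1 := by
      have e3 := P.cons_fullE (m - 1)
      have e4 : m - 1 + 1 = m := by omega
      rw [e4, norm_sub_rev] at e3
      have e5 : f m - f (m - 1) = (f m - fullE N V sp sm m m) +
        (fullE N V sp sm m m - fullE N V sp sm m (m - 1)) -
          (f (m - 1) - fullE N V sp sm m (m - 1)) := by abel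
      rw [e5]
      have h2 := norm_sub_le ((f m - fullE N V sp sm m m) +
        (fullE N V sp sm m m - fullE N V sp sm m (m - 1))) (f (m - 1) - fullE N V sp sm m (m - 1))
      have h3 := norm_add_le (f m - fullE N V sp sm m m)
        (fullE N V sp sm m m - fullE N V sp sm m (m - 1))
      linarith [hf m, hf (m - 1), P.β_le, P.η_le]
    have h2 := norm_sub_sq_real (f m) (f (m - 1))
    nlinarith [hlen m, hlen (m - 1), norm_nonneg (f m - f (m - 1))]

/-- closeness of half velocities -/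
lemma Params.vel_close {A : ℕ} (hA : 1 ≤ A) (hA0 : a0 ≤ A) {W : ℝ → E3} {s : ℕ → ℝ} {e : ℕ → E3}
    {d : E3} (he : HalfCert A e) (hclose : ∀ k, ‖e k - edge N W s k‖ ≤ η)
    (hnorm : ∀ k, ‖edge N W s k‖ = 1)
    (htail : ∀ k, a0 ≤ k → edge N W s k = d)
    (hnear : ∀ u, 0 ≤ u → ‖velG N W s u - edge N W s ⌊u⌋₊‖ ≤ N * C * hi ^ 2)
    {u : ℝ} (hu : 0 ≤ u) :
    ‖vel (Rad A) e u - velG N W s u‖ ≤ 4 * ((a0:ℝ) / A) + 3 * η + N * C * hi ^ 2 := by
  have hη := P.η_pos
  have hpos : 0 ≤ 4 * ((a0:ℝ) / A) := by positivity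
  rcases lt_or_ge u (tau A e) with h1 | h1
  · rw [vel_of_lt h1]
    have e1 : e ⌊u⌋₊ - velG N W s u = (e ⌊u⌋₊ - edge N W s ⌊u⌋₊) -
        (velG N W s u - edge N W s ⌊u⌋₊) := by abel
    rw [e1]
    refine (norm_sub_le _ _).trans ?_
    linarith [hclose ⌊u⌋₊, hnear u hu]
  · rw [vel_of_ge h1]
    have hA' : (1:ℝ) ≤ A := by exact_mod_cast hA
    have hA0' : (a0:ℝ) ≤ A := by exact_mod_cast hA0
    have t1 := he.tau_ge hA
    have hfl : a0 ≤ ⌊u⌋₊ := Nat.le_floor (by linarith)
    have hd : ‖d‖ = 1 := by rw [← htail a0 le_rfl]; exact hnorm _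
    have h2 := ray_near_dir he hA hA0 hd hη.le (fun k hk => by rw [← htail k hk]; exact hclose k)
    have h3 := hnear u hu
    rw [htail _ hfl] at h3
    have e1 : ray A e - velG N W s u = (ray A e - d) - (velG N W s u - d) := by abel
    rw [e1]
    refine (norm_sub_le _ _).trans ?_
    linarith

include hf hlen in
lemma Params.compare {A : ℕ} (hA : a ≤ A) :
    Function.Injective (curve (Rad A) (epOf m (vert f)) (emOf m (vert f))) ∧
    (CommCompl (range fun s => ∫ u in (0:ℝ)..s, V u) ↔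
      CommCompl (range (curve (Rad A) (epOf m (vert f)) (emOf m (vert f))))) := by
  have ha := P.ha
  have haa := P.haa
  have hA1 : 1 ≤ A := ha.trans hA
  have hA0 : a0 ≤ A := haa.trans hA
  have hcert := P.cert hf hlen hA1 hA0
  have hβ := P.β_nonneg
  have hη := P.η_pos
  have h := P.smp
  refine h.compare hcert (κ := 4 * ((a0:ℝ) / A) + 3 * η + N * C * hi ^ 2) ?_ ?_ ?_
  · have h1 : (a0:ℝ) / A ≤ a0 / a := by
      have : (0:ℝ) < a := by exact_mod_cast ha
      have : (a:ℝ) ≤ A := by exact_mod_cast hA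
      gcongr
    linarith [P.ratio]
  · intro u hu
    exact P.vel_close hA1 hA0 hcert.hp (P.ep_close hf) P.normP (fun k hk => P.tailP hk)
      (fun u hu => velG_near h.N_pos h.lo_pos h.stepp h.lip hu) hu
  · intro u hu
    exact P.vel_close hA1 hA0 hcert.hm (P.em_close hf) P.normM (fun k hk => P.tailM hk)
      (fun u hu => velG_near h.N_pos h.lo_pos h.stepm (revV_lip h.lip) hu) hu

include hf hlen in
lemma Params.angle_f (i : ℕ) : angle (f i) (f (i + 1)) ≤ α := by
  refine (angle_le_of_close (hlen i) (hlen (i + 1))).trans (le_trans ?_ P.angle_bd)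
  have hpi := Real.pi_pos
  gcongr
  have e1 : f i - f (i + 1) = (f i - fullE N V sp sm m i) +
    (fullE N V sp sm m i - fullE N V sp sm m (i + 1)) - (f (i + 1) - fullE N V sp sm m (i + 1)) := by
    abel
  rw [e1]
  have h2 := norm_sub_le ((f i - fullE N V sp sm m i) +
    (fullE N V sp sm m i - fullE N V sp sm m (i + 1))) (f (i + 1) - fullE N V sp sm m (i + 1))
  have h3 := norm_add_le (f i - fullE N V sp sm m i)
    (fullE N V sp sm m i - fullE N V sp sm m (i + 1))
  linarith [hf i, hf (i + 1), P.cons_fullE i]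

include hf hlen in
lemma Params.angle_tail {i : ℕ} (hi : fullE N V sp sm m i = fullE N V sp sm m (i + 1)) :
    angle (f i) (f (i + 1)) ≤ Real.pi * (2 * η) := by
  refine (angle_le_of_close (hlen i) (hlen (i + 1))).trans ?_
  have hpi := Real.pi_pos
  gcongr
  have e1 : f i - f (i + 1) = (f i - fullE N V sp sm m i) -
      (f (i + 1) - fullE N V sp sm m (i + 1)) := by rw [hi]; abel
  rw [e1]
  refine (norm_sub_le _ _).trans ?_
  linarith [hf i, hf (i + 1)]

omit P in
lemma angOf_vert {i : ℕ} (hi : 1 ≤ i) : angOf (vert f) i = angle (f (i - 1)) (f i) := by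
  unfold angOf
  have e : i - 1 + 1 = i := by omega
  have h1 := vert_sub f (i - 1)
  rw [e] at h1
  rw [h1, vert_sub]

omit P in
lemma lenOf_vert (i : ℕ) : lenOf (vert f) i = ‖f i‖ := by unfold lenOf; rw [vert_sub]

include hf hlen in
/-- the chain with edges `f` has a locked configuration -/
lemma Params.locked (hfc : FlatCaseStatement)
    (hub : ∀ i, ‖f i‖ ≤ 1 + 1/10000)
    (hnt : ¬ CommCompl (range fun s => ∫ u in (0:ℝ)..s, V u)) :
    Locked (2 * m) (lenOf (vert f)) (angOf (vert f)) (vert f) := by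
  have ha := P.ha
  have haa := P.haa
  have hm := P.hm
  have hcfg : IsConfig (2 * m) (lenOf (vert f)) (angOf (vert f)) (vert f) :=
    isConfig_of_injective (by omega) (P.cert hf hlen (by omega) (by omega))
      (P.compare hf hlen (by omega)).1
  have hbd : ∀ g : ℕ → ℝ, (∀ k ∈ Finset.Ico a (m - 1), g k ≤ Real.pi * (2 * η)) →
      ∑ k ∈ Finset.Ico a (m - 1), g k ≤ 1/2000 := by
    intro g hg
    refine (Finset.sum_le_card_nsmul _ _ _ hg).trans (le_trans ?_ P.needle_bd)
    rw [nsmul_eq_mul, Nat.card_Ico]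
    have hη := P.η_pos
    have hpi := Real.pi_pos
    have : ((m - 1 - a : ℕ) : ℝ) ≤ m := by exact_mod_cast (by omega : m - 1 - a ≤ m)
    gcongr
  have hc : ChainCert a m (lenOf (vert f)) (angOf (vert f)) := by
    refine ⟨ha, hm, fun i _ => ?_, fun i _ => ?_, fun i hi _ => ?_, ?_, ?_⟩
    · rw [lenOf_vert]; exact hlen i
    · rw [lenOf_vert]; exact hub i
    · rw [angOf_vert hi]
      have := P.angle_f hf hlen (i - 1)
      have e : i - 1 + 1 = i := by omega
      rw [e] at this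
      exact this.trans P.α_le
    · refine hbd _ fun k hk => ?_
      rw [Finset.mem_Ico] at hk
      rw [angOf_vert (by omega)]
      have e : m + k + 1 - 1 = m + k := by omega
      rw [e]
      refine P.angle_tail hf hlen ?_
      rw [P.tail_fullE_p (by omega), P.tail_fullE_p (by omega)]
    · refine hbd _ fun k hk => ?_
      rw [Finset.mem_Ico] at hk
      rw [angOf_vert (by omega)]
      have e : m - 1 - k = (m - 1 - k - 1) + 1 := by omega
      have h1 := P.angle_tail hf hlen (i := m - 1 - k - 1) (by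
        rw [P.tail_fullE_m (by omega), P.tail_fullE_m (by omega)])
      rw [← e] at h1
      exact h1
  refine locked_of_cert hfc hc hcfg ?_
  rw [← (P.compare hf hlen le_rfl).2]
  exact hnt

end

end MPeb2336

end

/-! ### the main theorem from a good model -/

section

open Set Filter Topology MeasureTheory InnerProductGeometry

namespace MPeb2336

/-- The statement of `exists_half_sampling`. -/
def HalfSamplingStatement : Prop :=
  ∀ {V : ℝ → E3} {c C M N : ℝ}, 0 < c → 0 < N → (∀ s, ‖V s‖ ≤ M) →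
    (∀ s t, ‖V s - V t‖ ≤ C * |s - t|) → (∀ s t, c * |s - t| ≤ ‖∫ u in s..t, V u‖) →
    ∃ s : ℕ → ℝ, s 0 = 0 ∧ ∀ k, 1 / (N * M) ≤ s (k+1) - s k ∧ s (k+1) - s k ≤ 1 / (c * N) ∧
      ‖∫ u in (s k)..(s (k+1)), V u‖ = 1 / N

lemma GoodModel.bdd {V : ℝ → E3} {c C S : ℝ} (hG : GoodModel V c C S) (s : ℝ) :
    ‖V s‖ ≤ ‖V 0‖ + |C| * S + 1 := by
  have hS := hG.S_pos
  have key : ∀ r, |r| ≤ S → ‖V r‖ ≤ ‖V 0‖ + |C| * S + 1 := by
    intro r hr
    have h1 := hG.lip r 0
    rw [sub_zero] at h1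
    have h2 : C * |r| ≤ |C| * S := by
      calc C * |r| ≤ |C| * |r| := by gcongr; exact le_abs_self C
        _ ≤ |C| * S := by gcongr
    have h3 := norm_add_le (V r - V 0) (V 0)
    rw [sub_add_cancel] at h3
    linarith
  rcases le_or_gt S s with h | h
  · rw [hG.right s h]; exact key S (by rw [abs_of_pos hS])
  rcases le_or_gt s (-S) with h' | h'
  · rw [hG.left s h']; exact key (-S) (by rw [abs_neg, abs_of_pos hS])
  · exact key s (by rw [abs_le]; constructor <;> linarith)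

/-- existence of parameters -/
lemma exists_params (hhs : HalfSamplingStatement) {V : ℝ → E3} {c C S : ℝ}
    (hG : GoodModel V c C S) {α : ℝ} (hα : 0 < α) (hα' : α ≤ Real.pi / 2) :
    ∃ (C' M N lo hi : ℝ) (sp sm : ℕ → ℝ) (a0 a m : ℕ) (η : ℝ),
      Params V c C' M N lo hi sp sm S a0 a m η α := by
  have hc := hG.c_pos
  have hS := hG.S_pos
  have hpi := Real.pi_pos
  set C1 : ℝ := |C| + 1 with hC1
  have hC1pos : 0 < C1 := by positivity
  set M : ℝ := ‖V 0‖ + |C| * S + 1 with hM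
  have hMpos : 0 < M := by positivity
  have hbdd : ∀ s, ‖V s‖ ≤ M := hG.bdd
  have hlip : ∀ s t, ‖V s - V t‖ ≤ C1 * |s - t| := fun s t => (hG.lip s t).trans (by
    gcongr
    rw [hC1]; linarith [le_abs_self C])
  set lam : ℝ := c / M with hlam
  have hlampos : 0 < lam := by positivity
  set β : ℝ := min (min (lam/16) (1/40)) (α/(8*Real.pi)) with hβ
  have hβpos : 0 < β := by positivity
  have hβ1 : β ≤ lam/16 := (min_le_left _ _).trans (min_le_left _ _)
  have hβ2 : β ≤ 1/40 := (min_le_left _ _).trans (min_le_right _ _)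
  have hβ3 : β ≤ α/(8*Real.pi) := min_le_right _ _
  set N : ℝ := C1 / (c^2 * β) with hN
  have hNpos : 0 < N := by positivity
  obtain ⟨sp, hsp0, hsp⟩ := hhs hc hNpos hbdd hlip hG.bilip
  obtain ⟨sm, hsm0, hsm⟩ := hhs hc hNpos (revV_bdd hbdd) (revV_lip hlip) (revV_bilip hG.bilip)
  set lo : ℝ := 1 / (N * M) with hlo
  set hi : ℝ := 1 / (c * N) with hhi
  have hlopos : 0 < lo := by positivity
  have hNCh : N * C1 * hi^2 = β := by
    rw [hhi, hN]; field_simp
  have hNcl : N * c * lo = lam := by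
    rw [hlo, hlam]; field_simp
  obtain ⟨a0, ha0⟩ : ∃ a0 : ℕ, a0 = ⌈S / lo⌉₊ := ⟨_, rfl⟩
  obtain ⟨K, hK⟩ : ∃ K : ℕ, K = ⌈64 / lam⌉₊ + 1 := ⟨_, rfl⟩
  obtain ⟨a, ha⟩ : ∃ a : ℕ, a = K * (a0 + 1) := ⟨_, rfl⟩
  obtain ⟨m, hm⟩ : ∃ m : ℕ, m = 1100 * a + 1 := ⟨_, rfl⟩
  have hmpos : (0:ℝ) < m := by rw [hm]; positivity
  set η : ℝ := min (min (lam/24) (1/20000)) (min (α/(4*Real.pi)) (1/(4000*Real.pi*m))) with hη
  have hηpos : 0 < η := by positivity
  have hη1 : η ≤ lam/24 := (min_le_left _ _).trans (min_le_left _ _)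
  have hη2 : η ≤ 1/20000 := (min_le_left _ _).trans (min_le_right _ _)
  have hη3 : η ≤ α/(4*Real.pi) := (min_le_right _ _).trans (min_le_left _ _)
  have hη4 : η ≤ 1/(4000*Real.pi*m) := (min_le_right _ _).trans (min_le_right _ _)
  have hKpos : 1 ≤ K := by omega
  have haa : a0 ≤ a := by
    rw [ha]; nlinarith
  have ha1 : 1 ≤ a := by
    rw [ha]; nlinarith
  refine ⟨C1, M, N, lo, hi, sp, sm, a0, a, m, η, ?_⟩
  refine { smp := ⟨hc, hNpos, hlopos, hlip, hG.bilip, hbdd, hsp0, hsm0,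
            fun k => ⟨(hsp k).1, (hsp k).2.1⟩, fun k => ⟨(hsm k).1, (hsm k).2.1⟩⟩
           C_nonneg := hC1pos.le
           unitp := fun k => (hsp k).2.2
           unitm := fun k => (hsm k).2.2
           right := hG.right
           left := hG.left
           tail := ?_
           ha := ha1
           haa := haa
           hm := by rw [hm]; omega
           ratio := ?_
           η_pos := hηpos
           η_le := hη2
           β_le := by rw [hNCh]; linarith
           α_pos := hα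
           α_le := hα'
           angle_bd := ?_
           needle_bd := ?_ }
  · have := Nat.le_ceil (S / lo)
    rw [div_le_iff₀ hlopos, ← ha0] at this
    rw [mul_comm]; exact this
  · rw [hNCh, hNcl]
    have h1 : 4 * ((a0:ℝ) / a) ≤ lam / 16 := by
      have hK' : 64 / lam ≤ (K:ℝ) := by
        have := Nat.le_ceil (64 / lam)
        rw [hK]; push_cast; linarith
      have hKp : (0:ℝ) < K := by exact_mod_cast hKpos
      rw [div_le_iff₀ hlampos] at hK'
      have ha' : (a:ℝ) = K * (a0 + 1) := by rw [ha]; push_cast; ring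
      have hap : (0:ℝ) < a := by exact_mod_cast ha1
      have ha00 : (0:ℝ) ≤ a0 := Nat.cast_nonneg _
      rw [← mul_div_assoc, div_le_div_iff₀ hap (by norm_num), ha']
      nlinarith
    linarith
  · rw [hNCh]
    rw [le_div_iff₀ (by positivity)] at hβ3 hη3
    nlinarith
  · rw [le_div_iff₀ (by positivity)] at hη4
    nlinarith

/-- **Main theorem**, from a good model and the flat case. -/
theorem main_of_model (hhs : HalfSamplingStatement) (hfc : FlatCaseStatement) {V : ℝ → E3}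
    {c C S : ℝ} (hG : GoodModel V c C S) {α : ℝ} (hα : 0 < α) (hα' : α ≤ Real.pi / 2) :
    ∃ n : ℕ, ∃ ε₀ : ℝ, 0 < ε₀ ∧ ∀ ε : ℝ, 0 < ε → ε < ε₀ →
      ∃ (ℓ θ : ℕ → ℝ) (q : ℕ → E3),
        (∀ i < n, 0 < ℓ i) ∧ (∀ i, 1 ≤ i → i < n → 0 < θ i ∧ θ i ≤ α) ∧
        HasLengthRatio n ℓ (1 + ε) ∧ Locked n ℓ θ q := by
  obtain ⟨C', M, N, lo, hi, sp, sm, a0, a, m, η, P⟩ := exists_params hhs hG hα hα'
  have hη := P.η_pos
  have hη2 := P.η_le
  have hm := P.hm
  refine ⟨2 * m, η / 2, by positivity, fun ε hε hε' => ?_⟩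
  obtain ⟨g, hg1, hg2, hg3⟩ := exists_perturbed (fullE N V sp sm m) P.norm_fullE
    (half_pos hη)
  let f : ℕ → E3 := fun i => if i = 0 then (1 + ε) • g 0 else g i
  have f0 : f 0 = (1 + ε) • g 0 := by simp [f]
  have fs : ∀ i, i ≠ 0 → f i = g i := fun i hi => by simp [f, hi]
  have nf0 : ‖f 0‖ = 1 + ε := by
    rw [f0, norm_smul, hg1, Real.norm_eq_abs, abs_of_pos (by linarith), mul_one]
  have nfs : ∀ i, i ≠ 0 → ‖f i‖ = 1 := fun i hi => by rw [fs i hi, hg1]
  have hf : ∀ i, ‖f i - fullE N V sp sm m i‖ ≤ η := by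
    intro i
    by_cases hi : i = 0
    · subst hi
      have e1 : f 0 - fullE N V sp sm m 0 = ε • g 0 + (g 0 - fullE N V sp sm m 0) := by
        rw [f0]; module
      rw [e1]
      refine (norm_add_le _ _).trans ?_
      rw [norm_smul, hg1, Real.norm_eq_abs, abs_of_pos hε]
      linarith [hg2 0]
    · rw [fs i hi]; linarith [hg2 i]
  have hlen : ∀ i, 1 ≤ ‖f i‖ := by
    intro i
    by_cases hi : i = 0
    · subst hi; rw [nf0]; linarith
    · rw [nfs i hi]
  have hub : ∀ i, ‖f i‖ ≤ 1 + 1/10000 := by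
    intro i
    by_cases hi : i = 0
    · subst hi; rw [nf0]; linarith
    · rw [nfs i hi]; norm_num
  refine ⟨lenOf (vert f), angOf (vert f), vert f, fun i _ => ?_, fun i hi _ => ⟨?_, ?_⟩, ?_, ?_⟩
  · rw [lenOf_vert]; linarith [hlen i]
  · rw [angOf_vert hi]
    refine lt_of_le_of_ne (angle_nonneg _ _) fun h0 => ?_
    rw [eq_comm, angle_eq_zero_iff] at h0
    obtain ⟨-, r, hr, hr'⟩ := h0
    -- both edges are positive multiples of `g (i-1)` and `g i`
    have hi0 : i ≠ 0 := by omega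
    obtain ⟨c1, hc1, e1⟩ : ∃ c1 : ℝ, 0 < c1 ∧ f (i - 1) = c1 • g (i - 1) := by
      by_cases h : i - 1 = 0
      · rw [h]; exact ⟨1 + ε, by linarith, f0⟩
      · exact ⟨1, one_pos, by rw [fs _ h, one_smul]⟩
    rw [fs i hi0, e1, smul_smul] at hr'
    have h1 : r * c1 = 1 := by
      have := hg1 i
      rw [hr', norm_smul, hg1, mul_one, Real.norm_eq_abs, abs_of_pos (by positivity)] at this
      exact this
    rw [h1, one_smul] at hr'
    have := hg3 (i - 1)
    have e : i - 1 + 1 = i := by omega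
    rw [e] at this
    exact this hr'
  · rw [angOf_vert hi]
    have := P.angle_f hf hlen (i - 1)
    have e : i - 1 + 1 = i := by omega
    rwa [e] at this
  · refine ⟨1 + ε, 1, ⟨⟨0, ?_, ?_⟩, ?_⟩, ⟨⟨1, ?_, ?_⟩, ?_⟩, by rw [div_one]⟩
    · simp only [mem_Iio]; omega
    · rw [lenOf_vert, nf0]
    · rintro _ ⟨i, _, rfl⟩
      rw [lenOf_vert]
      by_cases hi : i = 0
      · subst hi; rw [nf0]
      · rw [nfs i hi]; linarith
    · simp only [mem_Iio]; omega
    · rw [lenOf_vert, nfs 1 one_ne_zero]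
    · rintro _ ⟨i, _, rfl⟩
      rw [lenOf_vert]; exact hlen i
  · exact P.locked hf hlen hfc hub hG.nontrivial

end MPeb2336

end
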