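import Pool.Agent.Lib.MP_eb2336_co.Defs

/-!
# MP_eb2336_co : fixed-angle chains, configurations, motions, locked configurations

A chain with `n` links is given by its link lengths `ℓ 0, …, ℓ (n-1)` and its turn angles
`θ 1, …, θ (n-1)` (`θ i` is the turn angle at the interior vertex `i`); the other values of `ℓ`
and `θ` are irrelevant.  In the same way only the values `q 0, …, q n` of a configuration matter.
-/

noncomputable section

open Set Filter Topology

namespace MPeb2336

/-- `q 0, …, q n` is a configuration of the fixed-angle chain with `n` links, link lengths `ℓ` and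
turn angles `θ`: the distances and turn angles are the prescribed ones and the polygonal path with
vertices `q 0, …, q n` is simple. -/
structure IsConfig (n : ℕ) (ℓ θ : ℕ → ℝ) (q : ℕ → E3) : Prop where
  /-- the link `i`, from `q i` to `q (i + 1)`, has length `ℓ i` -/
  length : ∀ i < n, dist (q i) (q (i + 1)) = ℓ i
  /-- the angle between consecutive link vectors at the interior vertex `i` is `θ i` -/
  turn : ∀ i, 1 ≤ i → i < n →
    InnerProductGeometry.angle (q i - q (i - 1)) (q (i + 1) - q i) = θ i
  /-- links which are not consecutive are disjoint -/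
  disjoint : ∀ i j, i + 1 < j → j < n →
    Disjoint (segment ℝ (q i) (q (i + 1))) (segment ℝ (q j) (q (j + 1)))
  /-- consecutive links meet only at their common vertex -/
  adjacent : ∀ i, i + 1 < n →
    segment ℝ (q i) (q (i + 1)) ∩ segment ℝ (q (i + 1)) (q (i + 2)) = {q (i + 1)}

/-- The points `q 0, …, q n` lie in one plane. -/
def Flat (n : ℕ) (q : ℕ → E3) : Prop :=
  ∃ (v : E3) (c : ℝ), v ≠ 0 ∧ ∀ i ≤ n, inner ℝ v (q i) = c

/-- `γ` (on the time interval `[0, 1]`) is a motion of the chain from the configuration `q` to the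
configuration `q'`: a continuous path of configurations. -/
structure IsMotion (n : ℕ) (ℓ θ : ℕ → ℝ) (γ : ℝ → ℕ → E3) (q q' : ℕ → E3) : Prop where
  config : ∀ t ∈ Icc (0:ℝ) 1, IsConfig n ℓ θ (γ t)
  continuous : ∀ i ≤ n, ContinuousOn (fun t => γ t i) (Icc 0 1)
  start : ∀ i ≤ n, γ 0 i = q i
  finish : ∀ i ≤ n, γ 1 i = q' i

/-- The configuration `q` is locked: no motion carries it to a flat configuration. -/
def Locked (n : ℕ) (ℓ θ : ℕ → ℝ) (q : ℕ → E3) : Prop :=
  IsConfig n ℓ θ q ∧ ¬ ∃ γ q', IsMotion n ℓ θ γ q q' ∧ Flat n q'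

/-- The chain has length ratio (longest link length over shortest link length) equal to `L`. -/
def HasLengthRatio (n : ℕ) (ℓ : ℕ → ℝ) (L : ℝ) : Prop :=
  ∃ M μ, IsGreatest (ℓ '' Iio n) M ∧ IsLeast (ℓ '' Iio n) μ ∧ L = M / μ

end MPeb2336
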